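import Pool.Agent.Helper54.Brouwer

open Set Metric MeasureTheory Topology Function
open scoped ContDiff

namespace Pool.Agent.Helper54

section InnerProduct

variable {E : Type*} [NormedAddCommGroup E] [InnerProductSpace ℝ E] [FiniteDimensional ℝ E]

/-- Brouwer fixed point theorem for the closed unit ball of a finite-dimensional inner product
space. -/
theorem brouwer {F : E → E} (hF : ContinuousOn F (closedBall (0 : E) 1))
    (hmaps : MapsTo F (closedBall (0 : E) 1) (closedBall (0 : E) 1)) :
    ∃ x ∈ closedBall (0 : E) 1, F x = x := by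
  by_contra hcon
  push Not at hcon
  -- radial retraction
  set ρ : E → E := fun x => (max 1 ‖x‖)⁻¹ • x with hρ
  have hmax : ∀ x : E, 0 < max 1 ‖x‖ := fun x => lt_of_lt_of_le one_pos (le_max_left _ _)
  have hρcont : Continuous ρ := by
    apply Continuous.smul _ continuous_id
    exact (continuous_const.max continuous_norm).inv₀ (fun x => (hmax x).ne')
  have hρmem : ∀ x, ρ x ∈ closedBall (0 : E) 1 := by
    intro x
    rw [mem_closedBall_zero_iff, hρ]
    simp only
    rw [norm_smul, norm_inv, Real.norm_of_nonneg (hmax x).le, inv_mul_le_iff₀ (hmax x), mul_one]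
    exact le_max_right _ _
  have hρid : ∀ x : E, ‖x‖ ≤ 1 → ρ x = x := by
    intro x hx
    simp only [hρ]
    rw [max_eq_left hx, inv_one, one_smul]
  set F' : E → E := fun x => F (ρ x) with hF'
  have hF'cont : Continuous F' := by
    rw [← continuousOn_univ]
    exact hF.comp hρcont.continuousOn (fun x _ => hρmem x)
  have hF'norm : ∀ x, ‖F' x‖ ≤ 1 := fun x => by
    have := hmaps (hρmem x)
    rwa [mem_closedBall_zero_iff] at this
  set l : E → ℝ := fun x => max 0 (min 1 (2 - ‖x‖)) with hl
  have hlcont : Continuous l := by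
    simp only [hl]
    fun_prop
  have hl0 : ∀ x, 0 ≤ l x := fun x => le_max_left _ _
  have hl1 : ∀ x, l x ≤ 1 := fun x => max_le zero_le_one (min_le_left _ _)
  set H : E → E := fun x => x - l x • F' x with hH
  have hHcont : Continuous H := continuous_id.sub (hlcont.smul hF'cont)
  have hHne : ∀ x, H x ≠ 0 := by
    intro x hx
    have hx' : x = l x • F' x := sub_eq_zero.1 hx
    have h1 : ‖x‖ ≤ 1 := by
      rw [hx', norm_smul, Real.norm_of_nonneg (hl0 x)]
      calc l x * ‖F' x‖ ≤ 1 * 1 := mul_le_mul (hl1 x) (hF'norm x) (norm_nonneg _) zero_le_one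
        _ = 1 := one_mul 1
    have h2 : l x = 1 := by
      simp only [hl]
      rw [min_eq_left (by linarith), max_eq_right zero_le_one]
    rw [h2, one_smul] at hx'
    simp only [hF'] at hx'
    rw [hρid x h1] at hx'
    exact hcon x (by rwa [mem_closedBall_zero_iff]) hx'.symm
  have hHid : ∀ x, 2 ≤ ‖x‖ → H x = x := by
    intro x hx
    have h2 : l x = 0 := by
      simp only [hl]
      rw [max_eq_left]
      exact (min_le_right _ _).trans (by linarith)
    simp only [hH]
    rw [h2, zero_smul, sub_zero]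
  obtain ⟨δ, hδ, hδH⟩ : ∃ δ > 0, ∀ x ∈ closedBall (0 : E) 3, δ ≤ ‖H x‖ := by
    obtain ⟨x0, _, hx0'⟩ := (isCompact_closedBall (0 : E) 3).exists_isMinOn
      ⟨0, mem_closedBall_self (by norm_num)⟩ hHcont.norm.continuousOn
    exact ⟨‖H x0‖, norm_pos_iff.2 (hHne x0), fun x hx => hx0' hx⟩
  have hS : IsClosed {x : E | 5 / 2 ≤ ‖x‖} := isClosed_le continuous_const continuous_norm
  have hU : IsOpen {x : E | 2 < ‖x‖} := isOpen_lt continuous_const continuous_norm
  have hUS : {x : E | 2 < ‖x‖} ∈ 𝓝ˢ {x : E | 5 / 2 ≤ ‖x‖} := by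
    apply hU.mem_nhdsSet.2
    intro x hx
    have : (5:ℝ) / 2 ≤ ‖x‖ := hx
    show (2:ℝ) < ‖x‖
    linarith
  have hHU : ContDiffOn ℝ ((1 : ℕ∞) : WithTop ℕ∞) H {x : E | 2 < ‖x‖} := by
    apply contDiffOn_id.congr
    intro x hx
    exact hHid x (le_of_lt hx)
  obtain ⟨g, hgdiff, hgapprox, hgeq, -⟩ := hHcont.exists_contDiff_approx_and_eqOn 1
    (ε := fun _ => δ) continuous_const (fun _ => hδ) hS hUS hHU
  have hgne : ∀ x ∈ closedBall (0 : E) 3, g x ≠ 0 := by
    intro x hx h0
    have h1 := hgapprox x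
    rw [h0, dist_comm, dist_zero_right] at h1
    exact absurd (hδH x hx) (not_le.2 h1)
  have hWopen : IsOpen {x : E | g x ≠ 0} := isOpen_ne_fun hgdiff.continuous continuous_const
  refine no_retraction (R := 3) (by norm_num) (r := fun x => (3 * ‖g x‖⁻¹) • g x) hWopen hgne
    ?_ ?_ ?_
  · intro x hx
    apply ContDiffAt.contDiffWithinAt
    have h1 : ContDiffAt ℝ 1 g x := hgdiff.contDiffAt
    exact (contDiffAt_const.mul ((h1.norm ℝ hx).inv (norm_ne_zero_iff.2 hx))).smul h1
  · intro x hx
    have h0 : 0 < ‖g x‖ := norm_pos_iff.2 (hgne x hx)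
    rw [norm_smul, norm_mul, norm_inv, norm_norm, mul_assoc, inv_mul_cancel₀ h0.ne']
    norm_num
  · intro x hx
    have h1 : g x = x := by
      rw [hgeq (show (5:ℝ) / 2 ≤ ‖x‖ by rw [hx]; norm_num)]
      exact hHid x (by rw [hx]; norm_num)
    simp only [h1, hx]
    norm_num

/-- Local form of invariance of domain: an injective continuous map on the closed unit ball sends
the centre to an interior point of the image. -/
theorem mem_interior_image_closedBall {f : E → E} (hf : ContinuousOn f (closedBall (0 : E) 1))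
    (hinj : InjOn f (closedBall (0 : E) 1)) :
    f 0 ∈ interior (f '' closedBall (0 : E) 1) := by
  borelize E
  set μ : Measure E := Measure.addHaar with hμ
  set B : Set E := closedBall (0 : E) 1 with hB
  have hBc : IsCompact B := isCompact_closedBall _ _
  have h0B : (0 : E) ∈ B := mem_closedBall_self zero_le_one
  set K : Set E := f '' B with hK
  have hKc : IsCompact K := hBc.image_of_continuousOn hf
  -- the inverse is continuous on `K`
  set g0 : E → E := invFunOn f B with hg0
  have hg0mem : ∀ y ∈ K, g0 y ∈ B := fun y hy => invFunOn_mem hy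
  have hg0eq : ∀ y ∈ K, f (g0 y) = y := fun y hy => invFunOn_eq hy
  have hg0f : ∀ x ∈ B, g0 (f x) = x := fun x hx =>
    hinj (hg0mem _ (mem_image_of_mem f hx)) hx (hg0eq _ (mem_image_of_mem f hx))
  have hg0cont : ContinuousOn g0 K := by
    rw [continuousOn_iff_isClosed]
    intro t ht
    refine ⟨f '' (B ∩ t), ((hBc.inter_right ht).image_of_continuousOn
      (hf.mono inter_subset_left)).isClosed, ?_⟩
    ext y
    constructor
    · rintro ⟨hy1, hy2⟩
      exact ⟨⟨g0 y, ⟨hg0mem y hy2, hy1⟩, hg0eq y hy2⟩, hy2⟩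
    · rintro ⟨⟨x, ⟨hxB, hxt⟩, rfl⟩, hy2⟩
      refine ⟨?_, hy2⟩
      rw [mem_preimage, hg0f x hxB]
      exact hxt
  -- Tietze extension
  have : TietzeExtension E := TietzeExtension.of_tvs ℝ
  obtain ⟨G, hG⟩ := ContinuousMap.exists_restrict_eq hKc.isClosed
    (⟨K.domRestrict g0, hg0cont.domRestrict⟩ : C(K, E))
  have hGK : ∀ y ∈ K, G y = g0 y := by
    intro y hy
    exact congrArg (fun h : C(K, E) => h ⟨y, hy⟩) hG
  have hGf : ∀ x ∈ B, G (f x) = x := fun x hx => by
    rw [hGK _ (mem_image_of_mem f hx), hg0f x hx]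
  -- stable zero
  have hstable : ∀ G' : E → E, ContinuousOn G' K → (∀ y ∈ K, ‖G y - G' y‖ ≤ 1) →
      ∃ y ∈ K, G' y = 0 := by
    intro G' hG' hclose
    obtain ⟨x, hx, hxx⟩ := brouwer (F := fun x => x - G' (f x))
      (continuousOn_id.sub (hG'.comp hf (fun x hx => mem_image_of_mem f hx))) (by
        intro x hx
        have := hclose (f x) (mem_image_of_mem f hx)
        rw [hGf x hx] at this
        rwa [mem_closedBall_zero_iff])
    refine ⟨f x, mem_image_of_mem f hx, ?_⟩
    have h1 : x - G' (f x) = x := hxx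
    exact sub_eq_self.1 h1
  by_contra hcon
  set y0 : E := f 0 with hy0
  have hGy0 : G y0 = 0 := hGf 0 h0B
  obtain ⟨ε, hε, hGε⟩ : ∃ ε > 0, ∀ y, dist y y0 ≤ 2 * ε → ‖G y‖ ≤ 1 / 10 := by
    have h1 : ContinuousAt G y0 := G.continuous.continuousAt
    rcases Metric.continuousAt_iff.1 h1 (1 / 10) (by norm_num) with ⟨δ, hδ, h⟩
    refine ⟨δ / 3, by positivity, fun y hy => ?_⟩
    have h2 := h (show dist y y0 < δ by linarith)
    rw [hGy0, dist_zero_right] at h2
    exact h2.le
  obtain ⟨c, hcK, hcy⟩ : ∃ c, c ∉ K ∧ dist c y0 < ε := by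
    by_contra hc
    push Not at hc
    apply hcon
    rw [mem_interior_iff_mem_nhds, Metric.mem_nhds_iff]
    refine ⟨ε, hε, fun y hy => ?_⟩
    by_contra hyK
    exact absurd (hc y hyK) (not_le.2 hy)
  set Φ : E → E := fun y => c + max (ε / ‖y - c‖) 1 • (y - c) with hΦ
  have hyc : ∀ y ∈ K, 0 < ‖y - c‖ := fun y hy => by
    rw [norm_pos_iff, sub_ne_zero]
    rintro rfl
    exact hcK hy
  have hΦcont : ContinuousOn Φ K := by
    apply continuousOn_const.add
    apply ContinuousOn.smul
    · apply ContinuousOn.sup _ continuousOn_const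
      apply continuousOn_const.div
      · exact (continuousOn_id.sub continuousOn_const).norm
      · intro y hy
        exact (hyc y hy).ne'
    · exact continuousOn_id.sub continuousOn_const
  have hΦfar : ∀ y ∈ K, ε ≤ ‖y - c‖ → Φ y = y := by
    intro y hy h
    simp only [hΦ]
    rw [max_eq_right ((div_le_one (hyc y hy)).2 h), one_smul]
    abel
  have hΦnear : ∀ y ∈ K, ‖y - c‖ ≤ ε → dist (Φ y) c = ε := by
    intro y hy h
    simp only [hΦ]
    rw [max_eq_left ((one_le_div (hyc y hy)).2 h), dist_eq_norm, add_sub_cancel_left, norm_smul,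
      norm_div, norm_norm, Real.norm_of_nonneg hε.le, div_mul_cancel₀ _ (hyc y hy).ne']
  -- `G` is bounded below on the far part
  obtain ⟨δ, hδ, hδ1, hδG⟩ : ∃ δ > 0, δ ≤ 1 / 10 ∧ ∀ y ∈ K, ε ≤ ‖y - c‖ → δ ≤ ‖G y‖ := by
    have hS1 : IsCompact (K ∩ {y | ε ≤ ‖y - c‖}) :=
      hKc.inter_right (isClosed_le continuous_const (by fun_prop))
    rcases (K ∩ {y | ε ≤ ‖y - c‖}).eq_empty_or_nonempty with he | hne
    · refine ⟨1 / 10, by norm_num, le_rfl, fun y hy h => ?_⟩
      have : y ∈ K ∩ {y | ε ≤ ‖y - c‖} := ⟨hy, h⟩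
      rw [he] at this
      exact this.elim
    · obtain ⟨y1, hy1, hmin⟩ := hS1.exists_isMinOn hne G.continuous.norm.continuousOn
      have hG1 : G y1 ≠ 0 := by
        intro h0
        obtain ⟨x, hx, hxy⟩ := hy1.1
        rw [← hxy, hGf x hx] at h0
        have h1 : dist y1 c < ε := by
          rw [← hxy, h0, ← hy0, dist_comm]; exact hcy
        rw [dist_eq_norm] at h1
        exact absurd hy1.2 (not_le.2 h1)
      refine ⟨min ‖G y1‖ (1 / 10), lt_min (norm_pos_iff.2 hG1) (by norm_num), min_le_right _ _,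
        fun y hy h => (min_le_left _ _).trans (hmin ⟨hy, h⟩)⟩
  -- smooth approximation
  obtain ⟨P, hPdiff, hPapprox, -⟩ := G.continuous.exists_contDiff_approx 1
    (ε := fun _ => δ / 2) continuous_const (fun _ => by positivity)
  have hPnull : μ (P '' sphere c ε) = 0 := by
    apply addHaar_image_eq_zero_of_differentiableOn_of_addHaar_eq_zero
    · exact (hPdiff.differentiable one_ne_zero).differentiableOn
    · exact Measure.addHaar_sphere_of_ne_zero μ c hε.ne'
  obtain ⟨v, hvball, hvP⟩ : ∃ v ∈ ball (0 : E) (δ / 2), v ∉ P '' sphere c ε := by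
    by_contra hv
    push Not at hv
    have h1 : μ (ball (0 : E) (δ / 2)) ≤ μ (P '' sphere c ε) := measure_mono hv
    rw [hPnull] at h1
    exact absurd (measure_ball_pos μ (0 : E) (by positivity : 0 < δ / 2)) (not_lt.2 h1)
  rw [mem_ball_zero_iff] at hvball
  set G2 : E → E := fun y => P y - v with hG2
  have hG2close : ∀ y, ‖G y - G2 y‖ < δ := by
    intro y
    have h1 := hPapprox y
    rw [dist_comm, dist_eq_norm] at h1
    calc ‖G y - G2 y‖ = ‖(G y - P y) + v‖ := by simp only [hG2]; congr 1; abel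
      _ ≤ ‖G y - P y‖ + ‖v‖ := norm_add_le _ _
      _ < δ := by linarith
  obtain ⟨y, hyK, hy⟩ := hstable (fun y => G2 (Φ y))
    ((hPdiff.continuous.sub continuous_const).comp_continuousOn hΦcont) (by
      intro y hy
      rcases le_total ε ‖y - c‖ with h | h
      · rw [hΦfar y hy h]
        exact (hG2close y).le.trans (hδ1.trans (by norm_num))
      · have h1 : dist y y0 ≤ 2 * ε := by
          calc dist y y0 ≤ dist y c + dist c y0 := dist_triangle _ _ _
            _ ≤ ε + ε := add_le_add (by rwa [dist_eq_norm]) hcy.le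
            _ = 2 * ε := by ring
        have h2 : dist (Φ y) y0 ≤ 2 * ε := by
          calc dist (Φ y) y0 ≤ dist (Φ y) c + dist c y0 := dist_triangle _ _ _
            _ ≤ ε + ε := add_le_add (hΦnear y hy h).le hcy.le
            _ = 2 * ε := by ring
        have h3 := hGε y h1
        have h4 := hGε (Φ y) h2
        have h5 := (hG2close (Φ y)).le
        calc ‖G y - G2 (Φ y)‖ = ‖G y - G (Φ y) + (G (Φ y) - G2 (Φ y))‖ := by
              congr 1; abel
          _ ≤ ‖G y - G (Φ y)‖ + ‖G (Φ y) - G2 (Φ y)‖ := norm_add_le _ _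
          _ ≤ (‖G y‖ + ‖G (Φ y)‖) + ‖G (Φ y) - G2 (Φ y)‖ := by
              gcongr; exact norm_sub_le _ _
          _ ≤ 1 := by linarith)
  have hy' : G2 (Φ y) = 0 := hy
  rcases le_total ε ‖y - c‖ with h | h
  · rw [hΦfar y hyK h] at hy'
    have h1 := hG2close y
    rw [hy', sub_zero] at h1
    exact absurd (hδG y hyK h) (not_le.2 h1)
  · apply hvP
    refine ⟨Φ y, hΦnear y hyK h, ?_⟩
    simp only [hG2] at hy'
    exact sub_eq_zero.1 hy'

/-- Invariance of domain in a finite-dimensional inner product space. -/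
theorem invariance_of_domain_inner {f : E → E} {U : Set E} (hU : IsOpen U)
    (hf : ContinuousOn f U) (hinj : InjOn f U) : IsOpen (f '' U) := by
  rw [isOpen_iff_mem_nhds]
  rintro _ ⟨x, hx, rfl⟩
  obtain ⟨ρ, hρ, hρU⟩ := Metric.nhds_basis_closedBall.mem_iff.1 (hU.mem_nhds hx)
  set φ : E → E := fun z => x + ρ • z with hφ
  have hφmem : ∀ z ∈ closedBall (0 : E) 1, φ z ∈ closedBall x ρ := by
    intro z hz
    rw [mem_closedBall_zero_iff] at hz
    rw [mem_closedBall, dist_eq_norm]
    simp only [hφ]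
    rw [add_sub_cancel_left, norm_smul, Real.norm_of_nonneg hρ.le]
    nlinarith
  have h1 := mem_interior_image_closedBall (f := fun z => f (φ z))
    (hf.comp (by fun_prop) (fun z hz => hρU (hφmem z hz)))
    (by
      intro a ha b hb hab
      have h2 := hinj (hρU (hφmem a ha)) (hρU (hφmem b hb)) hab
      have h3 : ρ • a = ρ • b := add_left_cancel h2
      exact smul_right_injective E hρ.ne' h3)
  have h2 : f (φ 0) = f x := by simp [hφ]
  rw [mem_interior_iff_mem_nhds] at h1
  change _ ∈ 𝓝 (f (φ 0)) at h1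
  rw [h2] at h1
  apply Filter.mem_of_superset h1
  rintro _ ⟨z, hz, rfl⟩
  exact mem_image_of_mem f (hρU (hφmem z hz))

end InnerProduct

/-- **Invariance of domain** in a finite-dimensional real normed space: an injective continuous
map on an open set has open image. -/
theorem invariance_of_domain {E : Type*} [NormedAddCommGroup E] [NormedSpace ℝ E]
    [FiniteDimensional ℝ E] {f : E → E} {U : Set E} (hU : IsOpen U)
    (hf : ContinuousOn f U) (hinj : InjOn f U) : IsOpen (f '' U) := by
  set e := toEuclidean (E := E) with he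
  have h1 : IsOpen ((fun z => e (f (e.symm z))) '' (e.symm ⁻¹' U)) := by
    apply invariance_of_domain_inner
    · exact hU.preimage e.symm.continuous
    · apply e.continuous.comp_continuousOn
      exact hf.comp e.symm.continuous.continuousOn (fun z hz => hz)
    · intro a ha b hb hab
      exact e.symm.injective (hinj ha hb (e.injective hab))
  have h2 : f '' U = e ⁻¹' ((fun z => e (f (e.symm z))) '' (e.symm ⁻¹' U)) := by
    ext y
    constructor
    · rintro ⟨x, hx, rfl⟩
      exact ⟨e x, by simpa using hx, by simp⟩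
    · rintro ⟨z, hz, hzy⟩
      exact ⟨e.symm z, hz, e.injective hzy⟩
  rw [h2]
  exact h1.preimage e.continuous

end Pool.Agent.Helper54
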