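import Mathlib

open Set Metric MeasureTheory Topology Function
open scoped ContDiff

namespace Pool.Agent.Helper54

variable {E : Type*} [NormedAddCommGroup E] [NormedSpace ℝ E] [FiniteDimensional ℝ E]

/-- `t ↦ det (id + t A)` is a polynomial of degree at most the dimension. -/
lemma exists_poly_det (A : E →L[ℝ] E) :
    ∃ p : Polynomial ℝ, p.natDegree ≤ Module.finrank ℝ E ∧
      ∀ t : ℝ, p.eval t = (ContinuousLinearMap.id ℝ E + t • A).det := by
  classical
  let b := Module.finBasis ℝ E
  let M := LinearMap.toMatrix b b (A : E →ₗ[ℝ] E)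
  refine ⟨Matrix.det ((Polynomial.X : Polynomial ℝ) • M.map Polynomial.C
    + (1 : Matrix (Fin (Module.finrank ℝ E)) (Fin (Module.finrank ℝ E)) ℝ).map Polynomial.C),
    ?_, ?_⟩
  · simpa using Polynomial.natDegree_det_X_add_C_le M 1
  · intro t
    have h1 : (ContinuousLinearMap.id ℝ E + t • A).det
        = Matrix.det (1 + t • M) := by
      rw [ContinuousLinearMap.det, ← LinearMap.det_toMatrix b]
      congr 1
      simp [M, map_add]
    rw [h1]
    have h2 := RingHom.map_det (Polynomial.evalRingHom t)
      ((Polynomial.X : Polynomial ℝ) • M.map Polynomial.C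
      + (1 : Matrix (Fin (Module.finrank ℝ E)) (Fin (Module.finrank ℝ E)) ℝ).map Polynomial.C)
    rw [Polynomial.coe_evalRingHom] at h2
    rw [h2]
    congr 1
    ext i j
    simp [Matrix.one_apply]
    split_ifs <;> simp <;> ring

/-- There is no `C^1` retraction of a closed ball onto its boundary sphere
(Milnor, Rogers argument). -/
theorem no_retraction {R : ℝ} (hR : 0 < R) {r : E → E} {W : Set E} (hW : IsOpen W)
    (hBW : closedBall (0 : E) R ⊆ W) (hr : ContDiffOn ℝ 1 r W)
    (hmap : ∀ x ∈ closedBall (0 : E) R, ‖r x‖ = R) (hfix : ∀ x, ‖x‖ = R → r x = x) : False := by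
  borelize E
  set μ : Measure E := Measure.addHaar with hμ
  -- derivative of `g = r - id`
  have hdiff : ∀ x ∈ W, HasStrictFDerivAt r (fderiv ℝ r x) x := fun x hx =>
    ((hr x hx).contDiffAt (hW.mem_nhds hx)).hasStrictFDerivAt one_ne_zero
  have hcont : ContinuousOn (fderiv ℝ r) W := hr.continuousOn_fderiv_of_isOpen hW le_rfl
  set G : E → (E →L[ℝ] E) := fun x => fderiv ℝ r x - ContinuousLinearMap.id ℝ E with hG
  have hGcont : ContinuousOn G W := hcont.sub continuousOn_const
  set g : E → E := fun x => r x - x with hg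
  have hgdiff : ∀ x ∈ W, HasStrictFDerivAt g (G x) x := fun x hx =>
    (hdiff x hx).sub (hasStrictFDerivAt_id x)
  obtain ⟨C0, hC0⟩ := (isCompact_closedBall (0 : E) R).exists_bound_of_continuousOn
    (hGcont.mono hBW)
  set C : ℝ := max C0 1 with hC
  have hCpos : 0 < C := lt_of_lt_of_le one_pos (le_max_right _ _)
  have hGC : ∀ x ∈ closedBall (0 : E) R, ‖G x‖ ≤ C := fun x hx =>
    (hC0 x hx).trans (le_max_left _ _)
  have hLip : ∀ x ∈ closedBall (0 : E) R, ∀ y ∈ closedBall (0 : E) R,
      ‖g y - g x‖ ≤ C * ‖y - x‖ := fun x hx y hy =>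
    (convex_closedBall (0 : E) R).norm_image_sub_le_of_norm_hasFDerivWithin_le
      (fun z hz => (hgdiff z (hBW hz)).hasFDerivAt.hasFDerivWithinAt) hGC hx hy
  -- determinant near the identity
  obtain ⟨ε, hε, hdet⟩ : ∃ ε > 0, ∀ A : E →L[ℝ] E, ‖A - ContinuousLinearMap.id ℝ E‖ < ε →
      0 < A.det := by
    have h1 : ContinuousAt (fun A : E →L[ℝ] E => A.det) (ContinuousLinearMap.id ℝ E) :=
      ContinuousLinearMap.continuous_det.continuousAt
    have h2 : (ContinuousLinearMap.id ℝ E).det = 1 := by
      simp [ContinuousLinearMap.det]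
    have h3 : ∀ᶠ A in 𝓝 (ContinuousLinearMap.id ℝ E), (0:ℝ) < A.det := by
      apply h1.eventually_const_lt
      change 0 < (ContinuousLinearMap.id ℝ E).det
      rw [h2]; exact one_pos
    rcases Metric.eventually_nhds_iff.1 h3 with ⟨ε, hε, h⟩
    exact ⟨ε, hε, fun A hA => h (by rwa [dist_eq_norm])⟩
  -- the small parameter
  set t0 : ℝ := min (1 / 2) (ε / 2) / C with ht0
  have ht0pos : 0 < t0 := by positivity
  have ht0C : t0 * C = min (1 / 2) (ε / 2) := by
    rw [ht0]; field_simp
  have key : ∀ t : ℝ, 0 ≤ t → t ≤ t0 →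
      ∫ x in ball (0 : E) R, (ContinuousLinearMap.id ℝ E + t • G x).det ∂μ
        = μ.real (ball (0 : E) R) := by
    intro t htn htt
    have htC : t * C ≤ min (1 / 2) (ε / 2) := by
      rw [← ht0C]; exact mul_le_mul_of_nonneg_right htt hCpos.le
    have htC1 : t * C < 1 := lt_of_le_of_lt (htC.trans (min_le_left _ _)) (by norm_num)
    have htCε : t * C < ε := lt_of_le_of_lt (htC.trans (min_le_right _ _)) (by linarith)
    have ht1 : t < 1 := by
      have : t * 1 ≤ t * C := mul_le_mul_of_nonneg_left (le_max_right _ _) htn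
      linarith
    set rt : E → E := fun x => x + t • g x with hrt
    have hrtdiff : ∀ x ∈ W, HasStrictFDerivAt rt (ContinuousLinearMap.id ℝ E + t • G x) x :=
      fun x hx => (hasStrictFDerivAt_id x).add ((hgdiff x hx).const_smul t)
    have hinj : InjOn rt (closedBall (0 : E) R) := by
      intro x hx y hy hxy
      have h1 : y - x = - (t • (g y - g x)) := by
        have h0 : x + t • g x = y + t • g y := hxy
        have h2 : (y - x) + t • (g y - g x) = (y + t • g y) - (x + t • g x) := by
          rw [smul_sub]; abel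
        rw [← h0, sub_self] at h2
        exact eq_neg_of_add_eq_zero_left h2
      have h2 : ‖y - x‖ ≤ t * C * ‖y - x‖ := by
        calc ‖y - x‖ = ‖- (t • (g y - g x))‖ := by rw [← h1]
          _ = t * ‖g y - g x‖ := by rw [norm_neg, norm_smul, Real.norm_of_nonneg htn]
          _ ≤ t * (C * ‖y - x‖) := mul_le_mul_of_nonneg_left (hLip x hx y hy) htn
          _ = t * C * ‖y - x‖ := by ring
      have h3 : ‖y - x‖ = 0 := by
        by_contra hne
        have hpos : 0 < ‖y - x‖ := lt_of_le_of_ne (norm_nonneg _) (Ne.symm hne)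
        nlinarith
      exact (sub_eq_zero.1 (norm_eq_zero.1 h3)).symm
    have hdetpos : ∀ x ∈ closedBall (0 : E) R,
        0 < (ContinuousLinearMap.id ℝ E + t • G x).det := by
      intro x hx
      apply hdet
      rw [add_sub_cancel_left, norm_smul, Real.norm_of_nonneg htn]
      exact lt_of_le_of_lt (mul_le_mul_of_nonneg_left (hGC x hx) htn) htCε
    have hball : ball (0 : E) R ⊆ closedBall (0 : E) R := ball_subset_closedBall
    have hmaps : ∀ x ∈ ball (0 : E) R, rt x ∈ ball (0 : E) R := by
      intro x hx
      rw [mem_ball_zero_iff] at hx ⊢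
      have h1 : rt x = (1 - t) • x + t • r x := by
        simp only [hrt, hg]; rw [smul_sub, sub_smul, one_smul]; abel
      have hx' : x ∈ closedBall (0 : E) R := by
        rw [mem_closedBall_zero_iff]; exact hx.le
      calc ‖rt x‖ = ‖(1 - t) • x + t • r x‖ := by rw [h1]
        _ ≤ ‖(1 - t) • x‖ + ‖t • r x‖ := norm_add_le _ _
        _ = (1 - t) * ‖x‖ + t * R := by
            rw [norm_smul, norm_smul, Real.norm_of_nonneg htn,
              Real.norm_of_nonneg (by linarith : (0:ℝ) ≤ 1 - t), hmap x hx']
        _ < R := by nlinarith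
    have hopen : IsOpen (rt '' ball (0 : E) R) := by
      rw [isOpen_iff_mem_nhds]
      rintro _ ⟨x, hx, rfl⟩
      have hne := (hdetpos x (hball hx)).ne'
      have h1 : HasStrictFDerivAt rt
          (((ContinuousLinearMap.id ℝ E + t • G x).toContinuousLinearEquivOfDetNeZero hne :
            E ≃L[ℝ] E) : E →L[ℝ] E) x := by
        rw [ContinuousLinearMap.coe_toContinuousLinearEquivOfDetNeZero]
        exact hrtdiff x (hBW (hball hx))
      rw [← h1.map_nhds_eq_of_equiv]
      exact Filter.image_mem_map (isOpen_ball.mem_nhds hx)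
    have h0mem : (0 : E) ∈ ball (0 : E) R := mem_ball_self hR
    have himg : rt '' ball (0 : E) R = ball (0 : E) R := by
      apply Subset.antisymm
      · rintro _ ⟨x, hx, rfl⟩
        exact hmaps x hx
      · apply (convex_ball (0 : E) R).isPreconnected.subset_of_closure_inter_subset hopen
        · exact ⟨rt 0, hmaps 0 h0mem, mem_image_of_mem _ h0mem⟩
        · rintro y ⟨hy, hyb⟩
          have hcl : IsClosed (rt '' closedBall (0 : E) R) := by
            apply IsCompact.isClosed
            apply (isCompact_closedBall (0 : E) R).image_of_continuousOn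
            intro x hx
            exact (hrtdiff x (hBW hx)).hasFDerivAt.continuousAt.continuousWithinAt
          have hy' : y ∈ rt '' closedBall (0 : E) R :=
            (closure_minimal (image_mono hball) hcl) hy
          obtain ⟨x, hx, rfl⟩ := hy'
          rw [mem_closedBall_zero_iff] at hx
          rcases hx.lt_or_eq with h | h
          · exact ⟨x, by rwa [mem_ball_zero_iff], rfl⟩
          · exfalso
            have h2 : rt x = x := by
              simp only [hrt, hg]; rw [hfix x h, sub_self, smul_zero, add_zero]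
            rw [h2, mem_ball_zero_iff, h] at hyb
            exact lt_irrefl _ hyb
    have hint := integral_image_eq_integral_abs_det_fderiv_smul μ
      (measurableSet_ball (x := (0:E)) (ε := R))
      (fun x hx => (hrtdiff x (hBW (hball hx))).hasFDerivAt.hasFDerivWithinAt)
      (hinj.mono hball) (fun _ => (1 : ℝ))
    rw [himg] at hint
    simp only [smul_eq_mul, mul_one, setIntegral_const] at hint
    rw [hint]
    apply setIntegral_congr_fun measurableSet_ball
    intro x hx
    simp only
    rw [abs_of_pos (hdetpos x (hball hx))]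
  -- integrability
  have hintg : ∀ t : ℝ, IntegrableOn
      (fun x => (ContinuousLinearMap.id ℝ E + t • G x).det) (ball (0 : E) R) μ := by
    intro t
    apply IntegrableOn.mono_set _ (ball_subset_closedBall)
    apply ContinuousOn.integrableOn_compact (isCompact_closedBall (0 : E) R)
    apply ContinuousLinearMap.continuous_det.comp_continuousOn
    exact continuousOn_const.add ((hGcont.mono hBW).const_smul t)
  -- Lagrange interpolation
  set d := Module.finrank ℝ E with hd
  set h : ℝ := t0 / (d + 1) with hh
  have hhpos : 0 < h := by positivity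
  set v : ℕ → ℝ := fun k => k * h with hv
  have hvinj : Set.InjOn v (Finset.range (d + 1) : Set ℕ) := by
    intro a _ b _ hab
    have : (a : ℝ) * h = b * h := hab
    exact_mod_cast mul_right_cancel₀ hhpos.ne' this
  have hvmem : ∀ k ∈ Finset.range (d + 1), 0 ≤ v k ∧ v k ≤ t0 := by
    intro k hk
    rw [Finset.mem_range] at hk
    have hk' : (k : ℝ) ≤ d := by exact_mod_cast Nat.lt_succ_iff.1 hk
    refine ⟨by positivity, ?_⟩
    have h1 : (k : ℝ) * h ≤ (d + 1) * h := by nlinarith
    have h2 : ((d : ℝ) + 1) * h = t0 := by rw [hh]; field_simp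
    simpa [hv, h2] using h1
  have hlag : ∀ x : E, (ContinuousLinearMap.id ℝ E + (1 : ℝ) • G x).det
      = ∑ k ∈ Finset.range (d + 1), (ContinuousLinearMap.id ℝ E + (v k) • G x).det *
        (Lagrange.basis (Finset.range (d + 1)) v k).eval 1 := by
    intro x
    obtain ⟨p, hp, hpe⟩ := exists_poly_det (G x)
    have h1 : p.degree < (Finset.range (d + 1)).card := by
      rw [Finset.card_range]
      calc p.degree ≤ p.natDegree := Polynomial.degree_le_natDegree
        _ ≤ (d : ℕ) := by exact_mod_cast hp
        _ < ((d + 1 : ℕ) : WithBot ℕ) := by exact_mod_cast Nat.lt_succ_self d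
    have h2 := Lagrange.eq_interpolate hvinj h1
    rw [Lagrange.interpolate_apply] at h2
    have h3 := congrArg (Polynomial.eval 1) h2
    rw [Polynomial.eval_finsetSum] at h3
    rw [← hpe 1, h3]
    apply Finset.sum_congr rfl
    intro k _
    rw [Polynomial.eval_mul, Polynomial.eval_C, hpe]
  have hsum : ∑ k ∈ Finset.range (d + 1),
      (Lagrange.basis (Finset.range (d + 1)) v k).eval 1 = 1 := by
    have h1 := Lagrange.sum_basis hvinj (Finset.nonempty_range_iff.2 (Nat.succ_ne_zero d))
    have h2 := congrArg (Polynomial.eval 1) h1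
    rwa [Polynomial.eval_finsetSum, Polynomial.eval_one] at h2
  have hval : ∫ x in ball (0 : E) R, (ContinuousLinearMap.id ℝ E + (1 : ℝ) • G x).det ∂μ
      = μ.real (ball (0 : E) R) := by
    calc ∫ x in ball (0 : E) R, (ContinuousLinearMap.id ℝ E + (1 : ℝ) • G x).det ∂μ
        = ∫ x in ball (0 : E) R, ∑ k ∈ Finset.range (d + 1),
          (ContinuousLinearMap.id ℝ E + (v k) • G x).det *
          (Lagrange.basis (Finset.range (d + 1)) v k).eval 1 ∂μ := by
          simp only [hlag]
      _ = ∑ k ∈ Finset.range (d + 1), ∫ x in ball (0 : E) R,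
          (ContinuousLinearMap.id ℝ E + (v k) • G x).det *
          (Lagrange.basis (Finset.range (d + 1)) v k).eval 1 ∂μ := by
          apply integral_finsetSum
          intro k _
          exact (hintg (v k)).mul_const _
      _ = ∑ k ∈ Finset.range (d + 1), μ.real (ball (0 : E) R) *
          (Lagrange.basis (Finset.range (d + 1)) v k).eval 1 := by
          apply Finset.sum_congr rfl
          intro k hk
          rw [integral_mul_const, key (v k) (hvmem k hk).1 (hvmem k hk).2]
      _ = μ.real (ball (0 : E) R) := by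
          rw [← Finset.mul_sum, hsum, mul_one]
  have hzero : ∫ x in ball (0 : E) R, (ContinuousLinearMap.id ℝ E + (1 : ℝ) • G x).det ∂μ = 0 := by
    apply setIntegral_eq_zero_of_forall_eq_zero
    intro x hx
    have h1 : ContinuousLinearMap.id ℝ E + (1 : ℝ) • G x = fderiv ℝ r x := by
      simp [hG]
    rw [h1]
    by_contra hne
    have h2 : HasStrictFDerivAt r
        (((fderiv ℝ r x).toContinuousLinearEquivOfDetNeZero hne : E ≃L[ℝ] E) : E →L[ℝ] E) x := by
      rw [ContinuousLinearMap.coe_toContinuousLinearEquivOfDetNeZero]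
      exact hdiff x (hBW (ball_subset_closedBall hx))
    have h3 : sphere (0 : E) R ∈ 𝓝 (r x) := by
      rw [← h2.map_nhds_eq_of_equiv, Filter.mem_map]
      filter_upwards [isOpen_ball.mem_nhds hx] with y hy
      rw [mem_preimage, mem_sphere_zero_iff_norm]
      exact hmap y (ball_subset_closedBall hy)
    have h4 : r x ∈ interior (sphere (0 : E) R) := mem_interior_iff_mem_nhds.2 h3
    rw [interior_sphere _ hR.ne'] at h4
    exact h4
  rw [hval] at hzero
  have hpos : 0 < μ.real (ball (0 : E) R) := by
    apply ENNReal.toReal_pos (measure_ball_pos μ 0 hR).ne' measure_ball_lt_top.ne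
  exact hpos.ne' hzero

end Pool.Agent.Helper54
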