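import Mathlib

open Set Metric Filter Topology Function
open scoped NNReal ENNReal

namespace Pool.Agent.Helper54

variable {X : Type*} [MetricSpace X]

/-- Every closed ball inside `U` contains, in its concentric half ball, a connected set of
diameter at least a quarter of the radius, a neighbourhood of which lies in `O`. -/
def Rich (U O : Set X) : Prop :=
  ∀ x : X, ∀ r : ℝ, 0 < r → closedBall x r ⊆ U →
    ∃ K ⊆ closedBall x (r / 2), IsPreconnected K ∧ (∃ y ∈ K, ∃ z ∈ K, r / 4 ≤ dist y z) ∧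
      ∃ δ > 0, ∀ y ∈ K, closedBall y δ ⊆ O

/-- The splitting step. -/
lemma split_step {U O : Set X} (h : Rich U O) {s : ℝ} (hs1 : s < 1)
    {x : X} {r : ℝ} (hr : 0 < r) (hU : closedBall x r ⊆ U) {w : ℝ} :
    ∃ (N : ℕ) (c : ℕ → X) (r' : ℝ), 0 < N ∧ 0 < r' ∧ r' ≤ r / 2 ∧
      (∀ j < N, closedBall (c j) r' ⊆ closedBall x r ∩ O) ∧
      (∀ i < N, ∀ j < N, ∀ u ∈ closedBall (c i) r', ∀ v ∈ closedBall (c j) r',
        |(i : ℝ) - j| * (2 * r') ≤ dist u v) ∧
      w / N ≤ r' ^ s ∧ r / 16 ≤ N * r' := by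
  obtain ⟨K, hKsub, hKconn, ⟨y, hy, z, hz, hyz⟩, δ, hδ, hδO⟩ := h x r hr hU
  set D : ℝ := dist y z with hD
  have hDpos : 0 < D := lt_of_lt_of_le (by positivity) hyz
  have hDr : D ≤ r := by
    calc D ≤ dist y x + dist x z := dist_triangle _ _ _
      _ ≤ r / 2 + r / 2 := add_le_add (hKsub hy) (by rw [dist_comm]; exact hKsub hz)
      _ = r := by ring
  -- choose `N`
  have hlim : Tendsto (fun N : ℕ => D / (4 * (N : ℝ))) atTop (𝓝 0) := by
    apply Tendsto.div_atTop tendsto_const_nhds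
    exact tendsto_natCast_atTop_atTop.const_mul_atTop (by norm_num)
  have hlim2 : Tendsto (fun N : ℕ => (4 * w / D) * (D / (4 * (N : ℝ))) ^ (1 - s)) atTop (𝓝 0) := by
    have h1 : Tendsto (fun N : ℕ => (D / (4 * (N : ℝ))) ^ (1 - s)) atTop (𝓝 (0 ^ (1 - s))) :=
      hlim.rpow_const (Or.inr (by linarith))
    rw [Real.zero_rpow (by linarith)] at h1
    simpa using h1.const_mul (4 * w / D)
  obtain ⟨N, hN0, hNδ, hNw⟩ : ∃ N : ℕ, 0 < N ∧ D / (4 * (N : ℝ)) ≤ δ ∧
      (4 * w / D) * (D / (4 * (N : ℝ))) ^ (1 - s) ≤ 1 := by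
    have e1 := eventually_gt_atTop (0 : ℕ)
    have e2 : ∀ᶠ N : ℕ in atTop, D / (4 * (N : ℝ)) < δ := hlim.eventually_lt_const hδ
    have e3 : ∀ᶠ N : ℕ in atTop, (4 * w / D) * (D / (4 * (N : ℝ))) ^ (1 - s) < 1 :=
      hlim2.eventually_lt_const one_pos
    obtain ⟨N, h1, h2, h3⟩ := (e1.and (e2.and e3)).exists
    exact ⟨N, h1, h2.le, h3.le⟩
  have hNpos : (0 : ℝ) < N := by exact_mod_cast hN0
  set r' : ℝ := D / (4 * (N : ℝ)) with hr'
  have hr'pos : 0 < r' := by positivity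
  have hNr' : (N : ℝ) * r' = D / 4 := by rw [hr']; field_simp
  -- points on the continuum
  have hpt : ∀ j : ℕ, j < N → ∃ u ∈ K, dist u y = j * (D / N) := by
    intro j hj
    have hcont : ContinuousOn (fun u => dist u y) K := by fun_prop
    have h1 := hKconn.intermediate_value hy hz hcont
    have h2 : (j : ℝ) * (D / N) ∈ Icc (dist y y) (dist z y) := by
      rw [dist_self, dist_comm z y]
      refine ⟨by positivity, ?_⟩
      have : (j : ℝ) ≤ N := by exact_mod_cast hj.le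
      calc (j : ℝ) * (D / N) ≤ N * (D / N) := by gcongr
        _ = D := by field_simp
    obtain ⟨u, hu, hu2⟩ := h1 h2
    exact ⟨u, hu, hu2⟩
  have : Nonempty X := ⟨x⟩
  choose! c hcK hcy using hpt
  refine ⟨N, c, r', hN0, hr'pos, ?_, ?_, ?_, ?_, ?_⟩
  · have h1 : (1 : ℝ) ≤ N := by exact_mod_cast hN0
    nlinarith
  · intro j hj
    have hr'4 : r' ≤ r / 4 := by
      have h1 : (1 : ℝ) ≤ N := by exact_mod_cast hN0
      nlinarith
    apply subset_inter
    · intro u hu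
      rw [mem_closedBall] at hu ⊢
      have h2 := hKsub (hcK j hj)
      rw [mem_closedBall] at h2
      linarith [dist_triangle u (c j) x]
    · exact (closedBall_subset_closedBall hNδ).trans (hδO _ (hcK j hj))
  · intro i hi j hj u hu v hv
    rcases eq_or_ne i j with rfl | hij
    · simp
    have h1 : |(i : ℝ) - j| * (D / N) ≤ dist (c i) (c j) := by
      have h2 : |dist (c i) y - dist (c j) y| ≤ dist (c i) (c j) := abs_dist_sub_le _ _ _
      rw [hcy i hi, hcy j hj, ← sub_mul, abs_mul, abs_of_pos (by positivity : 0 < D / N)] at h2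
      exact h2
    have h3 : D / N = 4 * r' := by rw [hr']; field_simp
    rw [h3] at h1
    have h4 : (1 : ℝ) ≤ |(i : ℝ) - j| := by
      have : (i : ℤ) - j ≠ 0 := by
        intro h; apply hij; omega
      have h5 : (1 : ℤ) ≤ |(i : ℤ) - j| := Int.one_le_abs this
      exact_mod_cast h5
    rw [mem_closedBall] at hu hv
    have h6 : dist (c i) (c j) ≤ dist u v + 2 * r' := by
      calc dist (c i) (c j) ≤ dist (c i) u + dist u v + dist v (c j) := dist_triangle4 _ _ _ _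
        _ ≤ r' + dist u v + r' := by
            gcongr
            rw [dist_comm]; exact hu
        _ = dist u v + 2 * r' := by ring
    nlinarith
  · have h1 : w / N = (4 * w / D) * r' := by rw [hr']; field_simp
    have h2 : r' ^ s * r' ^ (1 - s) = r' := by
      rw [← Real.rpow_add hr'pos]; simp
    have h3 : 0 < r' ^ s := Real.rpow_pos_of_pos hr'pos s
    calc w / N = r' ^ s * ((4 * w / D) * r' ^ (1 - s)) := by rw [h1]; nth_rw 1 [← h2]; ring
      _ ≤ r' ^ s * 1 := by gcongr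
      _ = r' ^ s := mul_one _
  · rw [hNr']; linarith

/-- Nodes of the scheme: a ball together with a half-open interval. -/
structure Node (X : Type*) where
  /-- centre of the ball -/
  x : X
  /-- radius of the ball -/
  r : ℝ
  /-- left end point of the interval -/
  t : ℝ
  /-- length of the interval -/
  w : ℝ

/-- the closed ball of a node -/
def Node.ball (n : Node X) : Set X := closedBall n.x n.r

/-- the half-open interval of a node -/
def Node.ival (n : Node X) : Set ℝ := Ico n.t (n.t + n.w)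

/-- validity of a node -/
def Node.Valid (U : Set X) (s : ℝ) (n : Node X) : Prop :=
  0 < n.r ∧ n.ball ⊆ U ∧ 0 < n.w ∧ n.w ≤ n.r ^ s

lemma node_step {U O : Set X} (h : Rich U O) {s : ℝ} (hs1 : s < 1)
    (n : Node X) (hn : n.Valid U s) :
    ∃ ch : ℝ → Node X, ∀ τ ∈ n.ival, (ch τ).Valid U s ∧ (ch τ).ball ⊆ n.ball ∩ O ∧
      (ch τ).r ≤ n.r / 2 ∧ τ ∈ (ch τ).ival ∧
      ∀ τ' ∈ n.ival, ch τ ≠ ch τ' → ∀ u ∈ (ch τ).ball, ∀ v ∈ (ch τ').ball,
        |τ - τ'| ≤ 16 * n.w / n.r * dist u v := by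
  obtain ⟨hr, hU, hw, hwr⟩ := hn
  obtain ⟨N, c, r', hN, hr', hr'2, hsub, hsep, hwN, hNr⟩ := split_step h hs1 hr hU (w := n.w)
  have hNpos : (0 : ℝ) < N := by exact_mod_cast hN
  set q : ℝ := n.w / N with hq
  have hqpos : 0 < q := by positivity
  have hNq : (N : ℝ) * q = n.w := by rw [hq]; field_simp
  set idx : ℝ → ℕ := fun τ => ⌊(τ - n.t) / q⌋₊ with hidx
  have hidx1 : ∀ τ ∈ n.ival, (idx τ : ℝ) * q ≤ τ - n.t := by
    intro τ hτ
    have h1 : 0 ≤ (τ - n.t) / q := div_nonneg (sub_nonneg.2 hτ.1) hqpos.le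
    have h2 := Nat.floor_le h1
    rwa [le_div_iff₀ hqpos] at h2
  have hidx2 : ∀ τ, τ - n.t < ((idx τ : ℝ) + 1) * q := by
    intro τ
    have h2 := Nat.lt_floor_add_one ((τ - n.t) / q)
    rwa [div_lt_iff₀ hqpos] at h2
  have hidxN : ∀ τ ∈ n.ival, idx τ < N := by
    intro τ hτ
    have h1 := hidx1 τ hτ
    have h2 : τ < n.t + n.w := hτ.2
    have h3 : (idx τ : ℝ) * q < N * q := by linarith
    exact_mod_cast lt_of_mul_lt_mul_right h3 hqpos.le
  refine ⟨fun τ => ⟨c (idx τ), r', n.t + idx τ * q, q⟩, ?_⟩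
  intro τ hτ
  refine ⟨⟨hr', ?_, hqpos, hwN⟩, hsub _ (hidxN τ hτ), hr'2, ⟨?_, ?_⟩, ?_⟩
  · exact (hsub _ (hidxN τ hτ)).trans (inter_subset_left.trans hU)
  · have := hidx1 τ hτ
    show n.t + idx τ * q ≤ τ
    linarith
  · have := hidx2 τ
    show τ < n.t + idx τ * q + q
    linarith
  · intro τ' hτ' hne u hu v hv
    have hij : idx τ ≠ idx τ' := by
      intro h; apply hne; simp only [h]
    have h1 := hsep _ (hidxN τ hτ) _ (hidxN τ' hτ') u hu v hv
    have h4 : (1 : ℝ) ≤ |(idx τ : ℝ) - idx τ'| := by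
      have : (idx τ : ℤ) - idx τ' ≠ 0 := by
        intro h; apply hij; omega
      have h5 : (1 : ℤ) ≤ |(idx τ : ℤ) - idx τ'| := Int.one_le_abs this
      exact_mod_cast h5
    have h5 : |τ - τ'| ≤ (|(idx τ : ℝ) - idx τ'| + 1) * q := by
      have a1 := hidx1 τ hτ
      have a2 := hidx2 τ
      have b1 := hidx1 τ' hτ'
      have b2 := hidx2 τ'
      have e1 := le_abs_self ((idx τ : ℝ) - idx τ')
      have e2 := neg_abs_le ((idx τ : ℝ) - idx τ')
      rw [abs_le]
      constructor <;> nlinarith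
    have h6 : |τ - τ'| ≤ 2 * |(idx τ : ℝ) - idx τ'| * q := by nlinarith
    have hrpos : 0 < n.r := hr
    have h7 : q ≤ 16 * n.w / n.r * r' := by
      rw [div_mul_eq_mul_div, le_div_iff₀ hr, hq, div_mul_eq_mul_div, div_le_iff₀ hNpos]
      nlinarith
    calc |τ - τ'| ≤ 2 * |(idx τ : ℝ) - idx τ'| * q := h6
      _ ≤ 2 * |(idx τ : ℝ) - idx τ'| * (16 * n.w / n.r * r') := by gcongr
      _ = 16 * n.w / n.r * (|(idx τ : ℝ) - idx τ'| * (2 * r')) := by ring
      _ ≤ 16 * n.w / n.r * dist u v := by gcongr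

/-- The limit set of the scheme has Hausdorff dimension at least `s`, for every `s < 1`. -/
theorem le_dimH_of_rich [CompleteSpace X] {U : Set X} {O : ℕ → Set X}
    (hO : ∀ i, Rich U (O i)) {s : ℝ≥0} (hs0 : 0 < s) (hs1 : s < 1)
    {x0 : X} {r0 : ℝ} (hr0 : 0 < r0) (hU : closedBall x0 r0 ⊆ U) :
    (s : ℝ≥0∞) ≤ dimH (U ∩ ⋂ i, O i) := by
  have hs1' : (s : ℝ) < 1 := by exact_mod_cast hs1
  have : Nonempty X := ⟨x0⟩
  have : Nonempty (Node X) := ⟨⟨x0, 0, 0, 0⟩⟩
  have H : ∀ i : ℕ, ∀ n : Node X, n.Valid U s → ∃ ch : ℝ → Node X, ∀ τ ∈ n.ival,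
      (ch τ).Valid U s ∧ (ch τ).ball ⊆ n.ball ∩ O i ∧
      (ch τ).r ≤ n.r / 2 ∧ τ ∈ (ch τ).ival ∧
      ∀ τ' ∈ n.ival, ch τ ≠ ch τ' → ∀ u ∈ (ch τ).ball, ∀ v ∈ (ch τ').ball,
        |τ - τ'| ≤ 16 * n.w / n.r * dist u v := fun i n hn => node_step (hO i) hs1' n hn
  choose! ch hch using H
  set root : Node X := ⟨x0, r0, 0, r0 ^ (s : ℝ)⟩ with hroot
  have hrootv : root.Valid U s :=
    ⟨hr0, hU, Real.rpow_pos_of_pos hr0 _, le_rfl⟩
  set seq : ℝ → ℕ → Node X := fun τ i => Nat.rec root (fun i n => ch i n τ) i with hseq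
  have hseq0 : ∀ τ, seq τ 0 = root := fun τ => rfl
  have hseqs : ∀ τ i, seq τ (i + 1) = ch i (seq τ i) τ := fun τ i => rfl
  have hinv : ∀ τ ∈ root.ival, ∀ i, (seq τ i).Valid U s ∧ τ ∈ (seq τ i).ival := by
    intro τ hτ i
    induction i with
    | zero => exact ⟨hrootv, hτ⟩
    | succ i ih =>
      rw [hseqs]
      obtain ⟨h1, _, _, h4, _⟩ := hch i _ ih.1 τ ih.2
      exact ⟨h1, h4⟩
  have hstep : ∀ τ ∈ root.ival, ∀ i, (seq τ (i + 1)).ball ⊆ (seq τ i).ball ∩ O i ∧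
      (seq τ (i + 1)).r ≤ (seq τ i).r / 2 := by
    intro τ hτ i
    obtain ⟨h1, h2⟩ := hinv τ hτ i
    obtain ⟨_, h3, h4, _⟩ := hch i _ h1 τ h2
    rw [hseqs]
    exact ⟨h3, h4⟩
  have hrad : ∀ τ ∈ root.ival, ∀ i, (seq τ i).r ≤ r0 / 2 ^ i := by
    intro τ hτ i
    induction i with
    | zero => simp [hseq0, hroot]
    | succ i ih =>
      calc (seq τ (i + 1)).r ≤ (seq τ i).r / 2 := (hstep τ hτ i).2
        _ ≤ (r0 / 2 ^ i) / 2 := by linarith
        _ = r0 / 2 ^ (i + 1) := by rw [pow_succ]; field_simp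
  have hmono : ∀ τ ∈ root.ival, ∀ i j, i ≤ j → (seq τ j).ball ⊆ (seq τ i).ball := by
    intro τ hτ i j hij
    induction j, hij using Nat.le_induction with
    | base => exact Subset.rfl
    | succ j _ ih => exact ((hstep τ hτ j).1.trans inter_subset_left).trans ih
  have hcentre : ∀ τ ∈ root.ival, ∀ i, (seq τ i).x ∈ (seq τ i).ball := fun τ hτ i =>
    mem_closedBall_self (hinv τ hτ i).1.1.le
  have hlim : ∀ τ ∈ root.ival, ∃ p, ∀ i, p ∈ (seq τ i).ball := by
    intro τ hτ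
    have hc : CauchySeq (fun i => (seq τ i).x) := by
      apply cauchySeq_of_le_geometric_two (C := 2 * r0)
      intro i
      have h1 : (seq τ (i + 1)).x ∈ (seq τ i).ball :=
        hmono τ hτ i (i + 1) (Nat.le_succ i) (hcentre τ hτ (i + 1))
      have h2 : dist (seq τ (i + 1)).x (seq τ i).x ≤ (seq τ i).r := h1
      rw [dist_comm]
      calc dist (seq τ (i + 1)).x (seq τ i).x ≤ (seq τ i).r := h2
        _ ≤ r0 / 2 ^ i := hrad τ hτ i
        _ = 2 * r0 / 2 / 2 ^ i := by ring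
    obtain ⟨p, hp⟩ := cauchySeq_tendsto_of_complete hc
    refine ⟨p, fun i => ?_⟩
    apply isClosed_closedBall.mem_of_tendsto hp
    filter_upwards [eventually_ge_atTop i] with j hj
    exact hmono τ hτ i j hj (hcentre τ hτ j)
  choose! ψ hψ using hlim
  -- the expansion estimate
  have hexp : ∀ τ ∈ root.ival, ∀ τ' ∈ root.ival,
      |τ - τ'| ≤ 32 * dist (ψ τ) (ψ τ') ^ (s : ℝ) := by
    intro τ hτ τ' hτ'
    by_cases hall : ∀ i, seq τ i = seq τ' i
    · have hz : |τ - τ'| ≤ 0 := by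
        have hb : ∀ i, |τ - τ'| ≤ (r0 / 2 ^ i) ^ (s : ℝ) := by
          intro i
          obtain ⟨⟨hr, _, _, hwr⟩, ht1, ht2⟩ := hinv τ hτ i
          obtain ⟨_, ht1', ht2'⟩ := hinv τ' hτ' i
          rw [← hall i] at ht1' ht2'
          have h1 : |τ - τ'| ≤ (seq τ i).w := by
            rw [abs_le]; constructor <;> linarith
          exact h1.trans (hwr.trans (Real.rpow_le_rpow hr.le (hrad τ hτ i) s.coe_nonneg))
        have hlim : Tendsto (fun i : ℕ => (r0 / 2 ^ i) ^ (s : ℝ)) atTop (𝓝 0) := by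
          have h1 : Tendsto (fun i : ℕ => r0 / (2 : ℝ) ^ i) atTop (𝓝 0) := by
            apply Tendsto.div_atTop tendsto_const_nhds
            exact tendsto_pow_atTop_atTop_of_one_lt (by norm_num)
          have h2 : Tendsto (fun i : ℕ => (r0 / 2 ^ i) ^ (s : ℝ)) atTop (𝓝 (0 ^ (s : ℝ))) :=
            h1.rpow_const (Or.inr s.coe_nonneg)
          rwa [Real.zero_rpow (by exact_mod_cast hs0.ne')] at h2
        exact ge_of_tendsto' hlim hb
      exact hz.trans (by positivity)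
    · push Not at hall
      classical
      have hfind := Nat.find_spec hall
      set m := Nat.find hall with hm
      have hm0 : m ≠ 0 := by
        intro h
        rw [h] at hfind
        exact hfind rfl
      obtain ⟨k, hk⟩ := Nat.exists_eq_succ_of_ne_zero hm0
      have hkeq : seq τ k = seq τ' k := by
        by_contra hne
        have := Nat.find_min' hall hne
        omega
      rw [hk] at hfind
      have hfind' : ch k (seq τ k) τ ≠ ch k (seq τ k) τ' := by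
        intro h
        apply hfind
        show ch k (seq τ k) τ = ch k (seq τ' k) τ'
        rw [← hkeq]; exact h
      obtain ⟨hv, ht⟩ := hinv τ hτ k
      obtain ⟨hv', ht'⟩ := hinv τ' hτ' k
      rw [← hkeq] at hv' ht'
      obtain ⟨_, _, _, _, hsep⟩ := hch k _ hv τ ht
      have hmem1 : ψ τ ∈ (ch k (seq τ k) τ).ball := hψ τ hτ (k + 1)
      have hmem2 : ψ τ' ∈ (ch k (seq τ k) τ').ball := by
        have := hψ τ' hτ' (k + 1)
        rw [hseqs, ← hkeq] at this
        exact this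
      have h1 := hsep τ' ht' hfind' _ hmem1 _ hmem2
      set n := seq τ k with hn
      obtain ⟨hr, _, hw, hwr⟩ := hv
      have hd1 : ψ τ ∈ n.ball := hψ τ hτ k
      have hd2 : ψ τ' ∈ n.ball := by
        have := hψ τ' hτ' k
        rwa [← hkeq] at this
      set d := dist (ψ τ) (ψ τ') with hd
      have hdr : d ≤ 2 * n.r := by
        calc d ≤ dist (ψ τ) n.x + dist n.x (ψ τ') := dist_triangle _ _ _
          _ ≤ n.r + n.r := add_le_add hd1 (by rw [dist_comm]; exact hd2)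
          _ = 2 * n.r := by ring
      have hd0 : 0 ≤ d := dist_nonneg
      rcases hd0.eq_or_lt with h0 | hdpos
      · rw [← h0] at h1 ⊢
        rw [Real.zero_rpow (by exact_mod_cast hs0.ne')]
        simpa using h1
      have h2 : d = d ^ (s : ℝ) * d ^ (1 - (s : ℝ)) := by
        rw [← Real.rpow_add hdpos]; simp
      have h3 : d ^ (1 - (s : ℝ)) ≤ 2 * n.r ^ (1 - (s : ℝ)) := by
        calc d ^ (1 - (s : ℝ)) ≤ (2 * n.r) ^ (1 - (s : ℝ)) :=
              Real.rpow_le_rpow hdpos.le hdr (by linarith)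
          _ = 2 ^ (1 - (s : ℝ)) * n.r ^ (1 - (s : ℝ)) := Real.mul_rpow (by norm_num) hr.le
          _ ≤ 2 ^ (1 : ℝ) * n.r ^ (1 - (s : ℝ)) := by
              apply mul_le_mul_of_nonneg_right _ (Real.rpow_nonneg hr.le _)
              apply Real.rpow_le_rpow_of_exponent_le (by norm_num)
              linarith [s.coe_nonneg]
          _ = 2 * n.r ^ (1 - (s : ℝ)) := by rw [Real.rpow_one]
      have h4 : n.r ^ (s : ℝ) * n.r ^ (1 - (s : ℝ)) = n.r := by
        rw [← Real.rpow_add hr]; simp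
      have hds : 0 < d ^ (s : ℝ) := Real.rpow_pos_of_pos hdpos _
      have hrs : 0 < n.r ^ (1 - (s : ℝ)) := Real.rpow_pos_of_pos hr _
      calc |τ - τ'| ≤ 16 * n.w / n.r * d := h1
        _ ≤ 16 * n.r ^ (s : ℝ) / n.r * d := by gcongr
        _ = 16 * n.r ^ (s : ℝ) / n.r * (d ^ (s : ℝ) * d ^ (1 - (s : ℝ))) := by rw [← h2]
        _ ≤ 16 * n.r ^ (s : ℝ) / n.r * (d ^ (s : ℝ) * (2 * n.r ^ (1 - (s : ℝ)))) := by
            gcongr
        _ = 32 * d ^ (s : ℝ) * ((n.r ^ (s : ℝ) * n.r ^ (1 - (s : ℝ))) / n.r) := by ring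
        _ = 32 * d ^ (s : ℝ) := by rw [h4, div_self hr.ne', mul_one]
  -- injectivity and the inverse
  have hinj : InjOn ψ root.ival := by
    intro τ hτ τ' hτ' heq
    have h1 := hexp τ hτ τ' hτ'
    rw [heq, dist_self, Real.zero_rpow (by exact_mod_cast hs0.ne'), mul_zero] at h1
    exact sub_eq_zero.1 (abs_nonpos_iff.1 h1)
  set g : X → ℝ := invFunOn ψ root.ival with hg
  have hgψ : ∀ τ ∈ root.ival, g (ψ τ) = τ := fun τ hτ =>
    hinj (invFunOn_mem ⟨τ, hτ, rfl⟩) hτ (invFunOn_eq ⟨τ, hτ, rfl⟩)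
  have hhol : HolderOnWith 32 s g (ψ '' root.ival) := by
    rintro _ ⟨τ, hτ, rfl⟩ _ ⟨τ', hτ', rfl⟩
    rw [hgψ τ hτ, hgψ τ' hτ', edist_dist, edist_dist,
      ENNReal.ofReal_rpow_of_nonneg dist_nonneg s.coe_nonneg]
    have h1 := hexp τ hτ τ' hτ'
    rw [Real.dist_eq]
    calc ENNReal.ofReal |τ - τ'| ≤ ENNReal.ofReal (32 * dist (ψ τ) (ψ τ') ^ (s : ℝ)) :=
          ENNReal.ofReal_le_ofReal h1
      _ = ENNReal.ofReal 32 * ENNReal.ofReal (dist (ψ τ) (ψ τ') ^ (s : ℝ)) :=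
          ENNReal.ofReal_mul (by norm_num)
      _ = ((32 : ℝ≥0) : ℝ≥0∞) * ENNReal.ofReal (dist (ψ τ) (ψ τ') ^ (s : ℝ)) := by
          congr 1
          simp
  have hdim := hhol.dimH_image_le hs0
  have himg : g '' (ψ '' root.ival) = root.ival := by
    rw [← image_comp]
    ext τ
    constructor
    · rintro ⟨τ', hτ', rfl⟩
      simp only [comp_apply]
      rwa [hgψ τ' hτ']
    · intro hτ
      exact ⟨τ, hτ, hgψ τ hτ⟩
  rw [himg] at hdim
  have hival : dimH root.ival = 1 := by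
    have : (interior root.ival).Nonempty := by
      refine ⟨r0 ^ (s : ℝ) / 2, ?_⟩
      have hpos : 0 < r0 ^ (s : ℝ) := Real.rpow_pos_of_pos hr0 _
      show r0 ^ (s : ℝ) / 2 ∈ interior (Ico 0 (0 + r0 ^ (s : ℝ)))
      rw [interior_Ico]
      constructor <;> linarith
    rw [Real.dimH_of_nonempty_interior this]
    simp
  rw [hival] at hdim
  have hsub : ψ '' root.ival ⊆ U ∩ ⋂ i, O i := by
    rintro _ ⟨τ, hτ, rfl⟩
    refine ⟨(hinv τ hτ 0).1.2.1 (hψ τ hτ 0), ?_⟩
    rw [mem_iInter]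
    intro i
    exact ((hstep τ hτ i).1 (hψ τ hτ (i + 1))).2
  have hs' : (s : ℝ≥0∞) ≠ 0 := by exact_mod_cast hs0.ne'
  have h1 : (s : ℝ≥0∞) ≤ dimH (ψ '' root.ival) := by
    rw [ENNReal.le_div_iff_mul_le (Or.inl hs') (Or.inl ENNReal.coe_ne_top), one_mul] at hdim
    exact hdim
  exact h1.trans (dimH_mono hsub)

/-- Intersections of countably many rich sets have Hausdorff dimension at least one. -/
theorem one_le_dimH_of_rich [CompleteSpace X] {ι : Type*} [Countable ι] [Nonempty ι] {U : Set X}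
    {O : ι → Set X} (hO : ∀ i, Rich U (O i)) (hU : IsOpen U) (hne : U.Nonempty) :
    1 ≤ dimH (U ∩ ⋂ i, O i) := by
  obtain ⟨x0, hx0⟩ := hne
  obtain ⟨r0, hr0, hr0U⟩ := Metric.nhds_basis_closedBall.mem_iff.1 (hU.mem_nhds hx0)
  obtain ⟨φ, hφ⟩ := exists_surjective_nat ι
  have h1 : (⋂ i, O i) = ⋂ n, O (φ n) := by
    rw [hφ.iInter_comp]
  rw [h1]
  refine le_of_forall_lt fun a ha => ?_
  obtain ⟨s, has, hs1⟩ := ENNReal.lt_iff_exists_nnreal_btwn.1 ha
  have hs1' : s < 1 := by exact_mod_cast hs1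
  have hs0 : 0 < s := by
    have : (0 : ℝ≥0∞) < s := lt_of_le_of_lt zero_le has
    exact_mod_cast this
  exact has.trans_le (le_dimH_of_rich (fun n => hO (φ n)) hs0 hs1' hr0 hr0U)

end Pool.Agent.Helper54
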