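import Pool.Agent.Helper95.DomTheta

/-!
The persistence exponent is positive.
-/

namespace Pool.Agent.Helper95.Dom

open MeasureTheory ProbabilityTheory Filter
open scoped Topology RealInnerProductSpace ENNReal NNReal

/-- the upper tail of the standard normal law. -/
noncomputable def tl (w : ℝ) : ℝ := (gaussianReal 0 1).real (Set.Ici (-w))

theorem tl_mono {w w' : ℝ} (h : w ≤ w') : tl w ≤ tl w' := by
  unfold tl
  apply measureReal_mono _ (measure_ne_top _ _)
  intro x hx
  simp only [Set.mem_Ici] at hx ⊢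
  linarith

theorem gauss_pos {A : Set ℝ} (h : (volume : Measure ℝ) A ≠ 0) : 0 < (gaussianReal 0 1).real A := by
  rw [measureReal_def, ENNReal.toReal_pos_iff]
  refine ⟨?_, measure_lt_top _ _⟩
  rw [pos_iff_ne_zero]
  intro h0
  exact h (gaussianReal_absolutelyContinuous' 0 one_ne_zero h0)

theorem tl_pos (w : ℝ) : 0 < tl w := by
  apply gauss_pos
  rw [Real.volume_Ici]
  simp

theorem tl_lt_one (w : ℝ) : tl w < 1 := by
  have h1 : 0 < (gaussianReal 0 1).real (Set.Iio (-w)) := by
    apply gauss_pos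
    rw [Real.volume_Iio]
    simp
  have h2 : (Set.Ici (-w)) = (Set.Iio (-w))ᶜ := by
    ext x; simp
  unfold tl
  rw [h2, probReal_compl_eq_one_sub measurableSet_Iio]
  linarith

theorem tl_chernoff (w : ℝ) : tl w ≤ Real.exp (w + 1 / 2) := by
  have h := measure_ge_le_exp_mul_mgf (μ := gaussianReal 0 1) (X := id) (t := 1) (-w)
    (by norm_num) (by
      have := integrable_exp_mul_gaussianReal (μ := 0) (v := 1) 1
      simpa using this)
  rw [mgf_id_gaussianReal] at h
  unfold tl
  refine h.trans (le_of_eq ?_)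
  rw [← Real.exp_add]
  congr 1
  simp

theorem tl_bound : ∃ q c : ℝ, 0 < q ∧ q < 1 ∧ 0 < c ∧ c ≤ 1 / 4 ∧ ∀ w, tl w ≤ q * Real.exp (c * w) := by
  have f0 := tl_pos 0
  have f1 := tl_lt_one 0
  set c := min (1 / 4) ((1 - tl 0) / 2) with hc
  have c0 : 0 < c := lt_min (by norm_num) (by linarith)
  have c1 : c ≤ 1 / 4 := min_le_left _ _
  have c2 : c ≤ (1 - tl 0) / 2 := min_le_right _ _
  have hm : tl 0 * Real.exp c < 1 := by
    have h1 : 1 - c ≤ Real.exp (-c) := by
      have := Real.add_one_le_exp (-c)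
      linarith
    have h2 : tl 0 < Real.exp (-c) := by linarith
    calc tl 0 * Real.exp c < Real.exp (-c) * Real.exp c :=
          mul_lt_mul_of_pos_right h2 (Real.exp_pos _)
      _ = 1 := by rw [← Real.exp_add]; simp
  have he1 : Real.exp (-c) < 1 := by rw [Real.exp_lt_one_iff]; linarith
  have he2 : Real.exp (-(1 / 4)) < 1 := by rw [Real.exp_lt_one_iff]; norm_num
  refine ⟨max (max (tl 0 * Real.exp c) (tl 1)) (max (Real.exp (-c)) (Real.exp (-(1 / 4)))), c, ?_, ?_,
    c0, c1, ?_⟩
  · exact lt_of_lt_of_le (Real.exp_pos _) (le_max_of_le_right (le_max_left _ _))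
  · exact max_lt (max_lt hm (tl_lt_one 1)) (max_lt he1 he2)
  · intro w
    set q := max (max (tl 0 * Real.exp c) (tl 1)) (max (Real.exp (-c)) (Real.exp (-(1 / 4)))) with hq
    have q1 : tl 0 * Real.exp c ≤ q := le_max_of_le_left (le_max_left _ _)
    have q2 : tl 1 ≤ q := le_max_of_le_left (le_max_right _ _)
    have q3 : Real.exp (-c) ≤ q := le_max_of_le_right (le_max_left _ _)
    have q4 : Real.exp (-(1 / 4)) ≤ q := le_max_of_le_right (le_max_right _ _)
    have q0 : 0 < q := lt_of_lt_of_le (Real.exp_pos _) q3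
    rcases le_total 0 w with h | h
    · rcases le_total w 1 with h' | h'
      · have h1 := tl_mono h'
        have h2 : 1 ≤ Real.exp (c * w) := Real.one_le_exp (by positivity)
        nlinarith
      · have h1 := (tl_lt_one w).le
        have h2 : Real.exp c ≤ Real.exp (c * w) := Real.exp_le_exp.2 (by nlinarith)
        calc tl w ≤ 1 := h1
          _ = Real.exp (-c) * Real.exp c := by rw [← Real.exp_add]; simp
          _ ≤ q * Real.exp (c * w) := mul_le_mul q3 h2 (Real.exp_pos _).le q0.le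
    · rcases le_total (-1) w with h' | h'
      · have h1 := tl_mono h
        have h2 : Real.exp (-c) ≤ Real.exp (c * w) := Real.exp_le_exp.2 (by nlinarith)
        calc tl w ≤ tl 0 := h1
          _ = tl 0 * Real.exp c * Real.exp (-c) := by
            rw [mul_assoc, ← Real.exp_add]; simp
          _ ≤ q * Real.exp (c * w) := mul_le_mul q1 h2 (Real.exp_pos _).le q0.le
      · have h1 := tl_chernoff w
        calc tl w ≤ Real.exp (w + 1 / 2) := h1
          _ ≤ Real.exp (-(1 / 4) + c * w) := Real.exp_le_exp.2 (by nlinarith)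
          _ = Real.exp (-(1 / 4)) * Real.exp (c * w) := Real.exp_add _ _
          _ ≤ q * Real.exp (c * w) := mul_le_mul_of_nonneg_right q4 (Real.exp_pos _).le


/-- Marginals of a Gaussian vector. -/
theorem gauss_sub {n k : ℕ} (K : Matrix (Fin n) (Fin n) ℝ) (hK : K.PosSemidef) (σ : Fin k → Fin n) :
    (multivariateGaussian 0 K).map
      (fun x => (WithLp.toLp 2 (fun i => x (σ i)) : EuclideanSpace ℝ (Fin k)))
      = multivariateGaussian 0 (K.submatrix σ σ) := by
  have mF : Measurable (fun x : EuclideanSpace ℝ (Fin n) =>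
      (WithLp.toLp 2 (fun i => x (σ i)) : EuclideanSpace ℝ (Fin k))) := by fun_prop
  have : IsProbabilityMeasure ((multivariateGaussian 0 K).map
      (fun x => (WithLp.toLp 2 (fun i => x (σ i)) : EuclideanSpace ℝ (Fin k)))) :=
    Measure.isProbabilityMeasure_map mF.aemeasurable
  apply Measure.ext_of_charFun
  funext u
  rw [charFun_multivariateGaussian (hK.submatrix σ), charFun_apply,
    integral_map mF.aemeasurable (by fun_prop)]
  set t : EuclideanSpace ℝ (Fin n) := WithLp.toLp 2 (fun j => ∑ i, if σ i = j then u i else 0) with ht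
  have h1 : ∀ x : EuclideanSpace ℝ (Fin n),
      (⟪(WithLp.toLp 2 (fun i => x (σ i)) : EuclideanSpace ℝ (Fin k)), u⟫ : ℝ) = ⟪x, t⟫ := by
    intro x
    rw [PiLp.inner_apply, PiLp.inner_apply]
    simp only [RCLike.inner_apply, conj_trivial, ht, Finset.sum_mul]
    rw [Finset.sum_comm]
    apply Finset.sum_congr rfl
    intro i _
    simp
  simp_rw [h1]
  rw [← charFun_apply, charFun_multivariateGaussian hK]
  congr 1
  simp only [inner_zero_right]
  congr 2
  norm_cast
  simp only [dotProduct, Matrix.mulVec, Matrix.submatrix_apply, ht]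
  have e1 : ∀ f : Fin n → ℝ, ∑ j, (∑ i, if σ i = j then u i else 0) * f j = ∑ i, u i * f (σ i) := by
    intro f
    simp only [Finset.sum_mul]
    rw [Finset.sum_comm]
    apply Finset.sum_congr rfl
    intro i _
    simp
  rw [e1]
  apply Finset.sum_congr rfl
  intro i _
  congr 1
  have e2 : ∀ f : Fin n → ℝ, ∑ j, f j * (∑ i, if σ i = j then u i else 0) = ∑ i, f (σ i) * u i := by
    intro f
    simp only [Finset.mul_sum]
    rw [Finset.sum_comm]
    apply Finset.sum_congr rfl
    intro i _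
    simp
  exact e2 _

/-- law of the sum of the coordinates. -/
theorem gauss_sum {k : ℕ} (B : Matrix (Fin k) (Fin k) ℝ) (hB : B.PosSemidef) :
    (multivariateGaussian 0 B).map (fun x => ∑ i, x i)
      = gaussianReal 0 (∑ i, ∑ j, B i j).toNNReal := by
  have mF : Measurable (fun x : EuclideanSpace ℝ (Fin k) => ∑ i, x i) := by fun_prop
  have : IsProbabilityMeasure ((multivariateGaussian 0 B).map (fun x => ∑ i, x i)) :=
    Measure.isProbabilityMeasure_map mF.aemeasurable
  have hs : 0 ≤ ∑ i, ∑ j, B i j := by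
    have := hB.dotProduct_mulVec_nonneg (fun _ => 1)
    simpa [dotProduct, Matrix.mulVec] using this
  apply Measure.ext_of_charFun
  funext u
  rw [charFun_gaussianReal, charFun_apply, integral_map mF.aemeasurable (by fun_prop)]
  set t : EuclideanSpace ℝ (Fin k) := WithLp.toLp 2 (fun _ => u) with ht
  have h1 : ∀ x : EuclideanSpace ℝ (Fin k), (⟪∑ i, x i, u⟫ : ℝ) = ⟪x, t⟫ := by
    intro x
    rw [PiLp.inner_apply]
    simp only [RCLike.inner_apply, conj_trivial, ht, Finset.mul_sum]
  simp_rw [h1]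
  rw [← charFun_apply, charFun_multivariateGaussian hB]
  congr 1
  simp only [inner_zero_right]
  have h2 : t.ofLp ⬝ᵥ B.mulVec t.ofLp = (∑ i, ∑ j, B i j) * u ^ 2 := by
    simp only [dotProduct, Matrix.mulVec, ht, Finset.mul_sum, Finset.sum_mul]
    apply Finset.sum_congr rfl
    intro i _
    apply Finset.sum_congr rfl
    intro j _
    ring
  rw [h2]
  rw [Real.coe_toNNReal _ hs]
  push_cast
  ring

theorem gauss_sum_exp {k : ℕ} (B : Matrix (Fin k) (Fin k) ℝ) (hB : B.PosSemidef) (c : ℝ) :
    ∫⁻ x, ENNReal.ofReal (Real.exp (c * ∑ i, x i)) ∂(multivariateGaussian 0 B)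
      = ENNReal.ofReal (Real.exp (c ^ 2 * (∑ i, ∑ j, B i j) / 2)) := by
  have hs : 0 ≤ ∑ i, ∑ j, B i j := by
    have := hB.dotProduct_mulVec_nonneg (fun _ => 1)
    simpa [dotProduct, Matrix.mulVec] using this
  have h1 : ∫⁻ x, ENNReal.ofReal (Real.exp (c * ∑ i, x i)) ∂(multivariateGaussian 0 B)
      = ∫⁻ y, ENNReal.ofReal (Real.exp (c * y))
        ∂((multivariateGaussian 0 B).map (fun x => ∑ i, x i)) := by
    rw [lintegral_map (by fun_prop) (by fun_prop)]
  rw [h1, gauss_sum B hB, ← ofReal_integral_eq_lintegral_ofReal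
    (integrable_exp_mul_gaussianReal c) (ae_of_all _ fun _ => (Real.exp_pos _).le)]
  congr 1
  have h2 := congrFun (mgf_id_gaussianReal (μ := 0) (v := (∑ i, ∑ j, B i j).toNNReal)) c
  unfold mgf at h2
  simp only [id] at h2
  rw [h2, Real.coe_toNNReal _ hs]
  congr 1
  ring

/-- splitting off an independent part. -/
theorem gauss_split {k : ℕ} (K : Matrix (Fin k) (Fin k) ℝ) (hK : K.PosSemidef) (v : ℝ≥0)
    (hK' : (K - (v : ℝ) • (1 : Matrix (Fin k) (Fin k) ℝ)).PosSemidef) :
    multivariateGaussian 0 K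
      = ((Measure.pi (fun _ : Fin k => gaussianReal 0 v)).prod
          (multivariateGaussian 0 (K - (v : ℝ) • (1 : Matrix (Fin k) (Fin k) ℝ)))).map
        (fun p => (WithLp.toLp 2 p.1 : EuclideanSpace ℝ (Fin k)) + p.2) := by
  have mF : Measurable (fun p : (Fin k → ℝ) × EuclideanSpace ℝ (Fin k) =>
      (WithLp.toLp 2 p.1 : EuclideanSpace ℝ (Fin k)) + p.2) := by fun_prop
  have : IsProbabilityMeasure (((Measure.pi (fun _ : Fin k => gaussianReal 0 v)).prod
          (multivariateGaussian 0 (K - (v : ℝ) • (1 : Matrix (Fin k) (Fin k) ℝ)))).map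
        (fun p => (WithLp.toLp 2 p.1 : EuclideanSpace ℝ (Fin k)) + p.2)) :=
    Measure.isProbabilityMeasure_map mF.aemeasurable
  apply Measure.ext_of_charFun
  funext u
  rw [charFun_multivariateGaussian hK, charFun_apply, integral_map mF.aemeasurable (by fun_prop)]
  have h1 : ∀ p : (Fin k → ℝ) × EuclideanSpace ℝ (Fin k),
      Complex.exp (⟪(WithLp.toLp 2 p.1 : EuclideanSpace ℝ (Fin k)) + p.2, u⟫ * Complex.I)
      = Complex.exp (⟪(WithLp.toLp 2 p.1 : EuclideanSpace ℝ (Fin k)), u⟫ * Complex.I)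
        * Complex.exp (⟪p.2, u⟫ * Complex.I) := by
    intro p
    rw [← Complex.exp_add]
    congr 1
    rw [inner_add_left]
    push_cast
    ring
  simp_rw [h1]
  rw [integral_prod_mul (μ := Measure.pi (fun _ : Fin k => gaussianReal 0 v))
    (ν := multivariateGaussian 0 (K - (v : ℝ) • (1 : Matrix (Fin k) (Fin k) ℝ)))
    (fun x : Fin k → ℝ => Complex.exp (⟪(WithLp.toLp 2 x : EuclideanSpace ℝ (Fin k)), u⟫ * Complex.I))
    (fun y => Complex.exp (⟪y, u⟫ * Complex.I))]
  have h2 : ∫ x : Fin k → ℝ,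
      Complex.exp (⟪(WithLp.toLp 2 x : EuclideanSpace ℝ (Fin k)), u⟫ * Complex.I)
      ∂(Measure.pi (fun _ : Fin k => gaussianReal 0 v))
      = charFun ((Measure.pi (fun _ : Fin k => gaussianReal 0 v)).map (WithLp.toLp 2)) u := by
    rw [charFun_apply, integral_map (by fun_prop) (by fun_prop)]
  rw [h2, charFun_pi, ← charFun_apply, charFun_multivariateGaussian hK']
  simp_rw [charFun_gaussianReal]
  rw [← Complex.exp_sum, ← Complex.exp_add]
  congr 1
  have h5 : u.ofLp ⬝ᵥ (K - (v : ℝ) • (1 : Matrix (Fin k) (Fin k) ℝ)).mulVec u.ofLp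
      = u.ofLp ⬝ᵥ K.mulVec u.ofLp - v * ∑ i, u i ^ 2 := by
    rw [Matrix.sub_mulVec, dotProduct_sub, Matrix.smul_mulVec, Matrix.one_mulVec,
      dotProduct_smul, smul_eq_mul]
    congr 2
    simp only [dotProduct]
    exact Finset.sum_congr rfl fun i _ => by ring
  rw [h5]
  simp only [inner_zero_right]
  push_cast
  simp only [mul_zero, zero_mul, zero_sub, Finset.sum_neg_distrib]
  rw [← Finset.sum_div, ← Finset.mul_sum]
  ring

theorem gauss_tail (v : ℝ≥0) (hv : 0 < v) (w : ℝ) :
    (gaussianReal 0 v) (Set.Ici (-w)) = ENNReal.ofReal (tl (w / √(v : ℝ))) := by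
  have hv' : (0 : ℝ) < v := by exact_mod_cast hv
  have hs : 0 < √(v : ℝ) := Real.sqrt_pos.2 hv'
  have h1 : (gaussianReal 0 1).map (fun x => √(v : ℝ) * x) = gaussianReal 0 v := by
    rw [gaussianReal_map_const_mul]
    congr 1
    · simp
    · apply NNReal.eq
      simp
  rw [← h1, Measure.map_apply (by fun_prop) measurableSet_Ici]
  unfold tl
  rw [measureReal_def, ENNReal.ofReal_toReal (measure_ne_top _ _)]
  congr 1
  ext x
  simp only [Set.mem_preimage, Set.mem_Ici]
  rw [← neg_div, div_le_iff₀ hs, mul_comm x]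

theorem orth_bound {q c : ℝ} (hq : 0 < q) (hc : 0 < c) (hc4 : c ≤ 1 / 4)
    (htl : ∀ w, tl w ≤ q * Real.exp (c * w)) {k : ℕ} (K : Matrix (Fin k) (Fin k) ℝ)
    (hK : K.PosSemidef) (η : ℝ) (h0 : 0 ≤ η) (h1 : η ≤ 1 / 2)
    (hK' : (K - (1 - η) • (1 : Matrix (Fin k) (Fin k) ℝ)).PosSemidef)
    (hrow : ∀ i, ∑ j, K i j ≤ 1 + η) :
    (multivariateGaussian 0 K).real {x | ∀ i, 0 ≤ x i} ≤ (q * Real.exp (η / 8)) ^ k := by
  set v : ℝ≥0 := (1 - η).toNNReal with hv
  have hvr : (v : ℝ) = 1 - η := Real.coe_toNNReal _ (by linarith)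
  have hv0 : 0 < v := by
    rw [← NNReal.coe_pos, hvr]
    linarith
  have hv0' : (0 : ℝ) < v := by exact_mod_cast hv0
  have hs : 0 < √(v : ℝ) := Real.sqrt_pos.2 hv0'
  rw [← hvr] at hK'
  set B := K - (v : ℝ) • (1 : Matrix (Fin k) (Fin k) ℝ) with hB
  set A : Set (EuclideanSpace ℝ (Fin k)) := {x | ∀ i, 0 ≤ x i} with hA
  have mA : MeasurableSet A := by
    have : A = ⋂ i, {x | 0 ≤ x i} := by
      ext x; simp [hA]
    rw [this]
    apply MeasurableSet.iInter
    intro i
    exact measurableSet_le measurable_const (by fun_prop)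
  have mF : Measurable (fun p : (Fin k → ℝ) × EuclideanSpace ℝ (Fin k) =>
      (WithLp.toLp 2 p.1 : EuclideanSpace ℝ (Fin k)) + p.2) := by fun_prop
  have key : (multivariateGaussian 0 K) A
      ≤ ENNReal.ofReal ((q * Real.exp (η / 8)) ^ k) := by
    rw [gauss_split K hK v hK', Measure.map_apply mF mA, Measure.prod_apply_symm (mF mA)]
    have e1 : ∀ w : EuclideanSpace ℝ (Fin k),
        (Measure.pi (fun _ : Fin k => gaussianReal 0 v))
          ((fun z => (z, w)) ⁻¹' ((fun p : (Fin k → ℝ) × EuclideanSpace ℝ (Fin k) =>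
            (WithLp.toLp 2 p.1 : EuclideanSpace ℝ (Fin k)) + p.2) ⁻¹' A))
        ≤ ENNReal.ofReal (q ^ k) * ENNReal.ofReal (Real.exp (c / √(v : ℝ) * ∑ i, w i)) := by
      intro w
      have e2 : ((fun z => (z, w)) ⁻¹' ((fun p : (Fin k → ℝ) × EuclideanSpace ℝ (Fin k) =>
            (WithLp.toLp 2 p.1 : EuclideanSpace ℝ (Fin k)) + p.2) ⁻¹' A))
          = Set.pi Set.univ (fun i => Set.Ici (-(w i))) := by
        ext z
        simp only [Set.mem_preimage, hA, Set.mem_ofPred_eq, PiLp.add_apply, Set.mem_pi, Set.mem_univ,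
          Set.mem_Ici, forall_true_left]
        apply forall_congr'
        intro i
        constructor
        · intro h; linarith
        · intro h; linarith
      rw [e2, Measure.pi_pi]
      simp_rw [gauss_tail v hv0]
      rw [← ENNReal.ofReal_prod_of_nonneg (fun i _ => (tl_pos _).le),
        ← ENNReal.ofReal_mul (by positivity)]
      apply ENNReal.ofReal_le_ofReal
      calc ∏ i, tl (w i / √(v : ℝ)) ≤ ∏ i, (q * Real.exp (c * (w i / √(v : ℝ)))) :=
            Finset.prod_le_prod (fun i _ => (tl_pos _).le) (fun i _ => htl _)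
        _ = q ^ k * Real.exp (c / √(v : ℝ) * ∑ i, w i) := by
            rw [Finset.prod_mul_distrib, ← Real.exp_sum]
            simp only [Finset.prod_const, Finset.card_univ, Fintype.card_fin]
            congr 2
            rw [Finset.mul_sum]
            apply Finset.sum_congr rfl
            intro i _
            ring
    refine (lintegral_mono e1).trans ?_
    rw [lintegral_const_mul _ (by fun_prop), gauss_sum_exp B hK', ← ENNReal.ofReal_mul (by positivity)]
    apply ENNReal.ofReal_le_ofReal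
    rw [mul_pow]
    apply mul_le_mul_of_nonneg_left _ (by positivity)
    rw [← Real.exp_nat_mul]
    apply Real.exp_le_exp.2
    have e3 : ∑ i, ∑ j, B i j ≤ k * (2 * η) := by
      have e4 : ∀ i, ∑ j, B i j ≤ 2 * η := by
        intro i
        have e5 : ∑ j, B i j = ∑ j, K i j - v := by
          simp only [hB, Matrix.sub_apply, Matrix.smul_apply, Matrix.one_apply, smul_eq_mul,
            Finset.sum_sub_distrib, mul_ite, mul_one, mul_zero, Finset.sum_ite_eq, Finset.mem_univ,
            if_true]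
        rw [e5, hvr]
        have := hrow i
        linarith
      calc ∑ i, ∑ j, B i j ≤ ∑ _i : Fin k, 2 * η := Finset.sum_le_sum fun i _ => e4 i
        _ = k * (2 * η) := by simp
    have e6 : (c / √(v : ℝ)) ^ 2 ≤ 1 / 8 := by
      rw [div_pow, Real.sq_sqrt hv0'.le, div_le_iff₀ hv0', hvr]
      nlinarith
    have e7 : 0 ≤ (c / √(v : ℝ)) ^ 2 := sq_nonneg _
    have e8 : 0 ≤ (k : ℝ) * (2 * η) := by positivity
    calc (c / √(v : ℝ)) ^ 2 * (∑ i, ∑ j, B i j) / 2 ≤ (c / √(v : ℝ)) ^ 2 * (k * (2 * η)) / 2 := by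
          apply div_le_div_of_nonneg_right _ (by norm_num)
          exact mul_le_mul_of_nonneg_left e3 e7
      _ ≤ 1 / 8 * (k * (2 * η)) / 2 := by
          apply div_le_div_of_nonneg_right _ (by norm_num)
          exact mul_le_mul_of_nonneg_right e6 e8
      _ = k * (η / 8) := by ring
  rw [measureReal_def]
  have := ENNReal.toReal_mono ENNReal.ofReal_ne_top key
  rwa [ENNReal.toReal_ofReal (by positivity)] at this

/-- weak diagonal dominance. -/
theorem psd_of_dom {k : ℕ} (B : Matrix (Fin k) (Fin k) ℝ) (hs : ∀ i j, B i j = B j i)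
    (hB : ∀ i, ∑ j ∈ Finset.univ.erase i, |B i j| ≤ B i i) : B.PosSemidef := by
  apply Matrix.PosSemidef.of_dotProduct_mulVec_nonneg
  · ext i j
    rw [Matrix.conjTranspose_apply, star_trivial]
    exact hs j i
  · intro u
    simp only [dotProduct, Matrix.mulVec, Pi.star_apply, star_trivial]
    have h1 : ∀ i, u i * ∑ j, B i j * u j
        = B i i * u i ^ 2 + ∑ j ∈ Finset.univ.erase i, B i j * (u i * u j) := by
      intro i
      rw [← Finset.add_sum_erase _ _ (Finset.mem_univ i), mul_add, Finset.mul_sum]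
      congr 1
      · ring
      · apply Finset.sum_congr rfl
        intro j _
        ring
    simp_rw [h1]
    have h2 : ∀ i j, -(|B i j| * (u i ^ 2 + u j ^ 2) / 2) ≤ B i j * (u i * u j) := by
      intro i j
      have h3 := neg_abs_le (B i j)
      have h4 := le_abs_self (B i j)
      have h5 : 0 ≤ |B i j| := abs_nonneg _
      rcases le_total 0 (u i * u j) with h | h
      · have : -|B i j| * (u i * u j) ≤ B i j * (u i * u j) := mul_le_mul_of_nonneg_right h3 h
        nlinarith [sq_nonneg (u i - u j)]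
      · have : |B i j| * (u i * u j) ≤ B i j * (u i * u j) := mul_le_mul_of_nonpos_right h4 h
        nlinarith [sq_nonneg (u i + u j)]
    have h6 : ∑ i, ∑ j ∈ Finset.univ.erase i, |B i j| * (u i ^ 2 + u j ^ 2) / 2
        = ∑ i, u i ^ 2 * ∑ j ∈ Finset.univ.erase i, |B i j| := by
      have h7 : ∑ i, ∑ j ∈ Finset.univ.erase i, |B i j| * (u i ^ 2 + u j ^ 2) / 2
          = ∑ i, ∑ j ∈ Finset.univ.erase i, |B i j| * u i ^ 2 / 2
            + ∑ i, ∑ j ∈ Finset.univ.erase i, |B i j| * u j ^ 2 / 2 := by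
        rw [← Finset.sum_add_distrib]
        apply Finset.sum_congr rfl
        intro i _
        rw [← Finset.sum_add_distrib]
        apply Finset.sum_congr rfl
        intro j _
        ring
      have h8 : ∑ i, ∑ j ∈ Finset.univ.erase i, |B i j| * u j ^ 2 / 2
          = ∑ i, ∑ j ∈ Finset.univ.erase i, |B i j| * u i ^ 2 / 2 := by
        rw [Finset.sum_comm' (s := Finset.univ) (t := fun i => Finset.univ.erase i)
          (t' := Finset.univ) (s' := fun j => Finset.univ.erase j)]
        · apply Finset.sum_congr rfl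
          intro i _
          apply Finset.sum_congr rfl
          intro j _
          rw [hs]
        · intro x y
          simp only [Finset.mem_univ, Finset.mem_erase, true_and, and_true]
          exact ne_comm
      rw [h7, h8, ← Finset.sum_add_distrib]
      apply Finset.sum_congr rfl
      intro i _
      rw [← Finset.sum_add_distrib, Finset.mul_sum]
      apply Finset.sum_congr rfl
      intro j _
      ring
    calc (0 : ℝ) ≤ ∑ i, u i ^ 2 * (B i i - ∑ j ∈ Finset.univ.erase i, |B i j|) := by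
          apply Finset.sum_nonneg
          intro i _
          exact mul_nonneg (sq_nonneg _) (by linarith [hB i])
      _ = ∑ i, B i i * u i ^ 2 - ∑ i, u i ^ 2 * ∑ j ∈ Finset.univ.erase i, |B i j| := by
          rw [← Finset.sum_sub_distrib]
          apply Finset.sum_congr rfl
          intro i _
          ring
      _ = ∑ i, B i i * u i ^ 2
          - ∑ i, ∑ j ∈ Finset.univ.erase i, |B i j| * (u i ^ 2 + u j ^ 2) / 2 := by rw [h6]
      _ = ∑ i, (B i i * u i ^ 2
          + ∑ j ∈ Finset.univ.erase i, -(|B i j| * (u i ^ 2 + u j ^ 2) / 2)) := by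
          rw [Finset.sum_add_distrib]
          simp only [Finset.sum_neg_distrib]
          ring
      _ ≤ _ := by
          apply Finset.sum_le_sum
          intro i _
          have := Finset.sum_le_sum (s := Finset.univ.erase i) (fun j _ => h2 i j)
          linarith

/-- the covariance matrix of the values at distance `d`. -/
theorem sub_bound {q c : ℝ} (hq : 0 < q) (hc : 0 < c) (hc4 : c ≤ 1 / 4)
    (htl : ∀ w, tl w ≤ q * Real.exp (c * w)) (η : ℝ) (h0 : 0 < η) (h1 : η ≤ 1 / 2) (d : ℕ)
    (hd : 8 * Real.exp (-((d : ℝ) / 8)) ≤ η) (k : ℕ) :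
    gam 1 (k * d) 0 ≤ (q * Real.exp (η / 8)) ^ (k + 1) := by
  set L := k * d with hL
  set σ : Fin (k + 1) → Fin (L * 1 + 1) := fun i => ⟨i * d, by
    have h2 : (i : ℕ) ≤ k := Nat.lt_succ_iff.1 i.2
    have h3 : (i : ℕ) * d ≤ k * d := Nat.mul_le_mul_right d h2
    rw [hL]
    omega⟩ with hσ
  set K := (covGrid 1 L).submatrix σ σ with hK
  have hKpsd : K.PosSemidef := (covGrid_psd 1 L).submatrix σ
  have hKe : ∀ i j, K i j = rho (((i : ℝ) - j) * d) := by
    intro i j
    simp only [hK, Matrix.submatrix_apply, covGrid, Matrix.of_apply, hσ]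
    congr 1
    push_cast
    ring
  have hdiag : ∀ i, K i i = 1 := by
    intro i
    rw [hKe, sub_self, zero_mul]
    simp [rho]
  have hnn : ∀ i j, 0 ≤ K i j := fun i j => by rw [hKe]; exact rho_nonneg _
  have hsymm : ∀ i j, K i j = K j i := by
    intro i j
    rw [hKe, hKe]
    unfold rho
    have : |((i : ℝ) - j) * d| = |((j : ℝ) - i) * d| := by
      rw [← abs_neg]
      congr 1
      ring
    rw [this]
  set t := Real.exp (-((d : ℝ) / 8)) with ht
  have ht0 : 0 ≤ t := (Real.exp_pos _).le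
  have ht1 : t ≤ 1 / 2 := by linarith
  have hoff : ∀ i, ∑ j ∈ Finset.univ.erase i, K i j ≤ η := by
    intro i
    have e1 : ∀ j ∈ Finset.univ.erase i, K i j ≤ 2 * t * t ^ (Nat.dist (i : ℕ) (j : ℕ)) := by
      intro j hj
      have hij : (i : ℕ) ≠ j := by
        intro h
        exact (Finset.mem_erase.1 hj).1 (Fin.ext h.symm)
      have hdist : 1 ≤ Nat.dist (i : ℕ) (j : ℕ) := Nat.dist_pos_of_ne hij
      rw [hKe]
      refine (rho_le _).trans ?_
      have h2 : ((Nat.dist (i : ℕ) (j : ℕ) : ℕ) : ℝ) = |(i : ℝ) - (j : ℝ)| := by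
        unfold Nat.dist
        rcases le_total (i : ℕ) (j : ℕ) with h | h
        · have h' : ((i : ℕ) : ℝ) ≤ ((j : ℕ) : ℝ) := by exact_mod_cast h
          rw [Nat.sub_eq_zero_of_le h, zero_add, Nat.cast_sub h, abs_of_nonpos (by linarith)]
          ring
        · have h' : ((j : ℕ) : ℝ) ≤ ((i : ℕ) : ℝ) := by exact_mod_cast h
          rw [Nat.sub_eq_zero_of_le h, add_zero, Nat.cast_sub h, abs_of_nonneg (by linarith)]
      rw [mul_assoc]
      apply mul_le_mul_of_nonneg_left _ (by norm_num)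
      rw [ht, ← Real.exp_nat_mul, ← Real.exp_add]
      apply Real.exp_le_exp.2
      rw [h2, abs_mul, Nat.abs_cast]
      have h3 : (1 : ℝ) ≤ |(i : ℝ) - (j : ℝ)| := by
        rw [← h2]
        exact_mod_cast hdist
      have h4 : (0 : ℝ) ≤ d := Nat.cast_nonneg d
      nlinarith
    have e2 : ∑ j ∈ Finset.univ.erase i, t ^ (Nat.dist (i : ℕ) (j : ℕ)) ≤ 2 / (1 - t) := by
      have e3 : ∑ j ∈ Finset.univ.erase i, t ^ (Nat.dist (i : ℕ) (j : ℕ))
          ≤ ∑ j : Fin (k + 1), t ^ (Nat.dist (i : ℕ) (j : ℕ)) :=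
        Finset.sum_le_sum_of_subset_of_nonneg (Finset.erase_subset _ _)
          fun _ _ _ => pow_nonneg ht0 _
      refine e3.trans ?_
      have e4 := geom_two_sided t ht0 (by linarith) (k + 1) i
      rwa [Finset.sum_range] at e4
    calc ∑ j ∈ Finset.univ.erase i, K i j
        ≤ ∑ j ∈ Finset.univ.erase i, 2 * t * t ^ (Nat.dist (i : ℕ) (j : ℕ)) :=
          Finset.sum_le_sum e1
      _ = 2 * t * ∑ j ∈ Finset.univ.erase i, t ^ (Nat.dist (i : ℕ) (j : ℕ)) := by
          rw [Finset.mul_sum]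
      _ ≤ 2 * t * (2 / (1 - t)) := mul_le_mul_of_nonneg_left e2 (by linarith)
      _ ≤ 2 * t * 4 := by
          apply mul_le_mul_of_nonneg_left _ (by linarith)
          rw [div_le_iff₀ (by linarith)]
          linarith
      _ ≤ η := by linarith
  have hrow : ∀ i, ∑ j, K i j ≤ 1 + η := by
    intro i
    rw [← Finset.add_sum_erase _ _ (Finset.mem_univ i), hdiag]
    linarith [hoff i]
  have hK' : (K - (1 - η) • (1 : Matrix (Fin (k + 1)) (Fin (k + 1)) ℝ)).PosSemidef := by
    apply psd_of_dom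
    · intro i j
      simp only [Matrix.sub_apply, Matrix.smul_apply, Matrix.one_apply]
      rw [hsymm i j]
      simp only [eq_comm]
    · intro i
      have e5 : ∑ j ∈ Finset.univ.erase i, |(K - (1 - η) • (1 : Matrix (Fin (k + 1)) (Fin (k + 1)) ℝ)) i j|
          = ∑ j ∈ Finset.univ.erase i, K i j := by
        apply Finset.sum_congr rfl
        intro j hj
        have hij : i ≠ j := fun h => (Finset.mem_erase.1 hj).1 h.symm
        rw [Matrix.sub_apply, Matrix.smul_apply, Matrix.one_apply_ne hij]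
        simp [abs_of_nonneg (hnn i j)]
      rw [e5, Matrix.sub_apply, Matrix.smul_apply, Matrix.one_apply_eq, hdiag]
      simp only [smul_eq_mul, mul_one]
      linarith [hoff i]
  have hmain := orth_bound hq hc hc4 htl K hKpsd η h0.le h1 hK' hrow
  refine le_trans ?_ hmain
  rw [← gauss_sub (covGrid 1 L) (covGrid_psd 1 L) σ]
  have mA : MeasurableSet {x : EuclideanSpace ℝ (Fin (k + 1)) | ∀ i, 0 ≤ x i} := by
    have : {x : EuclideanSpace ℝ (Fin (k + 1)) | ∀ i, 0 ≤ x i} = ⋂ i, {x | 0 ≤ x i} := by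
      ext x; simp
    rw [this]
    apply MeasurableSet.iInter
    intro i
    exact measurableSet_le measurable_const (by fun_prop)
  rw [map_measureReal_apply (by fun_prop) mA]
  unfold gam
  apply measureReal_mono _ (measure_ne_top _ _)
  intro x hx i
  exact hx (σ i)

/-- **The persistence exponent is positive.** -/
theorem theta_pos : 0 < theta := by
  obtain ⟨q, c, hq, hq1, hc, hc4, htl⟩ := tl_bound
  set η := min (1 / 2) (4 * (1 - q)) with hη
  have h0 : 0 < η := lt_min (by norm_num) (by linarith)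
  have h1 : η ≤ 1 / 2 := min_le_left _ _
  have h2 : η ≤ 4 * (1 - q) := min_le_right _ _
  set r := q * Real.exp (η / 8) with hr
  have hr0 : 0 < r := by positivity
  have hr1 : r < 1 := by
    have e1 : 1 - η / 8 ≤ Real.exp (-(η / 8)) := by
      have := Real.add_one_le_exp (-(η / 8))
      linarith
    have e2 : q < Real.exp (-(η / 8)) := by linarith
    calc r < Real.exp (-(η / 8)) * Real.exp (η / 8) := mul_lt_mul_of_pos_right e2 (Real.exp_pos _)
      _ = 1 := by rw [← Real.exp_add]; simp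
  obtain ⟨d, hd1, hd⟩ : ∃ d : ℕ, 1 ≤ d ∧ 8 * Real.exp (-((d : ℝ) / 8)) ≤ η := by
    have e1 : Tendsto (fun d : ℕ => 8 * Real.exp (-((d : ℝ) / 8))) atTop (𝓝 (8 * 0)) := by
      apply Tendsto.const_mul
      apply Real.tendsto_exp_neg_atTop_nhds_zero.comp
      exact tendsto_natCast_atTop_atTop.atTop_div_const (by norm_num)
    rw [mul_zero] at e1
    obtain ⟨d, e2, e3⟩ := ((e1.eventually_le_const h0).and (eventually_ge_atTop 1)).exists
    exact ⟨d, e3, e2⟩
  have hd0 : (0 : ℝ) < d := by exact_mod_cast hd1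
  have hlog : Real.log r < 0 := Real.log_neg hr0 hr1
  by_contra hcon
  push Not at hcon
  have hth : theta = 0 := le_antisymm hcon theta_nonneg
  have hδ : 0 < -Real.log r / d := div_pos (by linarith) hd0
  obtain ⟨N, hN⟩ := eventually_atTop.1 (pers_ge_exp hδ)
  have h3 := hN ((N + 1) * d) (by nlinarith)
  have h4 : pers ((N + 1) * d) ≤ r ^ (N + 1) := by
    calc pers ((N + 1) * d) ≤ gam 1 ((N + 1) * d) 0 := pers_le le_rfl _
      _ ≤ r ^ (N + 1 + 1) := sub_bound hq hc hc4 htl η h0 h1 d hd (N + 1)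
      _ ≤ r ^ (N + 1) := pow_le_pow_of_le_one hr0.le hr1.le (Nat.le_succ _)
  have h5 : Real.exp (-((theta + -Real.log r / d) * (((N + 1) * d : ℕ) : ℝ))) = r ^ (N + 1) := by
    rw [hth]
    have h6 : -((0 + -Real.log r / d) * (((N + 1) * d : ℕ) : ℝ)) = ((N + 1 : ℕ) : ℝ) * Real.log r := by
      push_cast
      field_simp
      ring
    rw [h6, Real.exp_nat_mul, Real.exp_log hr0]
  rw [h5] at h3
  linarith

end Pool.Agent.Helper95.Dom
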