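import Pool.Agent.Helper54.FunField

/-!
# Field identities behind the genus 11 curve with four copies of an elliptic curve
-/

namespace Pool.Agent.Helper54.FourCopies

open Polynomial WeierstrassCurve WeierstrassCurve.Affine Pool.Agent.Helper54.InvDiff
  Pool.Agent.Helper54.FunField

noncomputable section

/-- The elliptic curve `y² + x y = x³ - x² - 1077 x + 13877` over `ℚ`. -/
def E : WeierstrassCurve ℚ := ⟨1, -1, 0, -1077, 13877⟩

lemma E_Δ : E.Δ = -93312 := by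
  simp only [E, WeierstrassCurve.Δ, WeierstrassCurve.b₂, WeierstrassCurve.b₄, WeierstrassCurve.b₆,
    WeierstrassCurve.b₈]
  norm_num

instance : E.IsElliptic := ⟨by rw [E_Δ]; exact IsUnit.mk0 _ (by norm_num)⟩

variable {K : Type} [Field K] [Algebra ℚ K]

lemma EK_a₁ : (E⁄K).a₁ = 1 := by simp [E, Affine.baseChange, WeierstrassCurve.baseChange, WeierstrassCurve.map]
lemma EK_a₂ : (E⁄K).a₂ = -1 := by simp [E, Affine.baseChange, WeierstrassCurve.baseChange, WeierstrassCurve.map]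
lemma EK_a₃ : (E⁄K).a₃ = 0 := by simp [E, Affine.baseChange, WeierstrassCurve.baseChange, WeierstrassCurve.map]
lemma EK_a₄ : (E⁄K).a₄ = -1077 := by simp [E, Affine.baseChange, WeierstrassCurve.baseChange, WeierstrassCurve.map]
lemma EK_a₆ : (E⁄K).a₆ = 13877 := by simp [E, Affine.baseChange, WeierstrassCurve.baseChange, WeierstrassCurve.map]

lemma nonsing (x e : K) (h : e ^ 2 = 4 * x ^ 3 - 3 * x ^ 2 - 4308 * x + 55508) :
    (E⁄K).Nonsingular x ((e - x) / 2) := by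
  have : CharZero K := algebraRat.charZero K
  have hΔ : (E⁄K).Δ ≠ 0 := by
    have : (E⁄K).Δ = algebraMap ℚ K E.Δ := by
      exact WeierstrassCurve.map_Δ ..
    rw [this, E_Δ]
    simp
  rw [← equation_iff_nonsingular_of_Δ_ne_zero hΔ, equation_iff, EK_a₁, EK_a₂, EK_a₃, EK_a₄, EK_a₆]
  linear_combination h / 4

/-- The point of `E` over `K` with first coordinate `x` and `2 y + x = e`. -/
def pt (x e : K) (h : e ^ 2 = 4 * x ^ 3 - 3 * x ^ 2 - 4308 * x + 55508) : (E⁄K).Point :=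
  .some x ((e - x) / 2) (nonsing x e h)

lemma dl_pt (D : Derivation ℤ K K) (x e : K)
    (h : e ^ 2 = 4 * x ^ 3 - 3 * x ^ 2 - 4308 * x + 55508) (he : e ≠ 0) :
    dl D (E⁄K) (pt x e h) = D x / e := by
  have : CharZero K := algebraRat.charZero K
  have hpsi : psi (E⁄K) x ((e - x) / 2) = e := by
    simp only [psi, EK_a₁, EK_a₃]; ring
  simp only [dl, pt, hpsi, he, if_false]

/-- An element with nonzero derivative is transcendental over `ℚ`. -/
lemma aeval_ne_zero_of_D_ne_zero (D : Derivation ℚ K K) {u : K} (hu : D u ≠ 0) {p : ℚ[X]}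
    (hp : p ≠ 0) : aeval u p ≠ 0 := by
  intro h0
  have halg : IsAlgebraic ℚ u := ⟨p, hp, h0⟩
  have hint : IsIntegral ℚ u := halg.isIntegral
  have hsep : (minpoly ℚ u).Separable := (minpoly.irreducible hint).separable
  have h1 : D (aeval u (minpoly ℚ u)) = aeval u (derivative (minpoly ℚ u)) • D u :=
    D.map_aeval _ _
  rw [minpoly.aeval, map_zero, smul_eq_mul] at h1
  rcases mul_eq_zero.mp h1.symm with h2 | h2
  · exact hsep.aeval_derivative_ne_zero (minpoly.aeval ℚ u) h2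
  · exact hu h2

/-- Elements of `K` as on the curve `C`. -/
structure Data (D : Derivation ℚ K K) (X Y Z w : K) : Prop where
  hX : X ^ 2 = 2 * (Y ^ 2 + Z ^ 2)
  hw : w ^ 2 = 5 * (((Y ^ 2 + Z ^ 2) ^ 2 - (Y * Z) ^ 2) ^ 3
    + 1125 / 4 * (Y ^ 2 + Z ^ 2) ^ 2 * (Y * Z) ^ 4)
  hD : Y * D Z - Z * D Y = -2 * X
  X0 : X ≠ 0
  Y0 : Y ≠ 0
  w0 : w ≠ 0
  P0 : Y + Z ≠ 0
  M0 : Y - Z ≠ 0

variable {D : Derivation ℚ K K} {X Y Z w : K}

lemma Data.A0 (h : Data D X Y Z w) : Y ^ 2 + Z ^ 2 ≠ 0 := by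
  intro h0
  apply h.X0
  have h1 : X ^ 2 = 0 := by rw [h.hX, h0, mul_zero]
  exact pow_eq_zero_iff (two_ne_zero) |>.mp h1

/-- The derivative of `B / A`. -/
lemma Data.D_rho (h : Data D X Y Z w) :
    D (Y * Z / (Y ^ 2 + Z ^ 2)) = -2 * X * (Y ^ 2 - Z ^ 2) / (Y ^ 2 + Z ^ 2) ^ 2 := by
  have hA := h.A0
  have hD := h.hD
  rw [Derivation.leibniz_div]
  simp only [Derivation.leibniz, map_add, Derivation.leibniz_pow, smul_eq_mul, nsmul_eq_mul]
  push_cast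
  field_simp
  linear_combination (Y ^ 2 - Z ^ 2) * hD

lemma point_A1 (h : Data D X Y Z w) :
    ∃ P : (E⁄K).Point, dl (D.restrictScalars ℤ) (E⁄K) P =
      10 * X * Y * Z * (Y ^ 2 - Z ^ 2) / w := by
  have : CharZero K := algebraRat.charZero K
  have hA := h.A0
  have hw := h.hw
  have hw0 := h.w0
  have hDr := h.D_rho
  obtain ⟨r, hr⟩ : ∃ r, r = Y * Z / (Y ^ 2 + Z ^ 2) := ⟨_, rfl⟩
  rw [← hr] at hDr
  have he : (2 * w / (25 * (Y ^ 2 + Z ^ 2) ^ 3)) ^ 2 =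
      4 * ((96 - r ^ 2) / 5) ^ 3 - 3 * ((96 - r ^ 2) / 5) ^ 2 - 4308 * ((96 - r ^ 2) / 5)
        + 55508 := by
    rw [div_pow, mul_pow, hw, hr]
    field_simp
    ring
  have he0 : 2 * w / (25 * (Y ^ 2 + Z ^ 2) ^ 3) ≠ 0 :=
    div_ne_zero (mul_ne_zero two_ne_zero hw0) (mul_ne_zero (by norm_num) (pow_ne_zero 3 hA))
  refine ⟨pt _ _ he, ?_⟩
  rw [dl_pt _ _ _ _ he0]
  have hDx : D ((96 - r ^ 2) / 5) = -2 / 5 * r * D r := by
    have h96 : D (96 : K) = 0 := by exact_mod_cast D.map_natCast 96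
    have h5 : D (5 : K) = 0 := by exact_mod_cast D.map_natCast 5
    rw [Derivation.leibniz_div]
    simp only [map_sub, Derivation.leibniz_pow, h96, h5, smul_eq_mul, nsmul_eq_mul]
    field_simp
    push_cast
    ring
  change D ((96 - r ^ 2) / 5) / _ = _
  rw [hDx, hDr, hr]
  field_simp
  ring

lemma point_A2 (h : Data D X Y Z w) :
    ∃ P : (E⁄K).Point, dl (D.restrictScalars ℤ) (E⁄K) P =
      10 * X * Y * Z * (Y ^ 2 + 2 * Z ^ 2) / w := by
  have : CharZero K := algebraRat.charZero K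
  have hw := h.hw
  have hw0 := h.w0
  have hY := h.Y0
  obtain ⟨s, hs⟩ : ∃ s, s = Z / Y := ⟨_, rfl⟩
  have hDs : D s = -2 * X / Y ^ 2 := by
    rw [hs, Derivation.leibniz_div]
    simp only [smul_eq_mul]
    field_simp
    linear_combination h.hD
  have he : (-2 * w / (25 * Y ^ 6)) ^ 2 =
      4 * ((96 + s ^ 2 + s ^ 4) / 5) ^ 3 - 3 * ((96 + s ^ 2 + s ^ 4) / 5) ^ 2
        - 4308 * ((96 + s ^ 2 + s ^ 4) / 5) + 55508 := by
    rw [div_pow, mul_pow, hw, hs]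
    field_simp
    ring
  have he0 : -2 * w / (25 * Y ^ 6) ≠ 0 :=
    div_ne_zero (mul_ne_zero (by norm_num) hw0) (mul_ne_zero (by norm_num) (pow_ne_zero 6 hY))
  refine ⟨pt _ _ he, ?_⟩
  rw [dl_pt _ _ _ _ he0]
  have hDx : D ((96 + s ^ 2 + s ^ 4) / 5) = (2 * s + 4 * s ^ 3) / 5 * D s := by
    have h96 : D (96 : K) = 0 := by exact_mod_cast D.map_natCast 96
    have h5 : D (5 : K) = 0 := by exact_mod_cast D.map_natCast 5
    rw [Derivation.leibniz_div]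
    simp only [map_add, Derivation.leibniz_pow, h96, h5, smul_eq_mul, nsmul_eq_mul]
    field_simp
    push_cast
    ring
  change D ((96 + s ^ 2 + s ^ 4) / 5) / _ = _
  rw [hDx, hDs, hs]
  field_simp
  ring

/-- The first coordinate of the auxiliary point on `η² = 4 x³ - 3 x² + 12 x - 4`. -/
lemma aux_B (h : Data D X Y Z w) : ∃ x e : K, e ^ 2 = 4 * x ^ 3 - 3 * x ^ 2 + 12 * x - 4 ∧
    e ≠ 0 ∧ D x ≠ 0 ∧
    D x / e = 20 * ((Y ^ 2 + Z ^ 2) ^ 2 + (Y ^ 2 + Z ^ 2) * (Y * Z) + (Y * Z) ^ 2) * (Y - Z) / w := by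
  have : CharZero K := algebraRat.charZero K
  have hA := h.A0
  have hw := h.hw
  have hw0 := h.w0
  have hX0 := h.X0
  have hP0 := h.P0
  have hM0 := h.M0
  have hDr := h.D_rho
  obtain ⟨r, hr⟩ : ∃ r, r = Y * Z / (Y ^ 2 + Z ^ 2) := ⟨_, rfl⟩
  rw [← hr] at hDr
  have hDr0 : D r ≠ 0 := by
    rw [hDr]
    have : Y ^ 2 - Z ^ 2 = (Y + Z) * (Y - Z) := by ring
    rw [this]
    exact div_ne_zero (mul_ne_zero (mul_ne_zero (by norm_num) hX0) (mul_ne_zero hP0 hM0))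
      (pow_ne_zero 2 hA)
  have n1 : (1 - r) ≠ 0 := by
    have := aeval_ne_zero_of_D_ne_zero D hDr0 (p := 1 - Polynomial.X) (by
      intro h0; have := congrArg (Polynomial.eval 0) h0; simp at this)
    simpa using this
  have n2 : (1 + 2 * r) ≠ 0 := by
    have := aeval_ne_zero_of_D_ne_zero D hDr0 (p := 1 + C 2 * Polynomial.X) (by
      intro h0; have := congrArg (Polynomial.eval 0) h0; simp at this)
    simpa using this
  have n3 : (4 - 1137 * r + 12 * r ^ 2 - 4 * r ^ 3) ≠ 0 := by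
    have := aeval_ne_zero_of_D_ne_zero D hDr0
      (p := C 4 - C 1137 * Polynomial.X + C 12 * Polynomial.X ^ 2 - C 4 * Polynomial.X ^ 3) (by
      intro h0; have := congrArg (Polynomial.eval 0) h0; simp at this)
    simpa using this
  have n4 : (1 + r + r ^ 2) ≠ 0 := by
    have := aeval_ne_zero_of_D_ne_zero D hDr0 (p := 1 + Polynomial.X + Polynomial.X ^ 2) (by
      intro h0; have := congrArg (Polynomial.eval 0) h0; simp at this)
    simpa using this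
  obtain ⟨S, hS⟩ : ∃ S, S = Y + Z := ⟨_, rfl⟩
  obtain ⟨A, hA'⟩ : ∃ A, A = Y ^ 2 + Z ^ 2 := ⟨_, rfl⟩
  have hS2 : S ^ 2 = A * (1 + 2 * r) := by
    rw [hS, hA', hr]; field_simp; ring
  have hS0 : S ≠ 0 := hS ▸ hP0
  have hAA : A ≠ 0 := hA' ▸ hA
  have hX2 : X ^ 2 = 2 * A := by rw [h.hX, hA']
  have hw2 : w ^ 2 = 5 * A ^ 6 * ((1 - r ^ 2) ^ 3 + 1125 / 4 * r ^ 4) := by
    rw [hw, ← hA', hr, ← hA']; field_simp
  have hDr2 : D r = -2 * X * S * (Y - Z) / A ^ 2 := by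
    rw [hDr, hS, hA']; field_simp; ring
  have hden : (40 * (1 - r) ^ 2 * (1 + 2 * r)) ≠ 0 :=
    mul_ne_zero (mul_ne_zero (by norm_num) (pow_ne_zero 2 n1)) n2
  have hDx : D ((14 - 8 * r + 1095 * r ^ 2 + 28 * r ^ 3 - 4 * r ^ 4) /
      (40 * (1 - r) ^ 2 * (1 + 2 * r))) =
      -(4 - 1137 * r + 12 * r ^ 2 - 4 * r ^ 3) * (1 + r + r ^ 2) /
        (20 * (1 - r) ^ 3 * (1 + 2 * r) ^ 2) * D r := by
    have h14 : D (14 : K) = 0 := by exact_mod_cast D.map_natCast 14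
    have h8 : D (8 : K) = 0 := by exact_mod_cast D.map_natCast 8
    have h1095 : D (1095 : K) = 0 := by exact_mod_cast D.map_natCast 1095
    have h28 : D (28 : K) = 0 := by exact_mod_cast D.map_natCast 28
    have h4 : D (4 : K) = 0 := by exact_mod_cast D.map_natCast 4
    have h40 : D (40 : K) = 0 := by exact_mod_cast D.map_natCast 40
    have h2 : D (2 : K) = 0 := by exact_mod_cast D.map_natCast 2
    rw [Derivation.leibniz_div]
    simp only [map_add, map_sub, Derivation.leibniz, Derivation.leibniz_pow, h14, h8, h1095, h28,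
      h4, h40, h2, smul_eq_mul, nsmul_eq_mul, Derivation.map_one_eq_zero]
    field_simp
    push_cast
    ring
  have he0 : w * X * (4 - 1137 * r + 12 * r ^ 2 - 4 * r ^ 3) /
      (200 * A ^ 2 * (1 - r) ^ 3 * S ^ 3) ≠ 0 :=
    div_ne_zero (mul_ne_zero (mul_ne_zero hw0 hX0) n3)
      (mul_ne_zero (mul_ne_zero (mul_ne_zero (by norm_num) (pow_ne_zero 2 hAA))
        (pow_ne_zero 3 n1)) (pow_ne_zero 3 hS0))
  refine ⟨(14 - 8 * r + 1095 * r ^ 2 + 28 * r ^ 3 - 4 * r ^ 4) / (40 * (1 - r) ^ 2 * (1 + 2 * r)),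
    w * X * (4 - 1137 * r + 12 * r ^ 2 - 4 * r ^ 3) / (200 * A ^ 2 * (1 - r) ^ 3 * S ^ 3),
    ?_, he0, ?_, ?_⟩
  · have hS6 : (S ^ 3) ^ 2 = A ^ 3 * (1 + 2 * r) ^ 3 := by
      rw [← pow_mul, mul_comm 3 2, pow_mul, hS2, mul_pow]
    obtain ⟨v, hv⟩ : ∃ v, v = 1 - r := ⟨_, rfl⟩
    obtain ⟨u, hu⟩ : ∃ u, u = 1 + 2 * r := ⟨_, rfl⟩
    have hrv : r = 1 - v := by rw [hv]; ring
    have huv : u = 3 - 2 * v := by rw [hu, hv]; ring
    have hv0 : v ≠ 0 := hv ▸ n1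
    have hu0 : u ≠ 0 := hu ▸ n2
    rw [div_pow, mul_pow, mul_pow, mul_pow, hw2, hX2, hS6, ← hv, ← hu, hrv]
    field_simp
    rw [huv]
    ring
  · rw [hDx]
    refine mul_ne_zero (div_ne_zero (mul_ne_zero (neg_ne_zero.mpr n3) n4) ?_) hDr0
    exact mul_ne_zero (mul_ne_zero (by norm_num) (pow_ne_zero 3 n1)) (pow_ne_zero 2 n2)
  · have hfin : 20 * ((Y ^ 2 + Z ^ 2) ^ 2 + (Y ^ 2 + Z ^ 2) * (Y * Z) + (Y * Z) ^ 2) * (Y - Z) / w
        = 20 * A ^ 2 * (1 + r + r ^ 2) * (Y - Z) / w := by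
      rw [← hA', hr, ← hA']; field_simp
    rw [hfin, hDx, hDr2, div_eq_iff he0]
    have hS4 : S ^ 4 = A ^ 2 * (1 + 2 * r) ^ 2 := by
      rw [show 4 = 2 * 2 by norm_num, pow_mul, hS2, mul_pow]
    obtain ⟨v, hv⟩ : ∃ v, v = 1 - r := ⟨_, rfl⟩
    obtain ⟨u, hu⟩ : ∃ u, u = 1 + 2 * r := ⟨_, rfl⟩
    have hv0 : v ≠ 0 := hv ▸ n1
    have hu0 : u ≠ 0 := hu ▸ n2
    rw [← hu] at hS4
    rw [← hv, ← hu]
    obtain ⟨q, hq⟩ : ∃ q, q = 4 - 1137 * r + 12 * r ^ 2 - 4 * r ^ 3 := ⟨_, rfl⟩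
    obtain ⟨g, hg⟩ : ∃ g, g = 1 + r + r ^ 2 := ⟨_, rfl⟩
    rw [← hq, ← hg]
    field_simp
    linear_combination (400 * q * g) * hS4

/-- The kernel polynomial of the 7-isogeny, and its companions. -/
lemma isog {x e : K} (hx : e ^ 2 = 4 * x ^ 3 - 3 * x ^ 2 + 12 * x - 4) (he : e ≠ 0)
    (hDx : D x ≠ 0) :
    ∃ P : (E⁄K).Point, dl (D.restrictScalars ℤ) (E⁄K) P = D x / e := by
  have : CharZero K := algebraRat.charZero K
  have hh : x ^ 3 + 6 * x ^ 2 + 3 * x - 1 ≠ 0 := by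
    have := aeval_ne_zero_of_D_ne_zero D hDx
      (p := Polynomial.X ^ 3 + C 6 * Polynomial.X ^ 2 + C 3 * Polynomial.X - 1) (by
      intro h0; have := congrArg (Polynomial.eval 0) h0; simp at this)
    simpa using this
  have hg : x ^ 9 + 18 * x ^ 8 - 99 * x ^ 7 + 213 * x ^ 6 - 90 * x ^ 5 - 666 * x ^ 4 + 1920 * x ^ 3
      - 2520 * x ^ 2 + 1656 * x + 296 ≠ 0 := by
    have := aeval_ne_zero_of_D_ne_zero D hDx
      (p := Polynomial.X ^ 9 + C 18 * Polynomial.X ^ 8 - C 99 * Polynomial.X ^ 7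
        + C 213 * Polynomial.X ^ 6 - C 90 * Polynomial.X ^ 5 - C 666 * Polynomial.X ^ 4
        + C 1920 * Polynomial.X ^ 3 - C 2520 * Polynomial.X ^ 2 + C 1656 * Polynomial.X + C 296) (by
      intro h0; have := congrArg (Polynomial.eval 0) h0; simp at this)
    simpa using this
  obtain ⟨h, hhd⟩ : ∃ h, h = x ^ 3 + 6 * x ^ 2 + 3 * x - 1 := ⟨_, rfl⟩
  obtain ⟨g, hgd⟩ : ∃ g, g = x ^ 9 + 18 * x ^ 8 - 99 * x ^ 7 + 213 * x ^ 6 - 90 * x ^ 5
      - 666 * x ^ 4 + 1920 * x ^ 3 - 2520 * x ^ 2 + 1656 * x + 296 := ⟨_, rfl⟩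
  obtain ⟨N, hN⟩ : ∃ N, N = x ^ 7 + 12 * x ^ 6 + 258 * x ^ 5 + 736 * x ^ 4 + 780 * x ^ 3
      - 222 * x ^ 2 + 28 * x - 54 := ⟨_, rfl⟩
  rw [← hhd] at hh
  rw [← hgd] at hg
  have he2 : (e * g / h ^ 3) ^ 2 = 4 * (N / h ^ 2) ^ 3 - 3 * (N / h ^ 2) ^ 2
      - 4308 * (N / h ^ 2) + 55508 := by
    rw [div_pow, mul_pow, hx]
    field_simp
    rw [hgd, hN, hhd]
    ring
  have he0 : e * g / h ^ 3 ≠ 0 := div_ne_zero (mul_ne_zero he hg) (pow_ne_zero 3 hh)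
  refine ⟨pt _ _ he2, ?_⟩
  rw [dl_pt _ _ _ _ he0]
  change D (N / h ^ 2) / _ = _
  have hDh : D h = (3 * x ^ 2 + 12 * x + 3) * D x := by
    have h6 : D (6 : K) = 0 := by exact_mod_cast D.map_natCast 6
    have h3 : D (3 : K) = 0 := by exact_mod_cast D.map_natCast 3
    rw [hhd]
    simp only [map_add, map_sub, Derivation.leibniz, Derivation.leibniz_pow, h6, h3, smul_eq_mul,
      nsmul_eq_mul, Derivation.map_one_eq_zero]
    push_cast
    ring
  have hDN : D N = (7 * x ^ 6 + 72 * x ^ 5 + 1290 * x ^ 4 + 2944 * x ^ 3 + 2340 * x ^ 2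
      - 444 * x + 28) * D x := by
    have h12 : D (12 : K) = 0 := by exact_mod_cast D.map_natCast 12
    have h258 : D (258 : K) = 0 := by exact_mod_cast D.map_natCast 258
    have h736 : D (736 : K) = 0 := by exact_mod_cast D.map_natCast 736
    have h780 : D (780 : K) = 0 := by exact_mod_cast D.map_natCast 780
    have h222 : D (222 : K) = 0 := by exact_mod_cast D.map_natCast 222
    have h28 : D (28 : K) = 0 := by exact_mod_cast D.map_natCast 28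
    have h54 : D (54 : K) = 0 := by exact_mod_cast D.map_natCast 54
    rw [hN]
    simp only [map_add, map_sub, Derivation.leibniz, Derivation.leibniz_pow, h12, h258, h736, h780,
      h222, h28, h54, smul_eq_mul, nsmul_eq_mul]
    push_cast
    ring
  rw [Derivation.leibniz_div]
  simp only [Derivation.leibniz_pow, smul_eq_mul, nsmul_eq_mul, hDh, hDN]
  push_cast
  field_simp
  rw [hgd, hN, hhd]
  ring

lemma point_B (h : Data D X Y Z w) :
    ∃ P : (E⁄K).Point, dl (D.restrictScalars ℤ) (E⁄K) P =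
      20 * ((Y ^ 2 + Z ^ 2) ^ 2 + (Y ^ 2 + Z ^ 2) * (Y * Z) + (Y * Z) ^ 2) * (Y - Z) / w := by
  obtain ⟨x, e, hx, he, hDx, hfin⟩ := aux_B h
  obtain ⟨P, hP⟩ := isog hx he hDx
  exact ⟨P, hP.trans hfin⟩

/-- The symmetry `(X, Y, Z) ↦ (-X, Y, -Z)`. -/
lemma Data.symm (h : Data D X Y Z w) : Data D (-X) Y (-Z) w where
  hX := by rw [neg_sq, neg_sq]; exact h.hX
  hw := by rw [h.hw]; ring
  hD := by rw [map_neg]; linear_combination -h.hD
  X0 := neg_ne_zero.mpr h.X0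
  Y0 := h.Y0
  w0 := h.w0
  P0 := by rw [← sub_eq_add_neg]; exact h.M0
  M0 := by rw [sub_neg_eq_add]; exact h.P0

lemma point_B' (h : Data D X Y Z w) :
    ∃ P : (E⁄K).Point, dl (D.restrictScalars ℤ) (E⁄K) P =
      20 * ((Y ^ 2 + Z ^ 2) ^ 2 - (Y ^ 2 + Z ^ 2) * (Y * Z) + (Y * Z) ^ 2) * (Y + Z) / w := by
  obtain ⟨P, hP⟩ := point_B h.symm
  refine ⟨P, hP.trans ?_⟩
  ring

end

end Pool.Agent.Helper54.FourCopies
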