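import Pool.Agent.Helper54.InvDiff

/-!
# Function fields of hyperelliptic curves over `ℚ` and points of constant elliptic curves

* `exists_derivation`: `d/dx` extends to every algebraic extension `K` of `ℚ(x)`.
* `ContainsCopies E f r`: the group `E(ℚ(C)) / E(ℚ)` has rank at least `r`, where `C : y² = f(x)`.
* `lin_indep_criterion`: reduces this to linear independence of invariant differentials.
-/

namespace Pool.Agent.Helper54.FunField

open Polynomial

noncomputable section

set_option linter.style.haveILetI false in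
/-- The derivation `d/dx` of `ℚ[x]` extends to every algebraic extension of `ℚ(x)`. -/
theorem exists_derivation (K : Type*) [Field K] [Algebra ℚ K] [Algebra (RatFunc ℚ) K]
    [Algebra.IsAlgebraic (RatFunc ℚ) K] :
    ∃ D : Derivation ℚ K K, ∀ p : ℚ[X],
      D (algebraMap (RatFunc ℚ) K (algebraMap ℚ[X] (RatFunc ℚ) p)) =
        algebraMap (RatFunc ℚ) K (algebraMap ℚ[X] (RatFunc ℚ) (derivative p)) := by
  letI : Algebra ℚ[X] K := ((algebraMap (RatFunc ℚ) K).comp (algebraMap ℚ[X] (RatFunc ℚ))).toAlgebra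
  haveI : IsScalarTower ℚ[X] (RatFunc ℚ) K := IsScalarTower.of_algebraMap_eq (fun x => rfl)
  haveI : IsScalarTower ℚ ℚ[X] K := inferInstance
  haveI h1 : Algebra.FormallyEtale ℚ[X] (RatFunc ℚ) :=
    Algebra.FormallyEtale.of_isLocalization (nonZeroDivisors ℚ[X])
  haveI : CharZero (RatFunc ℚ) := inferInstance
  haveI h2 : Algebra.FormallyEtale (RatFunc ℚ) K :=
    Algebra.FormallyEtale.of_isSeparable _ _
  haveI h3 : Algebra.FormallyEtale ℚ[X] K := Algebra.FormallyEtale.comp ℚ[X] (RatFunc ℚ) K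
  let e := KaehlerDifferential.tensorKaehlerEquivOfFormallyEtale ℚ ℚ[X] K
  let g : Ω[ℚ[X]⁄ℚ] →ₗ[ℚ[X]] K :=
    (Algebra.linearMap ℚ[X] K).comp (KaehlerDifferential.polynomialEquiv ℚ).toLinearMap
  let L : TensorProduct ℚ[X] K (Ω[ℚ[X]⁄ℚ]) →ₗ[K] K := g.liftBaseChange K
  refine ⟨(L.comp e.symm.toLinearMap).compDer (KaehlerDifferential.D ℚ K), fun p => ?_⟩
  have h4 := KaehlerDifferential.tensorKaehlerEquivOfFormallyEtale_symm_D_algebraMap ℚ ℚ[X] K p
  change L (e.symm (KaehlerDifferential.D ℚ K (algebraMap ℚ[X] K p))) = algebraMap ℚ[X] K _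
  rw [h4]
  simp [L, g]

open WeierstrassCurve WeierstrassCurve.Affine Pool.Agent.Helper54.InvDiff

/-- `K ⊇ ℚ(x)` is the function field of the curve `y² = f(x)` over `ℚ`: it is generated over
`ℚ(x)` by an element `y` with `y² = f(x)`. -/
def IsFunctionField (f : ℚ[X]) (K : Type) [Field K] [Algebra (RatFunc ℚ) K] : Prop :=
  ∃ y : K, y ^ 2 = algebraMap (RatFunc ℚ) K (algebraMap ℚ[X] (RatFunc ℚ) f) ∧
    IntermediateField.adjoin (RatFunc ℚ) {y} = ⊤

open Classical in
/-- Let `C` be the smooth projective model of `y² = f(x)` over `ℚ`, with function field `K`.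
`ContainsCopies E f r` says that `E(K) / E(ℚ)` has rank at least `r`: there are `r` points of `E`
over `K`, i.e. `r` morphisms `C → E` over `ℚ`, no nontrivial integral linear combination of which
is a constant morphism. -/
def ContainsCopies (E : WeierstrassCurve ℚ) (f : ℚ[X]) (r : ℕ) : Prop :=
  ∀ (K : Type) [Field K] [Algebra ℚ K] [Algebra (RatFunc ℚ) K], IsFunctionField f K →
    ∃ P : Fin r → (E⁄K).Point, ∀ n : Fin r → ℤ,
      ∑ i, n i • P i ∈ Set.range (Point.baseChange (W' := E) ℚ K) → n = 0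

lemma isAlgebraic_of_isFunctionField {f : ℚ[X]} {K : Type} [Field K] [Algebra (RatFunc ℚ) K]
    (h : IsFunctionField f K) : Algebra.IsAlgebraic (RatFunc ℚ) K := by
  obtain ⟨y, hy, htop⟩ := h
  have hint : IsIntegral (RatFunc ℚ) y := by
    refine ⟨X ^ 2 - C (algebraMap ℚ[X] (RatFunc ℚ) f), ?_, ?_⟩
    · exact monic_X_pow_sub_C _ two_ne_zero
    · simp [hy]
  have hfin : FiniteDimensional (RatFunc ℚ) (IntermediateField.adjoin (RatFunc ℚ) {y}) :=
    IntermediateField.adjoin.finiteDimensional hint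
  rw [htop] at hfin
  have h2 : FiniteDimensional (RatFunc ℚ) K :=
    (IntermediateField.topEquiv (F := RatFunc ℚ) (E := K)).toLinearEquiv.finiteDimensional
  exact Algebra.IsAlgebraic.of_finite _ _

open Classical in
/-- If the sum `∑ nᵢ Pᵢ` is a constant point then `∑ nᵢ ω(Pᵢ) = 0`. -/
lemma sum_dl_eq_zero {K : Type} [Field K] [Algebra ℚ K] (E : WeierstrassCurve ℚ)
    (D : Derivation ℚ K K) {r : ℕ} (P : Fin r → (E⁄K).Point) (n : Fin r → ℤ)
    (h : ∑ i, n i • P i ∈ Set.range (Point.baseChange (W' := E) ℚ K)) :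
    ∑ i, (n i : K) * dl (D.restrictScalars ℤ) (E⁄K) (P i) = 0 := by
  have hW : Const (D.restrictScalars ℤ) (E⁄K) := by
    constructor <;> exact D.map_algebraMap _
  obtain ⟨Q, hQ⟩ := h
  have h0 : dlHom (D.restrictScalars ℤ) (E⁄K) hW (Point.baseChange (W' := E) ℚ K Q) = 0 := by
    rcases Q with _ | ⟨x, y, hxy⟩
    · exact map_zero _
    · rw [dlHom_apply]
      have : Point.baseChange (W' := E) ℚ K (.some x y hxy) = .some (algebraMap ℚ K x)
        (algebraMap ℚ K y) ((E.toAffine.baseChange_nonsingular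
          (Algebra.ofId ℚ K).injective ..).mpr hxy) := rfl
      rw [this]
      apply dl_unique hW
      · rw [zero_mul]; exact D.map_algebraMap _
      · rw [zero_mul]; exact D.map_algebraMap _
  rw [hQ, map_sum] at h0
  rw [← h0]
  refine Finset.sum_congr rfl fun i _ => ?_
  rw [map_zsmul, dlHom_apply, zsmul_eq_mul]

end

end Pool.Agent.Helper54.FunField
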