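import Mathlib

/-!
# The invariant differential of a Weierstrass curve is additive on points

Let `F` be a field with a derivation `D` and `W` a Weierstrass curve over `F` whose coefficients
are killed by `D`.  For a point `(x, y)` of `W` over `F`, the number `c` with
`D x = c * (2 y + a₁ x + a₃)` and `D y = c * (3 x² + 2 a₂ x + a₄ - a₁ y)` is
the invariant differential `dx / (2 y + a₁ x + a₃)`, pulled back along the point and paired with `D`.
We prove that the resulting map `delta : W.Point →+ F` is a homomorphism.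
-/

namespace Pool.Agent.Helper54.InvDiff

open WeierstrassCurve WeierstrassCurve.Affine

variable {F : Type*} [Field F]

/-- `2 y + a₁ x + a₃`. -/
def psi (W : Affine F) (x y : F) : F := 2 * y + W.a₁ * x + W.a₃

/-- `3 x² + 2 a₂ x + a₄ - a₁ y`. -/
def phi (W : Affine F) (x y : F) : F := 3 * x ^ 2 + 2 * W.a₂ * x + W.a₄ - W.a₁ * y

/-- The derivation `D` kills the coefficients of `W`. -/
structure Const (D : Derivation ℤ F F) (W : Affine F) : Prop where
  h1 : D W.a₁ = 0
  h2 : D W.a₂ = 0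
  h3 : D W.a₃ = 0
  h4 : D W.a₄ = 0
  h6 : D W.a₆ = 0

open Classical in
/-- The invariant differential paired with `D`, as a function on points. -/
noncomputable def dl (D : Derivation ℤ F F) (W : Affine F) : W.Point → F
  | .zero => 0
  | .some x y _ => if psi W x y = 0 then D y / phi W x y else D x / psi W x y

lemma D_two (D : Derivation ℤ F F) : D (2 : F) = 0 := by
  have := D.map_natCast 2
  simpa using this

lemma D_three (D : Derivation ℤ F F) : D (3 : F) = 0 := by
  have := D.map_natCast 3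
  simpa using this

/-- Differentiating the Weierstrass equation. -/
lemma diff_eq {D : Derivation ℤ F F} {W : Affine F} (hW : Const D W) {x y : F}
    (h : W.Equation x y) : psi W x y * D y = phi W x y * D x := by
  rw [equation_iff] at h
  have h' := congrArg D h
  simp only [map_add, Derivation.leibniz, Derivation.leibniz_pow, hW.h1, hW.h2, hW.h3, hW.h4,
    hW.h6, smul_eq_mul, nsmul_eq_mul] at h'
  simp only [psi, phi]
  push_cast at h'
  linear_combination h'

lemma dl_spec {D : Derivation ℤ F F} {W : Affine F} (hW : Const D W) {x y : F}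
    (h : W.Nonsingular x y) :
    D x = dl D W (.some x y h) * psi W x y ∧ D y = dl D W (.some x y h) * phi W x y := by
  have hd := diff_eq hW h.1
  have hn := ((nonsingular_iff' ..).mp h).2
  by_cases h0 : psi W x y = 0
  · have hphi : phi W x y ≠ 0 := by
      rcases hn with hn | hn
      · intro hp; apply hn; simp only [phi] at hp; linear_combination -hp
      · exact absurd h0 hn
    have hx : D x = 0 := by
      rw [h0, zero_mul] at hd
      exact (mul_eq_zero.mp hd.symm).resolve_left hphi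
    simp only [dl, h0, if_true]
    refine ⟨by rw [hx, mul_zero], ?_⟩
    field_simp
  · simp only [dl, h0, if_false]
    refine ⟨by field_simp, ?_⟩
    rw [div_mul_eq_mul_div, eq_div_iff h0]
    linear_combination hd

lemma dl_unique {D : Derivation ℤ F F} {W : Affine F} (hW : Const D W) {x y c : F}
    (h : W.Nonsingular x y) (h1 : D x = c * psi W x y) (h2 : D y = c * phi W x y) :
    dl D W (.some x y h) = c := by
  obtain ⟨h1', h2'⟩ := dl_spec hW h
  have hn := ((nonsingular_iff' ..).mp h).2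
  rcases hn with hn | hn
  · have hphi : phi W x y ≠ 0 := by
      intro hp; apply hn; simp only [phi] at hp; linear_combination -hp
    exact mul_right_cancel₀ hphi (h2'.symm.trans h2)
  · have hpsi : psi W x y ≠ 0 := hn
    exact mul_right_cancel₀ hpsi (h1'.symm.trans h1)

lemma dl_neg {D : Derivation ℤ F F} {W : Affine F} (hW : Const D W) (P : W.Point) :
    dl D W (-P) = - dl D W P := by
  rcases P with _ | ⟨x, y, h⟩
  · change (0 : F) = -0
    rw [neg_zero]
  · rw [Point.neg_some]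
    obtain ⟨h1, h2⟩ := dl_spec hW h
    apply dl_unique hW
    · rw [h1]; simp only [psi, negY]; ring
    · simp only [negY, map_sub, map_neg, Derivation.leibniz, hW.h1, hW.h3, smul_eq_mul]
      rw [h1, h2]; simp only [psi, phi]; ring

variable [DecidableEq F]

/-- The generic addition case. -/
lemma dl_add_generic {D : Derivation ℤ F F} {W : Affine F} (hW : Const D W) {x₁ y₁ x₂ y₂ : F}
    (h₁ : W.Nonsingular x₁ y₁) (h₂ : W.Nonsingular x₂ y₂) (hx : x₁ ≠ x₂) :
    dl D W (.some x₁ y₁ h₁ + .some x₂ y₂ h₂) =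
      dl D W (.some x₁ y₁ h₁) + dl D W (.some x₂ y₂ h₂) := by
  obtain ⟨hx1, hy1⟩ := dl_spec hW h₁
  obtain ⟨hx2, hy2⟩ := dl_spec hW h₂
  set c₁ := dl D W (.some x₁ y₁ h₁)
  set c₂ := dl D W (.some x₂ y₂ h₂)
  rw [Point.add_of_X_ne hx]
  have e1 := (W.equation_iff x₁ y₁).mp h₁.1
  have e2 := (W.equation_iff x₂ y₂).mp h₂.1
  have hd : x₁ - x₂ ≠ 0 := sub_ne_zero.mpr hx
  obtain ⟨l, hl⟩ : ∃ l, l = W.slope x₁ x₂ y₁ y₂ := ⟨_, rfl⟩
  have hl' : l * (x₁ - x₂) = y₁ - y₂ := by
    rw [hl, slope_of_X_ne hx]; field_simp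
  have hDl : D l * (x₁ - x₂) = (D y₁ - D y₂) - l * (D x₁ - D x₂) := by
    have := congrArg D hl'
    simp only [Derivation.leibniz, map_sub, smul_eq_mul] at this
    linear_combination this
  have hX : D (W.addX x₁ x₂ l) = (c₁ + c₂) * psi W (W.addX x₁ x₂ l) (W.addY x₁ x₂ y₁ l) := by
    have : (x₁ - x₂) ^ 3 * D (W.addX x₁ x₂ l) =
        (x₁ - x₂) ^ 3 * ((c₁ + c₂) * psi W (W.addX x₁ x₂ l) (W.addY x₁ x₂ y₁ l)) := by
      have hl2 : l = (y₁ - y₂) / (x₁ - x₂) := by rw [eq_div_iff hd]; exact hl'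
      have hDl2 : D l = ((D y₁ - D y₂) - l * (D x₁ - D x₂)) / (x₁ - x₂) := by
        rw [eq_div_iff hd]; exact hDl
      simp only [addX, map_add, map_sub, Derivation.leibniz, Derivation.leibniz_pow, hW.h1, hW.h2,
        smul_eq_mul, nsmul_eq_mul, addY, negAddY, negY, psi]
      rw [hDl2, hx1, hy1, hx2, hy2, hl2]
      simp only [psi, phi]
      push_cast
      field_simp
      linear_combination
        (c₁ - c₂) * (-W.a₁ * x₁ + W.a₁ * x₂ - 2 * y₁ + 2 * y₂) * e1
        - (c₁ - c₂) * (-W.a₁ * x₁ + W.a₁ * x₂ - 2 * y₁ + 2 * y₂) * e2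
    exact mul_left_cancel₀ (pow_ne_zero 3 hd) this
  have hY : D (W.addY x₁ x₂ y₁ l) = (c₁ + c₂) * phi W (W.addX x₁ x₂ l) (W.addY x₁ x₂ y₁ l) := by
    have : (x₁ - x₂) ^ 4 * D (W.addY x₁ x₂ y₁ l) =
        (x₁ - x₂) ^ 4 * ((c₁ + c₂) * phi W (W.addX x₁ x₂ l) (W.addY x₁ x₂ y₁ l)) := by
      have hl2 : l = (y₁ - y₂) / (x₁ - x₂) := by rw [eq_div_iff hd]; exact hl'
      have hDl2 : D l = ((D y₁ - D y₂) - l * (D x₁ - D x₂)) / (x₁ - x₂) := by
        rw [eq_div_iff hd]; exact hDl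
      have hDY : D (W.addY x₁ x₂ y₁ l) =
          -(D l * (W.addX x₁ x₂ l - x₁) + l * (D (W.addX x₁ x₂ l) - D x₁) + D y₁)
            - W.a₁ * D (W.addX x₁ x₂ l) := by
        simp only [addY, negAddY, negY, map_add, map_sub, map_neg, Derivation.leibniz, hW.h1,
          hW.h3, smul_eq_mul]
        ring
      rw [hDY, hX, hDl2, hx1, hy1, hx2, hy2, hl2]
      simp only [psi, phi, addX, addY, negAddY, negY]
      field_simp
      linear_combination
        (c₁ * (W.a₁*x₁*y₁ - W.a₁*x₁*y₂ - W.a₁*y₁*x₂ - W.a₂*x₁^2 + 2*W.a₂*x₁*x₂ - W.a₃*y₂ + W.a₄*x₂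
          + W.a₆ - 3*x₁^2*x₂ + 6*x₁*x₂^2 + y₁^2 - 2*y₁*y₂ - 2*x₂^3)
         + c₂ * (W.a₁*x₂*y₁ + W.a₁*y₂*x₁ - W.a₁*x₁*y₁ - 2*W.a₂*x₂*x₁ + W.a₂*x₁^2 + W.a₃*y₂ - W.a₄*x₂
          - W.a₆ - x₂^3 + 3*x₂^2*x₁ - 6*x₂*x₁^2 + 2*y₂*y₁ + 3*x₁^3 - y₁^2)) * e1
        + (c₁ * (W.a₁*x₁*y₂ + W.a₁*y₁*x₂ - W.a₁*x₂*y₂ - 2*W.a₂*x₁*x₂ + W.a₂*x₂^2 + W.a₃*y₁ - W.a₄*x₁
          - W.a₆ - x₁^3 + 3*x₁^2*x₂ - 6*x₁*x₂^2 + 2*y₁*y₂ + 3*x₂^3 - y₂^2)
         + c₂ * (W.a₁*x₂*y₂ - W.a₁*x₂*y₁ - W.a₁*y₂*x₁ - W.a₂*x₂^2 + 2*W.a₂*x₂*x₁ - W.a₃*y₁ + W.a₄*x₁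
          + W.a₆ - 3*x₂^2*x₁ + 6*x₂*x₁^2 + y₂^2 - 2*y₂*y₁ - 2*x₁^3)) * e2
    exact mul_left_cancel₀ (pow_ne_zero 4 hd) this
  subst hl
  exact dl_unique hW _ hX hY

/-- The doubling case. -/
lemma dl_add_self {D : Derivation ℤ F F} {W : Affine F} (hW : Const D W) {x y : F}
    (h : W.Nonsingular x y) (hy : y ≠ W.negY x y) :
    dl D W (.some x y h + .some x y h) = dl D W (.some x y h) + dl D W (.some x y h) := by
  obtain ⟨hx1, hy1⟩ := dl_spec hW h
  set c := dl D W (.some x y h)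
  rw [Point.add_self_of_Y_ne hy]
  have hpsi : psi W x y ≠ 0 := by
    intro h0; apply hy; simp only [psi] at h0; simp only [negY]; linear_combination h0
  obtain ⟨l, hl⟩ : ∃ l, l = W.slope x x y y := ⟨_, rfl⟩
  have hl2 : l = phi W x y / psi W x y := by
    rw [hl, slope_of_Y_ne rfl hy]
    simp only [phi, psi, negY]
    congr 1
    ring
  have hl' : l * psi W x y = phi W x y := by rw [hl2]; field_simp
  have hDpsi : D (psi W x y) = c * (2 * phi W x y + W.a₁ * psi W x y) := by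
    have : D (psi W x y) = 2 * D y + W.a₁ * D x := by
      simp only [psi, map_add, Derivation.leibniz, hW.h1, hW.h3, D_two, smul_eq_mul]
      ring
    rw [this, hx1, hy1]; ring
  have hDphi : D (phi W x y) = c * ((6 * x + 2 * W.a₂) * psi W x y - W.a₁ * phi W x y) := by
    have : D (phi W x y) = (6 * x + 2 * W.a₂) * D x - W.a₁ * D y := by
      simp only [phi, map_add, map_sub, Derivation.leibniz, Derivation.leibniz_pow, hW.h1, hW.h2,
        hW.h4, D_two, D_three, smul_eq_mul, nsmul_eq_mul]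
      push_cast
      ring
    rw [this, hx1, hy1]; ring
  have hDl : D l * psi W x y = D (phi W x y) - l * D (psi W x y) := by
    have := congrArg D hl'
    simp only [Derivation.leibniz, smul_eq_mul] at this
    linear_combination this
  have hDl2 : D l = (D (phi W x y) - l * D (psi W x y)) / psi W x y := by
    rw [eq_div_iff hpsi]; exact hDl
  have hDX : D (W.addX x x l) = (2 * l + W.a₁) * D l - 2 * D x := by
    simp only [addX, map_add, map_sub, Derivation.leibniz, Derivation.leibniz_pow, hW.h1, hW.h2,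
        smul_eq_mul, nsmul_eq_mul]
    push_cast
    ring
  have hX : D (W.addX x x l) = (c + c) * psi W (W.addX x x l) (W.addY x x y l) := by
    rw [hDX, hDl2, hDphi, hDpsi, hx1, hl2]
    obtain ⟨p, hp⟩ : ∃ p, p = psi W x y := ⟨_, rfl⟩
    obtain ⟨q, hq⟩ : ∃ q, q = phi W x y := ⟨_, rfl⟩
    rw [← hp, ← hq]
    rw [← hp] at hpsi
    have hp2 : p = 2 * y + W.a₁ * x + W.a₃ := hp
    have hq2 : q = 3 * x ^ 2 + 2 * W.a₂ * x + W.a₄ - W.a₁ * y := hq
    simp only [addX, addY, negAddY, negY, psi]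
    field_simp
    rw [hq2, hp2]
    ring
  have hDY : D (W.addY x x y l) =
      -(D l * (W.addX x x l - x) + l * (D (W.addX x x l) - D x) + D y)
        - W.a₁ * D (W.addX x x l) := by
    simp only [addY, negAddY, negY, map_add, map_sub, map_neg, Derivation.leibniz, hW.h1,
      hW.h3, smul_eq_mul]
    ring
  have hY : D (W.addY x x y l) = (c + c) * phi W (W.addX x x l) (W.addY x x y l) := by
    rw [hDY, hX, hDl2, hDphi, hDpsi, hx1, hy1, hl2]
    obtain ⟨p, hp⟩ : ∃ p, p = psi W x y := ⟨_, rfl⟩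
    obtain ⟨q, hq⟩ : ∃ q, q = phi W x y := ⟨_, rfl⟩
    rw [← hp, ← hq]
    rw [← hp] at hpsi
    have hp2 : p = 2 * y + W.a₁ * x + W.a₃ := hp
    have hq2 : q = 3 * x ^ 2 + 2 * W.a₂ * x + W.a₄ - W.a₁ * y := hq
    simp only [addX, addY, negAddY, negY, psi, phi]
    field_simp
    rw [hq2, hp2]
    ring
  subst hl
  exact dl_unique hW _ hX hY

lemma dl_add {D : Derivation ℤ F F} {W : Affine F} (hW : Const D W) (P Q : W.Point) :
    dl D W (P + Q) = dl D W P + dl D W Q := by
  rcases P with _ | ⟨x₁, y₁, h₁⟩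
  · change dl D W (0 + Q) = 0 + dl D W Q
    rw [zero_add, zero_add]
  rcases Q with _ | ⟨x₂, y₂, h₂⟩
  · change dl D W (Point.some x₁ y₁ h₁ + 0) = dl D W (Point.some x₁ y₁ h₁) + 0
    rw [add_zero, add_zero]
  by_cases hx : x₁ = x₂
  · by_cases hy : y₁ = W.negY x₂ y₂
    · rw [Point.add_of_Y_eq hx hy]
      have hQ : Point.some x₁ y₁ h₁ = -Point.some x₂ y₂ h₂ := by
        rw [Point.neg_some]; simp only [Point.some.injEq]; exact ⟨hx, hy⟩
      rw [hQ, dl_neg hW]
      change (0 : F) = _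
      ring
    · have hyy : y₁ = y₂ := Y_eq_of_Y_ne h₁.1 h₂.1 hx hy
      subst hx; subst hyy
      exact dl_add_self hW h₁ hy
  · exact dl_add_generic hW h₁ h₂ hx

/-- The invariant differential paired with `D`, as a homomorphism. -/
noncomputable def dlHom (D : Derivation ℤ F F) (W : Affine F) (hW : Const D W) : W.Point →+ F where
  toFun := dl D W
  map_zero' := rfl
  map_add' := dl_add hW

@[simp] lemma dlHom_apply (D : Derivation ℤ F F) (W : Affine F) (hW : Const D W) (P : W.Point) :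
    dlHom D W hW P = dl D W P := rfl

end Pool.Agent.Helper54.InvDiff
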