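import Mathlib

/-!
# Preimages of `p - 1` under Euler's function: elementary reductions
-/

set_option autoImplicit false

namespace Pool.Agent.Helper54.Tot

open Finset

/-- The map `n ↦ φ n + 1`. -/
def f (n : ℕ) : ℕ := n.totient + 1

/-- The set of positive integers whose orbit under `f` reaches `p`. -/
def A (p : ℕ) : Set ℕ := {n | 1 ≤ n ∧ ∃ i : ℕ, f^[i] n = p}

theorem A_eq_of_forall {p : ℕ} (hp : p.Prime) (hodd : p ≠ 2)
    (h : ∀ q : ℕ, q.totient = p - 1 → q = p ∨ q = 2 * p) : A p = {p, 2 * p} := by
  have h2 := hp.two_le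
  have key : ∀ i : ℕ, ∀ n : ℕ, f^[i] n = p → n = p ∨ n = 2 * p := by
    intro i
    induction i with
    | zero => intro n hn; left; simpa using hn
    | succ i ih =>
      intro n hn
      rw [Function.iterate_succ_apply] at hn
      rcases ih _ hn with h1 | h1
      · refine h n ?_
        unfold f at h1
        omega
      · exfalso
        unfold f at h1
        have h3 : n.totient = 2 * p - 1 := by omega
        by_cases hn2 : 2 < n
        · have := Nat.totient_even hn2
          rw [h3] at this
          obtain ⟨k, hk⟩ := this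
          omega
        · have : n.totient ≤ n := Nat.totient_le n
          omega
  ext n
  simp only [A, Set.mem_ofPred_eq, Set.mem_insert_iff, Set.mem_singleton_iff]
  constructor
  · rintro ⟨_, i, hi⟩
    exact key i n hi
  · rintro (rfl | rfl)
    · exact ⟨by omega, 0, rfl⟩
    · refine ⟨by omega, 1, ?_⟩
      rw [Function.iterate_one, f, Nat.totient_mul_of_prime_of_not_dvd Nat.prime_two,
        Nat.totient_prime hp]
      · omega
      · intro hd
        exact hodd ((Nat.prime_dvd_prime_iff_eq Nat.prime_two hp).1 hd).symm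

/-- If `2 ^ J` does not divide `φ q`, then `q` has at most `J` prime factors. -/
theorem card_primeFactors_le_of_not_dvd {q J : ℕ} (h : ¬ 2 ^ J ∣ q.totient) :
    q.primeFactors.card ≤ J := by
  by_contra hcon
  push Not at hcon
  apply h
  rw [Nat.totient_eq_prod_factorization]
  swap
  · rintro rfl
    simp at hcon
  rw [Finsupp.prod, Nat.support_factorization]
  have h1 : J ≤ (q.primeFactors.erase 2).card := by
    have := Finset.pred_card_le_card_erase (s := q.primeFactors) (a := 2)
    omega
  refine (pow_dvd_pow 2 h1).trans ?_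
  refine dvd_trans ?_ (Finset.prod_dvd_prod_of_subset _ _ _ (Finset.erase_subset 2 _))
  rw [← Finset.prod_const]
  refine Finset.prod_dvd_prod_of_dvd _ _ fun l hl => ?_
  have hl2 := Finset.ne_of_mem_erase hl
  have hlp := Nat.prime_of_mem_primeFactors (Finset.mem_of_mem_erase hl)
  have hodd := hlp.odd_of_ne_two hl2
  refine Dvd.dvd.mul_left ?_ _
  obtain ⟨k, hk⟩ := hodd
  exact ⟨k, by omega⟩

/-- A large number with few prime factors is divisible by a large prime power. -/
theorem exists_large_component {q J W : ℕ} (hW : 1 ≤ W) (hq : W ^ J < q)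
    (hJ : q.primeFactors.card ≤ J) :
    ∃ l ∈ q.primeFactors, W < l ^ q.factorization l := by
  by_contra hcon
  push Not at hcon
  have hq0 : q ≠ 0 := by omega
  have h1 : q ≤ W ^ q.primeFactors.card := by
    conv_lhs => rw [← Nat.prod_factorization_pow_eq_self hq0]
    rw [Finsupp.prod, Nat.support_factorization]
    calc ∏ l ∈ q.primeFactors, l ^ q.factorization l ≤ ∏ _l ∈ q.primeFactors, W :=
          Finset.prod_le_prod' hcon
      _ = W ^ q.primeFactors.card := by rw [prod_const]
  have h2 : W ^ q.primeFactors.card ≤ W ^ J := Nat.pow_le_pow_right hW hJ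
  omega

/-- The main trichotomy for a solution of `φ q = p - 1`. -/
theorem trichotomy {p q J B : ℕ} (hp : p.Prime) (hB : 1 ≤ B) (hq : q.totient = p - 1)
    (hqp : q ≠ p) (hq2 : q ≠ 2 * p) (hbig : (B ^ 3) ^ J + 1 < p) (hJ : ¬ 2 ^ J ∣ p - 1) :
    (∃ b : ℕ, B < b ∧ b ^ 2 ≤ 2 * (b ^ 2).totient ∧ (b ^ 2).totient ∣ p - 1) ∨
    (∃ m r : ℕ, r.Prime ∧ B ^ 3 < r ∧ 3 ≤ m ∧ m.primeFactors.card ≤ J ∧
      p = m.totient * (r - 1) + 1) := by
  have hqc : q.primeFactors.card ≤ J := card_primeFactors_le_of_not_dvd (by rwa [hq])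
  have hqW : (B ^ 3) ^ J < q := by
    have := Nat.totient_le q
    omega
  obtain ⟨l, hl, hlW⟩ := exists_large_component (Nat.one_le_pow _ _ hB) hqW hqc
  have hlp := Nat.prime_of_mem_primeFactors hl
  have hq0 : q ≠ 0 := by omega
  set k := q.factorization l with hk
  have hk1 : 1 ≤ k := by
    have := hlp.factorization_pos_of_dvd hq0 (Nat.dvd_of_mem_primeFactors hl)
    omega
  rcases Nat.lt_or_ge k 2 with hk2 | hk2
  · -- `l` exactly divides `q`
    right
    have hk1' : k = 1 := by omega
    rw [hk1', pow_one] at hlW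
    have hld : l ∣ q := Nat.dvd_of_mem_primeFactors hl
    obtain ⟨m, hm⟩ := hld
    have hm0 : m ≠ 0 := by
      rintro rfl
      simp at hm
      exact hq0 hm
    have hcop : Nat.Coprime l m := by
      rw [hlp.coprime_iff_not_dvd]
      intro hd
      have : l ^ 2 ∣ q := by
        rw [hm, sq]
        exact Nat.mul_dvd_mul_left l hd
      have := (hlp.pow_dvd_iff_le_factorization hq0).1 this
      omega
    have htot : q.totient = m.totient * (l - 1) := by
      rw [hm, Nat.totient_mul hcop, Nat.totient_prime hlp, mul_comm]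
    refine ⟨m, l, hlp, hlW, ?_, ?_, ?_⟩
    · by_contra hm3
      have hm12 : m = 1 ∨ m = 2 := by omega
      have hl1 := hlp.two_le
      have hp1 := hp.two_le
      rcases hm12 with rfl | rfl
      · rw [Nat.totient_one, one_mul] at htot
        apply hqp
        omega
      · rw [Nat.totient_two, one_mul] at htot
        apply hq2
        have : l = p := by omega
        rw [hm, this, mul_comm]
    · refine le_trans (Finset.card_le_card ?_) hqc
      exact Nat.primeFactors_mono (Dvd.intro_left l hm.symm) hq0
    · have hp1 := hp.two_le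
      omega
  · -- `l ^ k` with `k ≥ 2`
    left
    refine ⟨l ^ (k / 2), ?_, ?_, ?_⟩
    · have h1 : k ≤ 3 * (k / 2) := by omega
      have h2 : B ^ 3 < (l ^ (k / 2)) ^ 3 := by
        refine hlW.trans_le ?_
        rw [← pow_mul]
        exact Nat.pow_le_pow_right hlp.pos (by omega)
      exact lt_of_pow_lt_pow_left₀ 3 (Nat.zero_le _) h2
    · rw [← pow_mul]
      have h3 : 0 < k / 2 * 2 := by omega
      rw [Nat.totient_prime_pow hlp h3]
      obtain ⟨j, hj⟩ : ∃ j, k / 2 * 2 = j + 1 := ⟨k / 2 * 2 - 1, by omega⟩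
      rw [hj, Nat.add_sub_cancel, pow_succ]
      have := hlp.two_le
      have h4 : l ≤ 2 * (l - 1) := by omega
      calc l ^ j * l ≤ l ^ j * (2 * (l - 1)) := Nat.mul_le_mul_left _ h4
        _ = _ := by ring
    · rw [← hq]
      refine Nat.totient_dvd_of_dvd ?_
      rw [← pow_mul]
      refine (pow_dvd_pow l (by omega : k / 2 * 2 ≤ k)).trans ?_
      rw [hk]
      exact Nat.ordProj_dvd q l

end Pool.Agent.Helper54.Tot
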