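import Mathlib
import Pool.Agent.Helper24.PairBound

/-!
# Sieve bounds for shifted primes
-/

set_option autoImplicit false

namespace Pool.Agent.Helper54.Tot

open Finset Nat Pool.Agent.Helper24

noncomputable section

/-- forbidden classes for `r` and `a (r-1) + 1` both free of small primes -/
def shΩ (a p : ℕ) : Finset ℕ :=
  if p ∣ a then {0} else {0, ((1 : ZMod p) - (a : ZMod p)⁻¹).val}

theorem shΩ_lt {a p c : ℕ} (hp : 0 < p) (hc : c ∈ shΩ a p) : c < p := by
  have : NeZero p := ⟨hp.ne'⟩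
  rw [shΩ] at hc
  split_ifs at hc
  · rw [mem_singleton] at hc; omega
  · rw [mem_insert, mem_singleton] at hc
    rcases hc with rfl | rfl
    · exact hp
    · exact ZMod.val_lt _

theorem card_shΩ_of_dvd {a p : ℕ} (hp : p.Prime) (ha : 1 ≤ a) (hd : p ∣ a * (a - 1)) :
    (shΩ a p).card = 1 := by
  have := Fact.mk hp
  rw [shΩ]
  split_ifs with h
  · rfl
  · have h1 : p ∣ a - 1 := (hp.dvd_mul.1 hd).resolve_left h
    have h2 : (a : ZMod p) = 1 := by
      obtain ⟨k, hk⟩ := h1
      have : a = 1 + p * k := by omega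
      rw [this]; push_cast; simp
    rw [h2, inv_one, sub_self, ZMod.val_zero]
    rfl

theorem card_shΩ_of_not_dvd {a p : ℕ} (hp : p.Prime) (ha : 1 ≤ a) (hd : ¬ p ∣ a * (a - 1)) :
    (shΩ a p).card = 2 := by
  have := Fact.mk hp
  have h1 : ¬ p ∣ a := fun h => hd (h.mul_right _)
  have h2 : ¬ p ∣ a - 1 := fun h => hd (h.mul_left _)
  rw [shΩ, if_neg h1, card_pair]
  intro h3
  have h4 : (1 : ZMod p) - (a : ZMod p)⁻¹ = 0 := by
    rw [← ZMod.val_eq_zero]; exact h3.symm
  have h5 : (a : ZMod p) ≠ 0 := by rwa [Ne, ZMod.natCast_eq_zero_iff]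
  have h6 : (a : ZMod p) = 1 := by
    have : (a : ZMod p)⁻¹ = 1 := (sub_eq_zero.1 h4).symm
    rwa [inv_eq_one] at this
  apply h2
  rw [← ZMod.natCast_eq_zero_iff, Nat.cast_sub ha, h6]
  simp

theorem card_shΩ_lt {a p : ℕ} (ha : 1 ≤ a) (hp : p.Prime) : (shΩ a p).card < p := by
  by_cases hd : p ∣ a * (a - 1)
  · rw [card_shΩ_of_dvd hp ha hd]; exact hp.one_lt
  · rw [card_shΩ_of_not_dvd hp ha hd]
    have h2 : p ≠ 2 := by
      rintro rfl
      apply hd
      rw [← even_iff_two_dvd]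
      exact Nat.even_mul_pred_self a
    have := hp.two_le
    omega

/-- lower bound of the Selberg denominator. -/
theorem sh_density {a : ℕ} (ha : 2 ≤ a) (Z : ℕ) :
    (Real.log Z) ^ 2 / 4 ≤ (∏ p ∈ (a * (a - 1)).primeFactors, (1 + 1 / (p : ℝ))) *
      ∑ l ∈ (Icc 1 (Z ^ 2)).filter Squarefree, hterm (shΩ a) l := by
  have ha1 : 1 ≤ a := by omega
  have hh0 : a * (a - 1) ≠ 0 := Nat.mul_ne_zero (by omega) (by omega)
  have h1 := log_le_two_mul_Fsum_inv Z
  have h2 := sq_Fsum_inv_le Z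
  have hlog : 0 ≤ Real.log Z := Real.log_natCast_nonneg Z
  have h3 : (Real.log Z) ^ 2 / 4 ≤ (Fsum Z (fun p => 1 / (p : ℝ))) ^ 2 := by
    have : Real.log Z ^ 2 ≤ (2 * Fsum Z (fun p => 1 / (p : ℝ))) ^ 2 := by gcongr
    nlinarith
  refine h3.trans (h2.trans ?_)
  set g : ℕ → ℝ := fun p => ((shΩ a p).card : ℝ) / ((p : ℝ) - (shΩ a p).card) with hg
  have hg0 : ∀ p, p.Prime → 0 ≤ g p := by
    intro p hp
    have : ((shΩ a p).card : ℝ) < p := by exact_mod_cast card_shΩ_lt ha1 hp
    have : (0 : ℝ) < (p : ℝ) - (shΩ a p).card := sub_pos.2 this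
    rw [hg]; positivity
  have h4 : Fsum (Z ^ 2) (fun p => 2 / (p : ℝ) + 1 / (p : ℝ) ^ 2) ≤
      Fsum (Z ^ 2) (fun p => g p + if p ∈ (a * (a - 1)).primeFactors then 1 / (p : ℝ) else 0) := by
    refine Fsum_mono _ (fun p _ _ => by positivity) fun p hp _ => ?_
    have hp0 : (0 : ℝ) < p := by exact_mod_cast hp.pos
    by_cases hd : p ∣ a * (a - 1)
    · rw [if_pos (Nat.mem_primeFactors.2 ⟨hp, hd, hh0⟩), hg]
      simp only
      rw [card_shΩ_of_dvd hp ha1 hd]
      have hp1 : (1 : ℝ) < p := by exact_mod_cast hp.one_lt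
      have hp2 : (0 : ℝ) < (p : ℝ) - 1 := by linarith
      push_cast
      have : 1 / (p : ℝ) + 1 / (p : ℝ) ^ 2 ≤ 1 / ((p : ℝ) - 1) := by
        rw [div_add_div _ _ hp0.ne' (by positivity), div_le_div_iff₀ (by positivity) hp2]
        nlinarith
      have e : 2 / (p : ℝ) = 1 / p + 1 / p := by ring
      rw [e]
      linarith
    · have hp3 : (3 : ℝ) ≤ p := by
        have h2 : p ≠ 2 := by
          rintro rfl
          apply hd
          rw [← even_iff_two_dvd]
          exact Nat.even_mul_pred_self a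
        have := hp.two_le
        exact_mod_cast (by omega : 3 ≤ p)
      rw [if_neg (fun h' => hd (Nat.dvd_of_mem_primeFactors h')), hg, add_zero]
      simp only
      rw [card_shΩ_of_not_dvd hp ha1 hd]
      have hp2 : (0 : ℝ) < (p : ℝ) - 2 := by linarith
      push_cast
      rw [div_add_div _ _ hp0.ne' (by positivity), div_le_div_iff₀ (by positivity) hp2]
      nlinarith
  refine h4.trans ?_
  exact Fsum_add_le _ (fun p hp _ => hg0 p hp) (a * (a - 1)).primeFactors
    (fun p hp => Nat.prime_of_mem_primeFactors hp) (fun p => 1 / (p : ℝ))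
    (fun p _ => by positivity)

/-- Explicit sieve bound for pairs of primes `r`, `a (r-1) + 1`. -/
theorem card_shifted_pairs {a : ℕ} (ha : 2 ≤ a) (M Z : ℕ) (hZ : 2 ≤ Z) :
    (((Ioc 0 M).filter (fun r => r.Prime ∧ Z ^ 2 < r ∧ (a * (r - 1) + 1).Prime)).card : ℝ) ≤
      4 * M * (∏ p ∈ (a * (a - 1)).primeFactors, (1 + 1 / (p : ℝ))) / (Real.log Z) ^ 2 +
        (Z : ℝ) ^ 12 := by
  have ha1 : 1 ≤ a := by omega
  have hlog : 0 < Real.log Z := Real.log_pos (by exact_mod_cast (by omega : 1 < Z))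
  set B := (Ioc 0 M).filter (fun r => r.Prime ∧ Z ^ 2 < r ∧ (a * (r - 1) + 1).Prime) with hB
  have hΩ : ∀ p, Nat.Prime p → p ≤ Z ^ 2 →
      (∀ c ∈ shΩ a p, c < p) ∧ (shΩ a p).card < p :=
    fun p hp _ => ⟨fun c hc => shΩ_lt hp.pos hc, card_shΩ_lt ha1 hp⟩
  have hZ2 : 1 ≤ Z ^ 2 := Nat.one_le_pow _ _ (by omega)
  have h1 := residue_sieve (A := 0) (M := M) hZ2 hΩ B ?_ ?_
  rotate_left
  · intro r hr
    rw [hB, mem_filter] at hr
    simpa using hr.1
  · intro r hr p hp hpZ
    rw [hB, mem_filter] at hr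
    obtain ⟨hr1, hrp, hrZ, hrq⟩ := hr
    have := Fact.mk hp
    have hr0 : 1 ≤ r := hrp.pos
    have hnd : r % p ≠ 0 := by
      intro h0
      have := (Nat.prime_dvd_prime_iff_eq hp hrp).1 (Nat.dvd_of_mod_eq_zero h0)
      omega
    rw [shΩ]
    split_ifs with hpa
    · rw [mem_singleton]; exact hnd
    · rw [mem_insert, mem_singleton]
      rintro (h0 | h0)
      · exact hnd h0
      · have h5 : (a : ZMod p) ≠ 0 := by rwa [Ne, ZMod.natCast_eq_zero_iff]
        have h6 : (r : ZMod p) = 1 - (a : ZMod p)⁻¹ := by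
          have e1 : ((r % p : ℕ) : ZMod p) = (r : ZMod p) := ZMod.natCast_mod r p
          rw [← e1, h0, ZMod.natCast_zmod_val]
        have h7 : ((a * (r - 1) + 1 : ℕ) : ZMod p) = 0 := by
          push_cast [Nat.cast_sub hr0]
          rw [h6]
          field_simp
          ring
        rw [ZMod.natCast_eq_zero_iff] at h7
        have h8 := (Nat.prime_dvd_prime_iff_eq hp hrq).1 h7
        have h9 : r - 1 ≤ a * (r - 1) := Nat.le_mul_of_pos_left _ (by omega)
        have h10 : 2 * (r - 1) ≤ a * (r - 1) := Nat.mul_le_mul_right _ ha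
        have h11 := hp.two_le
        omega
  have h2 := sh_density ha Z
  set G := ∑ l ∈ (Icc 1 (Z ^ 2)).filter Squarefree, hterm (shΩ a) l with hG
  set Pr := ∏ p ∈ (a * (a - 1)).primeFactors, (1 + 1 / (p : ℝ)) with hPr
  have hPr0 : 0 < Pr := prod_pos fun p _ => by positivity
  have hG0 : 0 < G := by
    by_contra hcon
    push Not at hcon
    have : Pr * G ≤ 0 := mul_nonpos_of_nonneg_of_nonpos hPr0.le hcon
    have : 0 < Real.log Z ^ 2 / 4 := by positivity
    linarith
  have h3 : (M : ℝ) / G ≤ 4 * M * Pr / (Real.log Z) ^ 2 := by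
    rw [div_le_div_iff₀ hG0 (by positivity)]
    have hx : (0 : ℝ) ≤ M := by positivity
    nlinarith
  have h6 : (((Z ^ 2 : ℕ)) : ℝ) ^ 6 = (Z : ℝ) ^ 12 := by push_cast; ring
  rw [h6] at h1
  linarith

/-- forbidden classes for `2 ^ J n + 1` -/
def oneΩ (J p : ℕ) : Finset ℕ :=
  if p = 2 then ∅ else {(-((2 : ZMod p) ^ J)⁻¹).val}

/-- Brun–Titchmarsh type bound for the classes `1 mod 2 ^ J`. -/
theorem card_primes_one_mod (J x Y : ℕ) (hY : 2 ≤ Y) :
    (((primesLE x).filter (fun p => 2 ^ J ∣ p - 1)).card : ℝ) ≤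
      3 * (x / 2 ^ J) / Real.log Y + 2 * (Y : ℝ) ^ 6 := by
  have hlog : 0 < Real.log Y := Real.log_pos (by exact_mod_cast (by omega : 1 < Y))
  set B := (Ioc 0 (x / 2 ^ J)).filter (fun n => (2 ^ J * n + 1).Prime ∧ Y < 2 ^ J * n + 1) with hB
  have hcard : ∀ p, p.Prime → (oneΩ J p).card = if p = 2 then 0 else 1 := by
    intro p hp
    rw [oneΩ]
    split_ifs <;> simp
  have hΩ : ∀ p, Nat.Prime p → p ≤ Y →
      (∀ c ∈ oneΩ J p, c < p) ∧ (oneΩ J p).card < p := by
    intro p hp _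
    have : NeZero p := ⟨hp.ne_zero⟩
    refine ⟨fun c hc => ?_, ?_⟩
    · rw [oneΩ] at hc
      split_ifs at hc with h
      · simp at hc
      · rw [mem_singleton] at hc
        rw [hc]; exact ZMod.val_lt _
    · rw [hcard p hp]
      have := hp.two_le
      split_ifs <;> omega
  have h1 := residue_sieve (A := 0) (M := x / 2 ^ J) (by omega : 1 ≤ Y) hΩ B ?_ ?_
  rotate_left
  · intro r hr
    rw [hB, mem_filter] at hr
    simpa using hr.1
  · intro n hn p hp hpY
    rw [hB, mem_filter] at hn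
    obtain ⟨hn1, hnp, hnY⟩ := hn
    have := Fact.mk hp
    rw [oneΩ]
    split_ifs with hp2
    · simp
    · rw [mem_singleton]
      intro h0
      have h5 : (2 : ZMod p) ≠ 0 := by
        have : ((2 : ℕ) : ZMod p) ≠ 0 := by
          rw [Ne, ZMod.natCast_eq_zero_iff]
          intro h
          exact hp2 ((Nat.prime_dvd_prime_iff_eq hp Nat.prime_two).1 h)
        exact_mod_cast this
      have h6 : (n : ZMod p) = -((2 : ZMod p) ^ J)⁻¹ := by
        have e1 : ((n % p : ℕ) : ZMod p) = (n : ZMod p) := ZMod.natCast_mod n p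
        rw [← e1, h0, ZMod.natCast_zmod_val]
      have h7 : ((2 ^ J * n + 1 : ℕ) : ZMod p) = 0 := by
        push_cast
        rw [h6]
        have : (2 : ZMod p) ^ J ≠ 0 := pow_ne_zero _ h5
        field_simp
        ring
      rw [ZMod.natCast_eq_zero_iff] at h7
      have h8 := (Nat.prime_dvd_prime_iff_eq hp hnp).1 h7
      omega
  set g : ℕ → ℝ := fun p => ((oneΩ J p).card : ℝ) / ((p : ℝ) - (oneΩ J p).card) with hg
  set G := ∑ l ∈ (Icc 1 Y).filter Squarefree, hterm (oneΩ J) l with hG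
  have hGF : G = Fsum Y g := rfl
  have hg0 : ∀ p, p.Prime → 0 ≤ g p := by
    intro p hp
    rw [hg]
    simp only
    rw [hcard p hp]
    have hp1 : (1 : ℝ) < p := by exact_mod_cast hp.one_lt
    have : (0 : ℝ) < p - 1 := by linarith
    split_ifs
    · simp
    · push_cast; positivity
  have h2 : Real.log Y / 3 ≤ G := by
    have e1 := log_le_two_mul_Fsum_inv Y
    have e2 : Fsum Y (fun p => 1 / (p : ℝ)) ≤
        Fsum Y (fun p => g p + if p ∈ ({2} : Finset ℕ) then (1 / 2 : ℝ) else 0) := by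
      refine Fsum_mono _ (fun p _ _ => by positivity) fun p hp _ => ?_
      rw [hg]
      simp only
      rw [hcard p hp]
      simp only [mem_singleton]
      split_ifs with h
      · rw [h]; norm_num
      · have hp1 : (1 : ℝ) < p := by exact_mod_cast hp.one_lt
        have : (0 : ℝ) < p - 1 := by linarith
        push_cast
        rw [add_zero]
        exact one_div_le_one_div_of_le this (by linarith)
    have e3 := Fsum_add_le Y (g := g) (fun p hp _ => hg0 p hp) ({2} : Finset ℕ)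
      (fun p hp => by rw [mem_singleton] at hp; rw [hp]; exact Nat.prime_two)
      (fun _ => (1 / 2 : ℝ)) (fun _ _ => by norm_num)
    rw [prod_singleton, ← hGF] at e3
    have e4 := e2.trans e3
    linarith
  have hG0 : 0 < G := by
    have : 0 < Real.log Y / 3 := by positivity
    linarith
  have hM : ((x / 2 ^ J : ℕ) : ℝ) ≤ x / 2 ^ J := by
    have := Nat.cast_div_le (α := ℝ) (m := x) (n := 2 ^ J)
    push_cast at this
    exact this
  have h3 : ((x / 2 ^ J : ℕ) : ℝ) / G ≤ 3 * (x / 2 ^ J) / Real.log Y := by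
    rw [div_le_div_iff₀ hG0 hlog]
    have hx : (0 : ℝ) ≤ ((x / 2 ^ J : ℕ) : ℝ) := by positivity
    have hx' : (0 : ℝ) ≤ (x : ℝ) / 2 ^ J := by positivity
    calc ((x / 2 ^ J : ℕ) : ℝ) * Real.log Y ≤ (x / 2 ^ J) * (3 * G) := by
          refine mul_le_mul hM (by linarith) hlog.le hx'
      _ = _ := by ring
  -- compare
  have h4 : ((primesLE x).filter (fun p => 2 ^ J ∣ p - 1)).card ≤ B.card + Y := by
    have hsub : (primesLE x).filter (fun p => 2 ^ J ∣ p - 1) ⊆
        (B.image (fun n => 2 ^ J * n + 1)) ∪ Icc 1 Y := by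
      intro p hp
      rw [mem_filter, mem_primesLE] at hp
      obtain ⟨⟨hpx, hpp⟩, hd⟩ := hp
      rw [mem_union]
      by_cases hpY : p ≤ Y
      · right
        rw [mem_Icc]
        exact ⟨hpp.pos, hpY⟩
      · left
        obtain ⟨n, hn⟩ := hd
        have hp2 := hpp.two_le
        have hpe : 2 ^ J * n + 1 = p := by omega
        rw [mem_image]
        refine ⟨n, ?_, hpe⟩
        rw [hB, mem_filter, mem_Ioc]
        refine ⟨⟨?_, ?_⟩, by rwa [hpe], by omega⟩
        · rcases Nat.eq_zero_or_pos n with rfl | h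
          · simp at hpe; omega
          · exact h
        · rw [Nat.le_div_iff_mul_le (by positivity)]
          rw [mul_comm] at hpe
          omega
    refine (card_le_card hsub).trans ((card_union_le _ _).trans ?_)
    refine Nat.add_le_add card_image_le ?_
    simp
  have h4' : (((primesLE x).filter (fun p => 2 ^ J ∣ p - 1)).card : ℝ) ≤ B.card + (Y : ℝ) := by
    exact_mod_cast h4
  have hYr : (1 : ℝ) ≤ Y := by exact_mod_cast (by omega : 1 ≤ Y)
  have h5 : (Y : ℝ) ≤ (Y : ℝ) ^ 6 := by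
    calc (Y : ℝ) = (Y : ℝ) ^ 1 := (pow_one _).symm
      _ ≤ (Y : ℝ) ^ 6 := pow_le_pow_right₀ hYr (by norm_num)
  linarith

end

end Pool.Agent.Helper54.Tot
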