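import Mathlib
import Pool.Agent.Helper24.Mertens

/-!
# Sums of `1/φ(m)` over integers with few prime factors
-/

set_option autoImplicit false

namespace Pool.Agent.Helper54.Tot

open Finset Nat Pool.Agent.Helper24

noncomputable section

theorem le_two_pow_mul_totient (n : ℕ) : n ≤ 2 ^ n.primeFactors.card * n.totient := by
  have h := Nat.totient_mul_prod_primeFactors n
  have h1 : ∏ p ∈ n.primeFactors, p ≤ 2 ^ n.primeFactors.card * ∏ p ∈ n.primeFactors, (p - 1) := by
    rw [← prod_const, ← prod_mul_distrib]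
    refine Finset.prod_le_prod' fun p hp => ?_
    have := (prime_of_mem_primeFactors hp).two_le
    omega
  have h2 : 0 < ∏ p ∈ n.primeFactors, (p - 1) := by
    refine Finset.prod_pos fun p hp => ?_
    have := (prime_of_mem_primeFactors hp).two_le
    omega
  have h3 : n * ∏ p ∈ n.primeFactors, (p - 1) ≤
      (2 ^ n.primeFactors.card * n.totient) * ∏ p ∈ n.primeFactors, (p - 1) := by
    rw [← h]
    calc n.totient * ∏ p ∈ n.primeFactors, p
        ≤ n.totient * (2 ^ n.primeFactors.card * ∏ p ∈ n.primeFactors, (p - 1)) :=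
          Nat.mul_le_mul_left _ h1
      _ = _ := by ring
  exact Nat.le_of_mul_le_mul_right h3 h2

/-- the sum over prime powers -/
def ppSum (X : ℕ) : ℝ := ∑ l ∈ primesLE X, ∑ k ∈ Icc 1 X, 1 / ((l ^ k).totient : ℝ)

theorem ppSum_nonneg (X : ℕ) : 0 ≤ ppSum X :=
  sum_nonneg fun _ _ => sum_nonneg fun _ _ => by positivity

theorem geom_le_two {l : ℕ} (hl : 2 ≤ l) (n : ℕ) :
    ∑ j ∈ range n, (1 / (l : ℝ)) ^ j ≤ 2 := by
  have hl' : (2 : ℝ) ≤ l := by exact_mod_cast hl
  have h0 : (0 : ℝ) ≤ 1 / (l : ℝ) := by positivity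
  have h1 : 1 / (l : ℝ) ≤ 1 / 2 := by gcongr
  calc ∑ j ∈ range n, (1 / (l : ℝ)) ^ j ≤ ∑ j ∈ range n, (1 / 2 : ℝ) ^ j := by gcongr
    _ ≤ 2 := sum_geometric_two_le n

theorem inner_le {l X : ℕ} (hl : l.Prime) :
    ∑ k ∈ Icc 1 X, 1 / ((l ^ k).totient : ℝ) ≤ 4 * (1 / (l : ℝ)) := by
  have hl2 := hl.two_le
  have hl' : (2 : ℝ) ≤ l := by exact_mod_cast hl2
  have h1 : ∑ k ∈ Icc 1 X, 1 / ((l ^ k).totient : ℝ) =
      ∑ j ∈ range X, (1 / ((l : ℝ) - 1)) * (1 / (l : ℝ)) ^ j := by
    have hIcc : Icc 1 X = (range X).image (· + 1) := by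
      ext k
      simp only [mem_Icc, mem_image, mem_range]
      constructor
      · rintro ⟨h1, h2⟩
        exact ⟨k - 1, by omega, by omega⟩
      · rintro ⟨j, hj, rfl⟩
        omega
    rw [hIcc, sum_image (by intro a _ b _ h; simpa using h)]
    refine sum_congr rfl fun j _ => ?_
    rw [Nat.totient_prime_pow hl (Nat.succ_pos j), Nat.succ_sub_one]
    push_cast [Nat.cast_sub hl.one_lt.le]
    rw [one_div_pow, one_div_mul_one_div, mul_comm]
  rw [h1, ← mul_sum]
  have h2 := geom_le_two hl2 X
  have h3 : (0 : ℝ) < (l : ℝ) - 1 := by linarith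
  have h4 : 1 / ((l : ℝ) - 1) ≤ 2 * (1 / (l : ℝ)) := by
    rw [mul_one_div, div_le_div_iff₀ h3 (by linarith)]
    linarith
  calc (1 / ((l : ℝ) - 1)) * ∑ j ∈ range X, (1 / (l : ℝ)) ^ j
      ≤ (2 * (1 / (l : ℝ))) * 2 := by
        refine mul_le_mul h4 h2 ?_ (by positivity)
        exact sum_nonneg fun _ _ => by positivity
    _ = _ := by ring

theorem ppSum_le {X : ℕ} (hX : 2 ≤ X) : ppSum X ≤ 4 * (Real.log (Real.log X) + 3.4) := by
  calc ppSum X ≤ ∑ l ∈ primesLE X, 4 * (1 / (l : ℝ)) :=
        sum_le_sum fun l hl => inner_le (prime_of_mem_primesLE hl)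
    _ = 4 * ∑ l ∈ primesLE X, (1 / (l : ℝ)) := by rw [mul_sum]
    _ ≤ _ := by
        have := sum_inv_primes_le X hX
        linarith

/-- integers up to `X` with at most `J` prime factors -/
def few (J X : ℕ) : Finset ℕ := (Icc 1 X).filter (fun m => m.primeFactors.card ≤ J)

theorem sum_inv_totient_le (J X : ℕ) :
    ∑ m ∈ few J X, 1 / (m.totient : ℝ) ≤ (1 + ppSum X) ^ J := by
  classical
  induction J with
  | zero =>
    have h : few 0 X ⊆ {1} := by
      intro m hm
      rw [few, mem_filter, mem_Icc] at hm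
      rw [mem_singleton]
      have h1 : m.primeFactors = ∅ := by
        rw [← Finset.card_eq_zero]; omega
      rcases Nat.primeFactors_eq_empty.1 h1 with h2 | h2 <;> omega
    refine (sum_le_sum_of_subset_of_nonneg h fun _ _ _ => by positivity).trans ?_
    simp
  | succ J ih =>
    have hsplit : few (J + 1) X ⊆ few J X ∪ (few (J + 1) X).filter
        (fun m => m.primeFactors.card = J + 1) := by
      intro m hm
      rw [mem_union, mem_filter]
      by_cases h : m.primeFactors.card = J + 1
      · exact Or.inr ⟨hm, h⟩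
      · left
        rw [few, mem_filter] at hm ⊢
        exact ⟨hm.1, by omega⟩
    set U := (few (J + 1) X).filter (fun m => m.primeFactors.card = J + 1) with hU
    have h1 : ∑ m ∈ few (J + 1) X, 1 / (m.totient : ℝ) ≤
        ∑ m ∈ few J X, 1 / (m.totient : ℝ) + ∑ m ∈ U, 1 / (m.totient : ℝ) := by
      refine (sum_le_sum_of_subset_of_nonneg hsplit fun _ _ _ => by positivity).trans ?_
      rw [← sum_union_inter]
      have : 0 ≤ ∑ m ∈ few J X ∩ U, 1 / (m.totient : ℝ) := sum_nonneg fun _ _ => by positivity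
      linarith
    have h2 : ∑ m ∈ U, 1 / (m.totient : ℝ) ≤ ppSum X * ∑ m ∈ few J X, 1 / (m.totient : ℝ) := by
      -- decomposition
      have key : ∀ m ∈ U, m.minFac.Prime ∧ m ≠ 0 ∧ m ≤ X ∧ 1 ≤ m.factorization m.minFac ∧
          m = m.minFac ^ m.factorization m.minFac * (m / m.minFac ^ m.factorization m.minFac) ∧
          Nat.Coprime (m.minFac ^ m.factorization m.minFac)
            (m / m.minFac ^ m.factorization m.minFac) ∧
          (m / m.minFac ^ m.factorization m.minFac).primeFactors.card = J := by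
        intro m hm
        rw [hU, mem_filter, few, mem_filter, mem_Icc] at hm
        obtain ⟨⟨⟨hm1, hmX⟩, _⟩, hmc⟩ := hm
        have hm0 : m ≠ 0 := by omega
        have hm1' : m ≠ 1 := by
          rintro rfl
          simp at hmc
        have hp := Nat.minFac_prime hm1'
        have hcop := Nat.coprime_ordCompl hp hm0
        refine ⟨hp, hm0, hmX, ?_, ?_, ?_, ?_⟩
        · exact hp.factorization_pos_of_dvd hm0 (Nat.minFac_dvd m)
        · exact (Nat.ordProj_mul_ordCompl_eq_self m m.minFac).symm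
        · exact Nat.Coprime.pow_left _ hcop
        · have hcop' : Nat.Coprime (m.minFac ^ m.factorization m.minFac)
              (m / m.minFac ^ m.factorization m.minFac) := Nat.Coprime.pow_left _ hcop
          have hk1 : m.factorization m.minFac ≠ 0 :=
            (hp.factorization_pos_of_dvd hm0 (Nat.minFac_dvd m)).ne'
          have e1 := hcop'.primeFactors_mul
          rw [Nat.ordProj_mul_ordCompl_eq_self m m.minFac] at e1
          rw [e1, card_union_of_disjoint hcop'.disjoint_primeFactors,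
            Nat.primeFactors_prime_pow hk1 hp, card_singleton] at hmc
          omega
      set e : ℕ → (ℕ × ℕ) × ℕ := fun m =>
        ((m.minFac, m.factorization m.minFac), m / m.minFac ^ m.factorization m.minFac) with he
      have hinj : Set.InjOn e (↑U : Set ℕ) := by
        intro m hm n hn hmn
        have a1 := (key m hm).2.2.2.2.1
        have a2 := (key n hn).2.2.2.2.1
        rw [he] at hmn
        simp only [Prod.mk.injEq] at hmn
        obtain ⟨⟨b1, b2⟩, b3⟩ := hmn
        rw [a1, a2, b3, b2, b1]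
      have hval : ∀ m ∈ U, 1 / (m.totient : ℝ) =
          (fun y : (ℕ × ℕ) × ℕ => (1 / ((y.1.1 ^ y.1.2).totient : ℝ)) * (1 / (y.2.totient : ℝ)))
            (e m) := by
        intro m hm
        obtain ⟨c1, c2, c3, c4, c5, c6, c7⟩ := key m hm
        simp only [he]
        rw [one_div_mul_one_div, ← Nat.cast_mul, ← Nat.totient_mul c6, ← c5]
      rw [sum_congr rfl hval]
      rw [← sum_image (f := fun y : (ℕ × ℕ) × ℕ =>
        (1 / ((y.1.1 ^ y.1.2).totient : ℝ)) * (1 / (y.2.totient : ℝ))) hinj]
      have hsub : U.image e ⊆ ((primesLE X) ×ˢ (Icc 1 X)) ×ˢ few J X := by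
        intro y hy
        rw [mem_image] at hy
        obtain ⟨m, hm, rfl⟩ := hy
        obtain ⟨c1, c2, c3, c4, c5, c6, c7⟩ := key m hm
        have c8 : m.minFac ≤ m := Nat.minFac_le (Nat.pos_of_ne_zero c2)
        rw [mem_product, mem_product, mem_primesLE, mem_Icc, few, mem_filter, mem_Icc]
        refine ⟨⟨⟨c8.trans c3, c1⟩, c4, ?_⟩, ⟨?_, ?_⟩, c7.le⟩
        · have : m.factorization m.minFac < m := Nat.factorization_lt _ c2
          change m.factorization m.minFac ≤ X
          omega
        · exact Nat.pos_of_ne_zero fun h0 => by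
            change m / m.minFac ^ m.factorization m.minFac = 0 at h0
            rw [h0, mul_zero] at c5
            exact c2 c5
        · exact (Nat.div_le_self _ _).trans c3
      refine (sum_le_sum_of_subset_of_nonneg hsub fun _ _ _ => by positivity).trans ?_
      rw [sum_product, sum_product, ppSum, sum_mul]
      refine sum_le_sum fun l _ => ?_
      rw [sum_mul]
      refine sum_le_sum fun k _ => ?_
      rw [mul_sum]
    have h3 := ppSum_nonneg X
    calc ∑ m ∈ few (J + 1) X, 1 / (m.totient : ℝ)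
        ≤ (1 + ppSum X) * ∑ m ∈ few J X, 1 / (m.totient : ℝ) := by linarith
      _ ≤ (1 + ppSum X) * (1 + ppSum X) ^ J := by gcongr
      _ = _ := by ring

end

end Pool.Agent.Helper54.Tot
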