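import Mathlib
import Pool.Agent.Helper54.TotReduction
import Pool.Agent.Helper54.TotSieve
import Pool.Agent.Helper54.TotSum

/-!
# Counting primes `p` such that `p - 1` has an unexpected totient preimage
-/

set_option autoImplicit false

namespace Pool.Agent.Helper54.Tot

open Finset Nat Pool.Agent.Helper24

noncomputable section

/-- primes `p ≤ x` with `(p-1)` divisible by `φ(b²)` for a prime power `b > B`. -/
theorem card_squareful (x B : ℕ) (hB : 1 ≤ B) (S : Finset ℕ)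
    (hS : ∀ p ∈ S, p ≤ x ∧ 2 ≤ p ∧
      ∃ b : ℕ, B < b ∧ b ^ 2 ≤ 2 * (b ^ 2).totient ∧ (b ^ 2).totient ∣ p - 1) :
    (S.card : ℝ) ≤ 2 * x / B := by
  classical
  have hsub : S ⊆ (Ioc B (2 * x)).biUnion
      (fun b => (Icc 1 (2 * x / b ^ 2)).image (fun t => (b ^ 2).totient * t + 1)) := by
    intro p hp
    obtain ⟨hpx, hp2, b, hb, hb2, hd⟩ := hS p hp
    obtain ⟨t, ht⟩ := hd
    have ht0 : 1 ≤ t := by
      rcases Nat.eq_zero_or_pos t with rfl | h
      · rw [mul_zero] at ht; omega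
      · exact h
    have h1 : (b ^ 2).totient ≤ (b ^ 2).totient * t := Nat.le_mul_of_pos_right _ ht0
    have hbb : b ≤ b ^ 2 := Nat.le_self_pow (by norm_num) b
    rw [mem_biUnion]
    refine ⟨b, ?_, ?_⟩
    · rw [mem_Ioc]; omega
    · rw [mem_image]
      refine ⟨t, ?_, by omega⟩
      rw [mem_Icc]
      refine ⟨ht0, ?_⟩
      have hb0 : 0 < b ^ 2 := pow_pos (by omega) 2
      rw [Nat.le_div_iff_mul_le hb0]
      calc t * b ^ 2 ≤ t * (2 * (b ^ 2).totient) := Nat.mul_le_mul_left _ hb2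
        _ = 2 * ((b ^ 2).totient * t) := by ring
        _ ≤ 2 * x := by omega
  have h1 : S.card ≤ ∑ b ∈ Ioc B (2 * x), 2 * x / b ^ 2 := by
    refine (card_le_card hsub).trans (card_biUnion_le.trans (sum_le_sum fun b _ => ?_))
    refine card_image_le.trans ?_
    simp
  have h2 : (S.card : ℝ) ≤ ∑ b ∈ Ioc B (2 * x), (2 * x) * ((b : ℝ) ^ 2)⁻¹ := by
    calc (S.card : ℝ) ≤ ((∑ b ∈ Ioc B (2 * x), 2 * x / b ^ 2 : ℕ) : ℝ) := by exact_mod_cast h1
      _ = ∑ b ∈ Ioc B (2 * x), ((2 * x / b ^ 2 : ℕ) : ℝ) := by push_cast; rfl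
      _ ≤ _ := by
        refine sum_le_sum fun b _ => ?_
        have := Nat.cast_div_le (α := ℝ) (m := 2 * x) (n := b ^ 2)
        push_cast at this
        rw [← div_eq_mul_inv]
        exact this
  rw [← mul_sum] at h2
  rcases Nat.lt_or_ge (2 * x) B with hlt | hge
  · rw [Ioc_eq_empty (by omega), sum_empty, mul_zero] at h2
    refine h2.trans (by positivity)
  · have h3 := sum_Ioc_inv_sq_le_sub (α := ℝ) (k := B) (n := 2 * x) (by omega) hge
    have hB0 : (0 : ℝ) < B := by exact_mod_cast hB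
    have h4 : (0 : ℝ) ≤ (((2 * x : ℕ) : ℝ))⁻¹ := by positivity
    have h5 : ∑ b ∈ Ioc B (2 * x), ((b : ℝ) ^ 2)⁻¹ ≤ (B : ℝ)⁻¹ := by linarith
    calc (S.card : ℝ) ≤ (2 * x) * ∑ b ∈ Ioc B (2 * x), ((b : ℝ) ^ 2)⁻¹ := h2
      _ ≤ (2 * x) * (B : ℝ)⁻¹ := by gcongr
      _ = _ := by rw [div_eq_mul_inv]

/-- primes `p ≤ x` of the form `φ(m)(r-1)+1`. -/
theorem card_structured (x J Z : ℕ) (hZ : 2 ≤ Z) (hx : 3 ≤ x) (P : ℝ)
    (hP : ∀ a : ℕ, 2 ≤ a → a ≤ x → ∏ p ∈ (a * (a - 1)).primeFactors, (1 + 1 / (p : ℝ)) ≤ P)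
    (S : Finset ℕ)
    (hS : ∀ p ∈ S, p ≤ x ∧ p.Prime ∧
      ∃ m r : ℕ, r.Prime ∧ (Z ^ 5) ^ 3 < r ∧ 3 ≤ m ∧ m.primeFactors.card ≤ J ∧
      p = m.totient * (r - 1) + 1) :
    (S.card : ℝ) ≤ 8 * x * P / (Real.log Z) ^ 2 * (1 + ppSum (2 ^ J * x)) ^ J +
      2 ^ J * x / Z ^ 3 := by
  classical
  set D := 2 ^ J * x / Z ^ 15 with hD
  set T := ((few J D).filter (fun m => 3 ≤ m ∧ m.totient * Z ^ 15 ≤ x)) with hT
  have hZ15 : (Z ^ 5) ^ 3 = Z ^ 15 := by ring
  have hZ0 : 0 < Z ^ 15 := by positivity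
  have hZ2 : Z ^ 2 ≤ Z ^ 15 := Nat.pow_le_pow_right (by omega) (by norm_num)
  have hsub : S ⊆ T.biUnion (fun m =>
      (((Ioc 0 (x / m.totient + 1)).filter
        (fun r => r.Prime ∧ Z ^ 2 < r ∧ (m.totient * (r - 1) + 1).Prime)).image
        (fun r => m.totient * (r - 1) + 1))) := by
    intro p hp
    obtain ⟨hpx, hpp, m, r, hr, hrZ, hm3, hmJ, hpe⟩ := hS p hp
    rw [hZ15] at hrZ
    have hm0 : 0 < m.totient := Nat.totient_pos.2 (by omega)
    have h1 : m.totient * Z ^ 15 ≤ m.totient * (r - 1) := Nat.mul_le_mul_left _ (by omega)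
    have h2 : m.totient * Z ^ 15 ≤ x := by omega
    rw [mem_biUnion]
    refine ⟨m, ?_, ?_⟩
    · rw [hT, mem_filter, few, mem_filter, mem_Icc]
      refine ⟨⟨⟨by omega, ?_⟩, hmJ⟩, hm3, h2⟩
      rw [hD, Nat.le_div_iff_mul_le hZ0]
      calc m * Z ^ 15 ≤ (2 ^ m.primeFactors.card * m.totient) * Z ^ 15 :=
            Nat.mul_le_mul_right _ (le_two_pow_mul_totient m)
        _ ≤ (2 ^ J * m.totient) * Z ^ 15 := by
            refine Nat.mul_le_mul_right _ (Nat.mul_le_mul_right _ ?_)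
            exact Nat.pow_le_pow_right (by norm_num) hmJ
        _ = 2 ^ J * (m.totient * Z ^ 15) := by ring
        _ ≤ 2 ^ J * x := Nat.mul_le_mul_left _ h2
    · rw [mem_image]
      refine ⟨r, ?_, hpe.symm⟩
      rw [mem_filter, mem_Ioc]
      refine ⟨⟨hr.pos, ?_⟩, hr, by omega, by rwa [← hpe]⟩
      have : r - 1 ≤ x / m.totient := by
        rw [Nat.le_div_iff_mul_le hm0, mul_comm]
        omega
      omega
  have h1 : (S.card : ℝ) ≤ ∑ m ∈ T, ((((Ioc 0 (x / m.totient + 1)).filter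
        (fun r => r.Prime ∧ Z ^ 2 < r ∧ (m.totient * (r - 1) + 1).Prime))).card : ℝ) := by
    have : S.card ≤ ∑ m ∈ T, (((Ioc 0 (x / m.totient + 1)).filter
        (fun r => r.Prime ∧ Z ^ 2 < r ∧ (m.totient * (r - 1) + 1).Prime))).card :=
      (card_le_card hsub).trans (card_biUnion_le.trans (sum_le_sum fun b _ => card_image_le))
    exact_mod_cast this
  have hP0 : 0 ≤ P := by
    refine le_trans ?_ (hP 2 le_rfl (by omega))
    exact prod_nonneg fun _ _ => by positivity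
  have hlog : 0 < Real.log Z := Real.log_pos (by exact_mod_cast (by omega : 1 < Z))
  have h2 : ∀ m ∈ T, ((((Ioc 0 (x / m.totient + 1)).filter
        (fun r => r.Prime ∧ Z ^ 2 < r ∧ (m.totient * (r - 1) + 1).Prime))).card : ℝ) ≤
      8 * x * P / (Real.log Z) ^ 2 * (1 / (m.totient : ℝ)) + (Z : ℝ) ^ 12 := by
    intro m hm
    rw [hT, mem_filter, few, mem_filter, mem_Icc] at hm
    obtain ⟨_, hm3, hmx⟩ := hm
    have ha2 : 2 ≤ m.totient := by
      have he := Nat.totient_even (by omega : 2 < m)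
      have hp : 0 < m.totient := Nat.totient_pos.2 (by omega)
      obtain ⟨k, hk⟩ := he
      omega
    have hax : m.totient ≤ x := le_trans (Nat.le_mul_of_pos_right _ hZ0) hmx
    have e1 := card_shifted_pairs ha2 (x / m.totient + 1) Z hZ
    refine e1.trans (add_le_add ?_ le_rfl)
    have ha0 : (0 : ℝ) < m.totient := by exact_mod_cast (by omega : 0 < m.totient)
    have e2 : (((x / m.totient + 1 : ℕ)) : ℝ) ≤ 2 * x / m.totient := by
      have := Nat.cast_div_le (α := ℝ) (m := x) (n := m.totient)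
      have h1' : (1 : ℝ) ≤ x / m.totient := by
        rw [le_div_iff₀ ha0, one_mul]
        exact_mod_cast hax
      push_cast
      have h3 : 2 * (x : ℝ) / m.totient = x / m.totient + x / m.totient := by ring
      rw [h3]
      linarith
    have e3 := hP m.totient ha2 hax
    calc 4 * (((x / m.totient + 1 : ℕ)) : ℝ) *
          (∏ p ∈ (m.totient * (m.totient - 1)).primeFactors, (1 + 1 / (p : ℝ))) /
            (Real.log Z) ^ 2
        ≤ 4 * (2 * x / m.totient) * P / (Real.log Z) ^ 2 := by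
          gcongr
      _ = _ := by ring
  have h3 := h1.trans (sum_le_sum h2)
  rw [sum_add_distrib, ← mul_sum, sum_const, nsmul_eq_mul] at h3
  have h4 : ∑ m ∈ T, 1 / (m.totient : ℝ) ≤ (1 + ppSum (2 ^ J * x)) ^ J := by
    refine le_trans ?_ (sum_inv_totient_le J (2 ^ J * x))
    refine sum_le_sum_of_subset_of_nonneg ?_ fun _ _ _ => by positivity
    intro m hm
    rw [hT, mem_filter, few, mem_filter, mem_Icc] at hm
    rw [few, mem_filter, mem_Icc]
    refine ⟨⟨hm.1.1.1, hm.1.1.2.trans ?_⟩, hm.1.2⟩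
    exact Nat.div_le_self _ _
  have h5 : (T.card : ℝ) ≤ 2 ^ J * x / Z ^ 15 := by
    have e1 : T.card ≤ D := by
      have : T ⊆ Icc 1 D := by
        intro m hm
        rw [hT, mem_filter, few, mem_filter] at hm
        exact hm.1.1
      simpa using card_le_card this
    have e2 : (D : ℝ) ≤ 2 ^ J * x / Z ^ 15 := by
      have := Nat.cast_div_le (α := ℝ) (m := 2 ^ J * x) (n := Z ^ 15)
      push_cast at this
      exact this
    exact le_trans (by exact_mod_cast e1) e2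
  have hZr : (0 : ℝ) < Z := by exact_mod_cast (by omega : 0 < Z)
  have h6 : (T.card : ℝ) * (Z : ℝ) ^ 12 ≤ 2 ^ J * (x : ℝ) / (Z : ℝ) ^ 3 := by
    calc (T.card : ℝ) * (Z : ℝ) ^ 12 ≤ (2 ^ J * (x : ℝ) / (Z : ℝ) ^ 15) * (Z : ℝ) ^ 12 := by gcongr
      _ = 2 ^ J * (x : ℝ) / (Z : ℝ) ^ 3 := by
        have : (Z : ℝ) ^ 15 = Z ^ 3 * Z ^ 12 := by ring
        rw [this]
        field_simp
  have h7 : 0 ≤ 8 * x * P / (Real.log Z) ^ 2 := by positivity
  have h8 := mul_le_mul_of_nonneg_left h4 h7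
  linarith

/-- The exceptional primes up to `x`. -/
def exc (x : ℕ) : Finset ℕ :=
  open Classical in (primesLE x).filter (fun p => ∃ q : ℕ, q.totient = p - 1 ∧ q ≠ p ∧ q ≠ 2 * p)

theorem mem_exc {x p : ℕ} : p ∈ exc x ↔ (p ≤ x ∧ p.Prime) ∧
    ∃ q : ℕ, q.totient = p - 1 ∧ q ≠ p ∧ q ≠ 2 * p := by
  classical
  unfold exc
  rw [mem_filter, mem_primesLE]

/-- The explicit upper bound for the number of exceptional primes. -/
theorem card_exc_le (x J Y Z : ℕ) (hY : 2 ≤ Y) (hZ : 2 ≤ Z) (hx : 3 ≤ x) (P : ℝ)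
    (hP : ∀ a : ℕ, 2 ≤ a → a ≤ x → ∏ p ∈ (a * (a - 1)).primeFactors, (1 + 1 / (p : ℝ)) ≤ P) :
    ((exc x).card : ℝ) ≤ (3 * (x / 2 ^ J) / Real.log Y + 2 * (Y : ℝ) ^ 6) +
      (((Z : ℝ) ^ 15) ^ J + 1) + 2 * x / Z ^ 5 +
      (8 * x * P / (Real.log Z) ^ 2 * (1 + ppSum (2 ^ J * x)) ^ J + 2 ^ J * x / Z ^ 3) := by
  classical
  set S1 := (primesLE x).filter (fun p => 2 ^ J ∣ p - 1) with hS1
  set S2 := Icc 1 (((Z ^ 5) ^ 3) ^ J + 1) with hS2
  set S3 := (exc x).filter (fun p => ∃ b : ℕ, Z ^ 5 < b ∧ b ^ 2 ≤ 2 * (b ^ 2).totient ∧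
    (b ^ 2).totient ∣ p - 1) with hS3
  set S4 := (exc x).filter (fun p => ∃ m r : ℕ, r.Prime ∧ (Z ^ 5) ^ 3 < r ∧ 3 ≤ m ∧
    m.primeFactors.card ≤ J ∧ p = m.totient * (r - 1) + 1) with hS4
  have hsub : exc x ⊆ ((S1 ∪ S2) ∪ S3) ∪ S4 := by
    intro p hp
    have hp' := mem_exc.1 hp
    obtain ⟨⟨hpx, hpp⟩, q, hq1, hq2, hq3⟩ := hp'
    rw [mem_union, mem_union, mem_union]
    by_cases h1 : 2 ^ J ∣ p - 1
    · left; left; left
      rw [hS1, mem_filter, mem_primesLE]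
      exact ⟨⟨hpx, hpp⟩, h1⟩
    by_cases h2 : ((Z ^ 5) ^ 3) ^ J + 1 < p
    · rcases trichotomy hpp (Nat.one_le_pow _ _ (by omega)) hq1 hq2 hq3 h2 h1 with h3 | h3
      · left; right
        rw [hS3, mem_filter]
        exact ⟨hp, h3⟩
      · right
        rw [hS4, mem_filter]
        exact ⟨hp, h3⟩
    · left; left; right
      rw [hS2, mem_Icc]
      exact ⟨hpp.pos, not_lt.1 h2⟩
  have hc : (exc x).card ≤ S1.card + S2.card + S3.card + S4.card := by
    refine (card_le_card hsub).trans ((card_union_le _ _).trans (Nat.add_le_add_right ?_ _))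
    refine (card_union_le _ _).trans (Nat.add_le_add_right (card_union_le _ _) _)
  have hc' : ((exc x).card : ℝ) ≤ S1.card + S2.card + S3.card + S4.card := by
    exact_mod_cast hc
  have b1 := card_primes_one_mod J x Y hY
  have b2 : (S2.card : ℝ) = ((Z : ℝ) ^ 15) ^ J + 1 := by
    rw [hS2, Nat.card_Icc]
    push_cast
    ring
  have b3 := card_squareful x (Z ^ 5) (Nat.one_le_pow _ _ (by omega)) S3 (by
    intro p hp
    rw [hS3, mem_filter, mem_exc] at hp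
    exact ⟨hp.1.1.1, hp.1.1.2.two_le, hp.2⟩)
  have b4 := card_structured x J Z hZ hx P hP S4 (by
    intro p hp
    rw [hS4, mem_filter, mem_exc] at hp
    exact ⟨hp.1.1.1, hp.1.1.2, hp.2⟩)
  push_cast at b3
  rw [← hS1] at b1
  linarith

end

end Pool.Agent.Helper54.Tot
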