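import Mathlib
import Pool.Agent.Helper54.TotCount

/-!
# Almost no prime `p` has an unexpected preimage of `p - 1`
-/

set_option autoImplicit false

namespace Pool.Agent.Helper54.Tot

open Finset Nat Filter Pool.Agent.Helper24

noncomputable section

theorem tendsto_log_nat : Tendsto (fun x : ℕ => Real.log x) atTop atTop :=
  Real.tendsto_log_atTop.comp tendsto_natCast_atTop_atTop

theorem eventually_levelJ (J : ℕ) (hJ : 1 ≤ J) : ∀ᶠ x : ℕ in atTop, ∃ Z : ℕ, 2 ≤ Z ∧
    Real.log x / (60 * J) ≤ Real.log Z ∧ ((Z : ℝ) ^ 15) ^ J + 1 ≤ x / (Real.log x) ^ 2 ∧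
    (Real.log x) ^ 2 ≤ Z := by
  have hJr : (1 : ℝ) ≤ J := by exact_mod_cast hJ
  have hJ0 : (0 : ℝ) < J := by linarith
  set e : ℝ := 1 / (30 * J) with he
  have he0 : 0 < e := by positivity
  have hlittle : ∀ᶠ x : ℕ in atTop, (Real.log x) ^ 2 ≤ (x : ℝ) ^ e / 2 := by
    have h1 := (isLittleO_log_rpow_atTop (r := e / 2) (by positivity)).bound
      (c := 1 / 2) (by norm_num)
    have h2 := (tendsto_natCast_atTop_atTop (R := ℝ)).eventually h1
    filter_upwards [h2, tendsto_log_nat.eventually_ge_atTop 0, eventually_ge_atTop 1] with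
      x h3 h4 h5
    have hx0 : (0 : ℝ) ≤ x := by positivity
    rw [Real.norm_of_nonneg h4, Real.norm_of_nonneg (by positivity)] at h3
    have h6 : Real.log x ^ 2 ≤ (1 / 2 * (x : ℝ) ^ (e / 2)) ^ 2 := by gcongr
    have h7 : ((x : ℝ) ^ (e / 2)) ^ 2 = (x : ℝ) ^ e := by
      rw [← Real.rpow_natCast, ← Real.rpow_mul hx0]
      norm_num
    rw [mul_pow, h7] at h6
    have h8 : 0 ≤ (x : ℝ) ^ e := by positivity
    nlinarith
  filter_upwards [hlittle, tendsto_log_nat.eventually_ge_atTop (60 * J * Real.log 2),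
    tendsto_log_nat.eventually_ge_atTop 2, eventually_ge_atTop 1] with x h1 h2 h3 h4
  have hl2 : 0 < Real.log 2 := Real.log_pos (by norm_num)
  have hx1 : (1 : ℝ) ≤ x := by exact_mod_cast h4
  have hx0 : (0 : ℝ) < x := by linarith
  set w : ℝ := (x : ℝ) ^ e with hw
  have hw0 : 0 < w := by positivity
  have hlogw : Real.log w = Real.log x / (30 * J) := by
    rw [hw, Real.log_rpow hx0, he]; ring
  have hw8 : 8 ≤ w := by nlinarith
  have hwsqrt : w ≤ Real.sqrt x := by
    rw [hw, Real.sqrt_eq_rpow]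
    refine Real.rpow_le_rpow_of_exponent_le hx1 ?_
    rw [he]
    exact one_div_le_one_div_of_le (by norm_num) (by linarith)
  have hfl : w / 2 ≤ (⌊w⌋₊ : ℝ) := by
    have := Nat.lt_floor_add_one w
    linarith
  refine ⟨⌊w⌋₊, Nat.le_floor (by push_cast; linarith), ?_, ?_, h1.trans hfl⟩
  · have h6 := Real.log_le_log (by positivity) hfl
    rw [Real.log_div hw0.ne' (by norm_num), hlogw] at h6
    refine le_trans ?_ h6
    have h7 : Real.log x / (30 * J) = Real.log x / (60 * J) + Real.log x / (60 * J) := by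
      field_simp
      ring
    have h8 : Real.log 2 ≤ Real.log x / (60 * J) := by
      rw [le_div_iff₀ (by positivity)]
      linarith
    linarith
  · have h5 : (⌊w⌋₊ : ℝ) ≤ w := Nat.floor_le hw0.le
    have h6 : ((⌊w⌋₊ : ℝ) ^ 15) ^ J ≤ (w ^ 15) ^ J := by gcongr
    have h7 : (w ^ 15) ^ J = Real.sqrt x := by
      rw [← pow_mul, hw, ← Real.rpow_natCast, ← Real.rpow_mul hx0.le, Real.sqrt_eq_rpow]
      congr 1
      rw [he]
      push_cast
      field_simp
      norm_num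
    rw [h7] at h6
    have h8 : 0 ≤ Real.sqrt x := Real.sqrt_nonneg _
    have h9 : Real.sqrt x * Real.sqrt x = x := Real.mul_self_sqrt hx0.le
    rw [le_div_iff₀ (by positivity)]
    calc (((⌊w⌋₊ : ℝ) ^ 15) ^ J + 1) * Real.log x ^ 2
        ≤ (Real.sqrt x + 1) * (Real.sqrt x / 2) := by
          refine mul_le_mul (by linarith) (by linarith) (by positivity) (by positivity)
      _ ≤ x := by nlinarith

/-- The number of exceptional primes is `o(x / log x)`. -/
theorem exc_small (ε : ℝ) (hε : 0 < ε) :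
    ∀ᶠ x : ℕ in atTop, ((exc x).card : ℝ) ≤ ε * (x / Real.log x) := by
  obtain ⟨J, hJ1, hJ⟩ : ∃ J : ℕ, 1 ≤ J ∧ 75 / (2 : ℝ) ^ J ≤ ε / 4 := by
    have h1 : Tendsto (fun J : ℕ => 75 / (2 : ℝ) ^ J) atTop (nhds 0) := by
      have := (tendsto_pow_atTop_nhds_zero_of_lt_one (r := (1 / 2 : ℝ)) (by norm_num)
        (by norm_num)).const_mul 75
      rw [mul_zero] at this
      refine this.congr fun J => ?_
      rw [one_div_pow]; ring
    have h2 := (h1.eventually (ge_mem_nhds (by positivity : (0 : ℝ) < ε / 4))).and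
      (eventually_ge_atTop 1)
    obtain ⟨J, h3, h4⟩ := h2.exists
    exact ⟨J, h4, h3⟩
  have hJr : (1 : ℝ) ≤ J := by exact_mod_cast hJ1
  set C : ℝ := 8 * 540 * (60 * J) ^ 2 * 20 ^ J with hC
  have hC0 : 0 < C := by positivity
  -- `t ^ (J+1) ≤ δ L`
  have hlog2 : Tendsto (fun x : ℕ => 2 * Real.log x) atTop atTop :=
    tendsto_log_nat.const_mul_atTop (by norm_num)
  have ht : Tendsto (fun x : ℕ => Real.log (2 * Real.log x)) atTop atTop :=
    Real.tendsto_log_atTop.comp hlog2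
  have hδ : 0 < ε / (8 * C) := by positivity
  have hpow : ∀ᶠ x : ℕ in atTop,
      (Real.log (2 * Real.log x)) ^ (J + 1) ≤ ε / (4 * C) * Real.log x := by
    have h1 := (Real.isLittleO_pow_log_id_atTop (n := J + 1)).bound (c := ε / (8 * C)) hδ
    have h2 := hlog2.eventually h1
    filter_upwards [h2, ht.eventually_ge_atTop 0, tendsto_log_nat.eventually_ge_atTop 0] with
      x h3 h4 h5
    rw [Real.norm_of_nonneg (by positivity), id, Real.norm_of_nonneg (by positivity)] at h3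
    calc _ ≤ ε / (8 * C) * (2 * Real.log x) := h3
      _ = _ := by field_simp; ring
  filter_upwards [eventually_level, eventually_levelJ J hJ1, hpow, ht.eventually_ge_atTop 1,
    tendsto_log_nat.eventually_ge_atTop 2,
    tendsto_log_nat.eventually_ge_atTop (4 * (4 + 2 ^ J) / ε),
    eventually_ge_atTop (2 ^ J), eventually_ge_atTop 3] with x h1 h2 h3 h4 h5 h6 h7 h8
  obtain ⟨Y, hY2, hYl, hY12⟩ := h1
  obtain ⟨Z, hZ2, hZl, hZp, hZL⟩ := h2
  have hxr : (3 : ℝ) ≤ x := by exact_mod_cast h8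
  have hx0 : (0 : ℝ) < x := by linarith
  set L := Real.log x with hL
  have hL0 : 0 < L := by linarith
  set t := Real.log (2 * L) with htdef
  have hlogsq : Real.log ((x ^ 2 : ℕ) : ℝ) = 2 * L := by
    push_cast
    rw [Real.log_pow]
    norm_num [hL]
  have hP : ∀ a : ℕ, 2 ≤ a → a ≤ x →
      ∏ p ∈ (a * (a - 1)).primeFactors, (1 + 1 / (p : ℝ)) ≤ 540 * t := by
    intro a ha hax
    have hh : a * (a - 1) ≠ 0 := Nat.mul_ne_zero (by omega) (by omega)
    have hle : a * (a - 1) ≤ x ^ 2 := by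
      rw [sq]
      exact Nat.mul_le_mul hax (by omega)
    have h3' : 3 ≤ x ^ 2 := by nlinarith
    have := prod_le_of_le h3' hh hle
    rwa [hlogsq] at this
  have hmain := card_exc_le x J Y Z hY2 hZ2 h8 (540 * t) hP
  have hYl0 : 0 < Real.log Y := by
    have : 0 < L / 25 := by positivity
    linarith
  have hZl0 : 0 < L / (60 * J) := by positivity
  have hZr : (2 : ℝ) ≤ Z := by exact_mod_cast hZ2
  have hYr : (2 : ℝ) ≤ Y := by exact_mod_cast hY2
  -- first term
  have b1 : 3 * ((x : ℝ) / 2 ^ J) / Real.log Y + 2 * (Y : ℝ) ^ 6 ≤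
      (75 / 2 ^ J) * (x / L) + x / L ^ 2 := by
    have e1 : 3 * ((x : ℝ) / 2 ^ J) / Real.log Y ≤ 3 * ((x : ℝ) / 2 ^ J) / (L / 25) := by
      gcongr
    have e2 : 3 * ((x : ℝ) / 2 ^ J) / (L / 25) = (75 / 2 ^ J) * (x / L) := by
      field_simp
      ring
    have e3 : (Y : ℝ) ^ 6 ≤ (Y : ℝ) ^ 12 := pow_le_pow_right₀ (by linarith) (by norm_num)
    linarith
  -- third term
  have hZpow : ∀ k : ℕ, 1 ≤ k → L ^ 2 ≤ (Z : ℝ) ^ k := by
    intro k hk
    refine hZL.trans ?_
    calc (Z : ℝ) = (Z : ℝ) ^ 1 := (pow_one _).symm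
      _ ≤ (Z : ℝ) ^ k := pow_le_pow_right₀ (by linarith) hk
  have b3 : 2 * (x : ℝ) / (Z : ℝ) ^ 5 ≤ 2 * (x / L ^ 2) := by
    rw [mul_div_assoc]
    gcongr
    exact hZpow 5 (by norm_num)
  have b5 : 2 ^ J * (x : ℝ) / (Z : ℝ) ^ 3 ≤ 2 ^ J * (x / L ^ 2) := by
    rw [mul_div_assoc]
    gcongr
    exact hZpow 3 (by norm_num)
  -- fourth term
  have b4 : 8 * (x : ℝ) * (540 * t) / (Real.log Z) ^ 2 * (1 + ppSum (2 ^ J * x)) ^ J ≤
      ε / 4 * (x / L) := by
    have e0 : 2 ≤ 2 ^ J * x := by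
      have : 1 ≤ 2 ^ J := Nat.one_le_two_pow
      nlinarith
    have e1 := ppSum_le e0
    have e2 : Real.log (Real.log ((2 ^ J * x : ℕ) : ℝ)) ≤ t := by
      have e3 : Real.log ((2 ^ J * x : ℕ) : ℝ) ≤ 2 * L := by
        rw [← hlogsq]
        refine Real.log_le_log (by exact_mod_cast (by omega : 0 < 2 ^ J * x)) ?_
        have : 2 ^ J * x ≤ x ^ 2 := by
          rw [sq]
          exact Nat.mul_le_mul_right _ h7
        exact_mod_cast this
      refine Real.log_le_log ?_ e3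
      exact Real.log_pos (by exact_mod_cast (by omega : 1 < 2 ^ J * x))
    have e3 : 1 + ppSum (2 ^ J * x) ≤ 20 * t := by linarith
    have e4 : 0 ≤ 1 + ppSum (2 ^ J * x) := by
      have := ppSum_nonneg (2 ^ J * x)
      linarith
    have t0 : 0 < t := by linarith
    calc 8 * (x : ℝ) * (540 * t) / (Real.log Z) ^ 2 * (1 + ppSum (2 ^ J * x)) ^ J
        ≤ 8 * (x : ℝ) * (540 * t) / (L / (60 * J)) ^ 2 * (20 * t) ^ J := by
          gcongr
      _ = (C * t ^ (J + 1)) * (x / L ^ 2) := by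
          rw [hC, mul_pow (20 : ℝ) t J, pow_succ t J]
          field_simp
      _ ≤ (C * (ε / (4 * C) * L)) * (x / L ^ 2) := by gcongr
      _ = _ := by
          field_simp
  -- assembling
  have b6 : (4 + 2 ^ J) * ((x : ℝ) / L ^ 2) ≤ ε / 4 * (x / L) := by
    rw [div_le_iff₀ hε] at h6
    have e1 : (x : ℝ) / L ^ 2 = (x / L) * (1 / L) := by field_simp
    rw [e1]
    have e2 : (4 + 2 ^ J) * (1 / L) ≤ ε / 4 := by
      rw [mul_one_div, div_le_iff₀ hL0]
      linarith
    have e3 : 0 ≤ (x : ℝ) / L := by positivity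
    calc (4 + 2 ^ J) * ((x : ℝ) / L * (1 / L)) = ((4 + 2 ^ J) * (1 / L)) * (x / L) := by ring
      _ ≤ _ := by gcongr
  have b7 : (75 / 2 ^ J) * ((x : ℝ) / L) ≤ ε / 4 * (x / L) := by gcongr
  have b8 : 0 ≤ ε * ((x : ℝ) / L) := by positivity
  have b9 : ((Z : ℝ) ^ 15) ^ J + 1 ≤ x / L ^ 2 := hZp
  have b10 : (4 + 2 ^ J) * ((x : ℝ) / L ^ 2) =
      x / L ^ 2 + x / L ^ 2 + 2 * (x / L ^ 2) + 2 ^ J * (x / L ^ 2) := by ring
  linarith

/-- A Chebyshev lower bound. -/
theorem eventually_pi_ge : ∀ᶠ x : ℕ in atTop, (x : ℝ) / Real.log x ≤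
    2 * ((primesLE x).card : ℝ) := by
  have h1 : ∀ᶠ x : ℕ in atTop, Real.log (x + 1) ≤ 0.19 * (x : ℝ) := by
    have h2 := (Real.isLittleO_log_id_atTop).bound (c := 0.1) (by norm_num)
    have h3 : Tendsto (fun x : ℕ => (x : ℝ) + 1) atTop atTop :=
      tendsto_atTop_add_const_right _ _ tendsto_natCast_atTop_atTop
    filter_upwards [h3.eventually h2, eventually_ge_atTop 2] with x h4 h5
    have hx : (2 : ℝ) ≤ x := by exact_mod_cast h5
    rw [Real.norm_of_nonneg (Real.log_nonneg (by linarith)), id,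
      Real.norm_of_nonneg (by positivity)] at h4
    linarith
  filter_upwards [h1, tendsto_log_nat.eventually_gt_atTop 0] with x h2 h3
  have h4 := Chebyshev.pi_ge x
  rw [Nat.primesLE_card_eq_primeCounting]
  have h5 := Real.log_two_gt_d9
  have h6 : (x : ℝ) / Real.log x ≤ 2 * ((x * Real.log 2 - Real.log (x + 1)) / Real.log x) := by
    rw [← mul_div_assoc]
    gcongr
    have hx : (0 : ℝ) ≤ x := by positivity
    nlinarith
  linarith

end

end Pool.Agent.Helper54.Tot
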