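import Pool.Agent.Helper54.InvDomain
import Pool.Agent.Helper54.CantorScheme

open Set Metric Filter Topology Function
open scoped NNReal ENNReal

namespace Pool.Agent.Helper54

variable {X : Type*} [NormedAddCommGroup X] [NormedSpace ℝ X] [FiniteDimensional ℝ X]

/-- Following a ray in the target until it leaves the image of a ball gives, upstairs, a continuum
from the starting point to the boundary of the ball. -/
lemma exit_continuum {f : X → X} {x : X} {r : ℝ}
    (hf : ContinuousOn f (closedBall x r)) (hinj : InjOn f (closedBall x r)) {z0 : X}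
    (hz0 : z0 ∈ ball x r) {e : X} (he : e ≠ 0) :
    ∃ K ⊆ closedBall x r, IsPreconnected K ∧ IsCompact K ∧ z0 ∈ K ∧ (∃ z1 ∈ K, dist z1 x = r) ∧
      ∀ z ∈ K, ∃ t : ℝ, 0 ≤ t ∧ f z = f z0 + t • e := by
  set B := closedBall x r with hB
  have hBc : IsCompact B := isCompact_closedBall _ _
  set K0 := f '' B with hK0
  have hK0c : IsCompact K0 := hBc.image_of_continuousOn hf
  set g : X → X := invFunOn f B with hg
  have hgmem : ∀ y ∈ K0, g y ∈ B := fun y hy => invFunOn_mem hy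
  have hgeq : ∀ y ∈ K0, f (g y) = y := fun y hy => invFunOn_eq hy
  have hgf : ∀ z ∈ B, g (f z) = z := fun z hz =>
    hinj (hgmem _ (mem_image_of_mem f hz)) hz (hgeq _ (mem_image_of_mem f hz))
  have hgcont : ContinuousOn g K0 := by
    rw [continuousOn_iff_isClosed]
    intro t ht
    refine ⟨f '' (B ∩ t), ((hBc.inter_right ht).image_of_continuousOn
      (hf.mono inter_subset_left)).isClosed, ?_⟩
    ext y
    constructor
    · rintro ⟨hy1, hy2⟩
      exact ⟨⟨g y, ⟨hgmem y hy2, hy1⟩, hgeq y hy2⟩, hy2⟩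
    · rintro ⟨⟨z, ⟨hzB, hzt⟩, rfl⟩, hy2⟩
      refine ⟨?_, hy2⟩
      rw [mem_preimage, hgf z hzB]
      exact hzt
  have hopen : IsOpen (f '' ball x r) :=
    invariance_of_domain isOpen_ball (hf.mono ball_subset_closedBall)
      (hinj.mono ball_subset_closedBall)
  have hz0B : z0 ∈ B := ball_subset_closedBall hz0
  set l : ℝ → X := fun s => f z0 + s • e with hl
  have hlcont : Continuous l := by fun_prop
  set T : Set ℝ := {t | 0 ≤ t ∧ ∀ s ∈ Icc 0 t, l s ∈ K0} with hT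
  have h0T : (0 : ℝ) ∈ T := by
    refine ⟨le_rfl, fun s hs => ?_⟩
    have : s = 0 := le_antisymm hs.2 hs.1
    rw [this]
    exact ⟨z0, hz0B, by simp [hl]⟩
  have hepos : 0 < ‖e‖ := norm_pos_iff.2 he
  obtain ⟨M, hM⟩ := hK0c.isBounded.exists_norm_le
  have hTbdd : BddAbove T := by
    refine ⟨(M + ‖f z0‖) / ‖e‖, fun t ht => ?_⟩
    rw [le_div_iff₀ hepos]
    have h1 := hM _ (ht.2 t ⟨ht.1, le_rfl⟩)
    calc t * ‖e‖ = ‖t • e‖ := by rw [norm_smul, Real.norm_of_nonneg ht.1]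
      _ = ‖l t - f z0‖ := by simp [hl]
      _ ≤ ‖l t‖ + ‖f z0‖ := norm_sub_le _ _
      _ ≤ M + ‖f z0‖ := by linarith
  set t1 := sSup T with ht1
  have ht1nn : 0 ≤ t1 := le_csSup hTbdd h0T
  have hlt : ∀ s, 0 ≤ s → s < t1 → l s ∈ K0 := by
    intro s hs0 hs1
    obtain ⟨t, htT, hst⟩ := exists_lt_of_lt_csSup ⟨0, h0T⟩ hs1
    exact htT.2 s ⟨hs0, hst.le⟩
  have hmem1 : l t1 ∈ K0 := by
    rcases ht1nn.eq_or_lt with h | h
    · rw [← h]; exact h0T.2 0 ⟨le_rfl, le_rfl⟩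
    · have hcl : closure (l '' Ico 0 t1) ⊆ K0 := by
        apply closure_minimal _ hK0c.isClosed
        rintro _ ⟨s, hs, rfl⟩
        exact hlt s hs.1 hs.2
      apply hcl
      apply image_closure_subset_closure_image hlcont
      refine ⟨t1, ?_, rfl⟩
      rw [closure_Ico h.ne]
      exact ⟨ht1nn, le_rfl⟩
  have hIcc : ∀ s ∈ Icc 0 t1, l s ∈ K0 := by
    intro s hs
    rcases hs.2.eq_or_lt with h | h
    · rw [h]; exact hmem1
    · exact hlt s hs.1 h
  set z1 := g (l t1) with hz1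
  have hz1B : z1 ∈ B := hgmem _ hmem1
  have hz1eq : f z1 = l t1 := hgeq _ hmem1
  have hz1d : dist z1 x = r := by
    by_contra hne
    have hlt1 : dist z1 x < r := lt_of_le_of_ne hz1B hne
    have h2 : l t1 ∈ f '' ball x r := ⟨z1, hlt1, hz1eq⟩
    have h3 : ∀ᶠ s in 𝓝 t1, l s ∈ f '' ball x r :=
      hlcont.continuousAt.eventually_mem (hopen.mem_nhds h2)
    obtain ⟨ε, hε, h4⟩ := Metric.eventually_nhds_iff.1 h3
    have h5 : t1 + ε / 2 ∈ T := by
      refine ⟨by linarith, fun s hs => ?_⟩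
      rcases le_or_gt s t1 with h | h
      · exact hIcc s ⟨hs.1, h⟩
      · have h6 : l s ∈ f '' ball x r := h4 (by
          rw [Real.dist_eq, abs_of_pos (by linarith)]
          linarith [hs.2])
        exact image_mono ball_subset_closedBall h6
    have h7 := le_csSup hTbdd h5
    linarith
  refine ⟨g '' (l '' Icc 0 t1), ?_, ?_, ?_, ?_, ?_, ?_⟩
  · rintro _ ⟨_, ⟨s, hs, rfl⟩, rfl⟩
    exact hgmem _ (hIcc s hs)
  · apply (isPreconnected_Icc.image l hlcont.continuousOn).image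
    apply hgcont.mono
    rintro _ ⟨s, hs, rfl⟩
    exact hIcc s hs
  · apply ((isCompact_Icc.image hlcont)).image_of_continuousOn
    apply hgcont.mono
    rintro _ ⟨s, hs, rfl⟩
    exact hIcc s hs
  · refine ⟨f z0, ⟨0, ⟨le_rfl, ht1nn⟩, by simp [hl]⟩, hgf z0 hz0B⟩
  · exact ⟨z1, ⟨l t1, ⟨t1, ⟨ht1nn, le_rfl⟩, rfl⟩, rfl⟩, hz1d⟩
  · rintro _ ⟨_, ⟨s, hs, rfl⟩, rfl⟩
    exact ⟨s, hs.1, hgeq _ (hIcc s hs)⟩

/-- A criterion for richness of `f ⁻¹' V`-type sets. -/
lemma rich_of_ray {f : X → X} {U O : Set X} (hf : ContinuousOn f U) (hinj : InjOn f U)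
    (hO : IsOpen O)
    (h : ∀ x : X, ∀ W : Set X, IsOpen W → x ∈ W → W ⊆ U → ∃ z ∈ W, ∃ e : X, e ≠ 0 ∧
      ∀ u ∈ U, ∀ t : ℝ, 0 ≤ t → f u = f z + t • e → u ∈ O) : Rich U O := by
  intro x r hr hxr
  have hr2 : closedBall x (r / 2) ⊆ U :=
    (closedBall_subset_closedBall (by linarith)).trans hxr
  obtain ⟨z, hz, e, he, hze⟩ := h x (ball x (r / 8)) isOpen_ball (mem_ball_self (by positivity))
    ((ball_subset_closedBall.trans (closedBall_subset_closedBall (by linarith))).trans hr2)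
  have hz2 : z ∈ ball x (r / 2) := ball_subset_ball (by linarith) hz
  obtain ⟨K, hKsub, hKconn, hKcomp, hzK, ⟨z1, hz1K, hz1d⟩, hK⟩ :=
    exit_continuum (hf.mono hr2) (hinj.mono hr2) hz2 he
  refine ⟨K, hKsub, hKconn, ⟨z1, hz1K, z, hzK, ?_⟩, ?_⟩
  · rw [mem_ball] at hz
    have := dist_triangle z1 z x
    rw [hz1d] at this
    linarith
  · have hKO : K ⊆ O := by
      intro u hu
      obtain ⟨t, ht, htu⟩ := hK u hu
      exact hze u (hr2 (hKsub hu)) t ht htu
    obtain ⟨δ, hδ, hδO⟩ := hKcomp.exists_cthickening_subset_open hO hKO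
    exact ⟨δ, hδ, fun y hy => (closedBall_subset_cthickening hy δ).trans hδO⟩

end Pool.Agent.Helper54
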